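import Pool.Agent.Helper23.CK.BA

set_option autoImplicit false

/-!
# `ℵ₂`-Kaufmann models and `ℵ₂`-Aronszajn trees in Boolean extensions

Truth values are elements of a complete Boolean algebra `B`.  A subset (a relation) of a set `A` of
the ground universe in the extension `V^B` is given by its characteristic function `A → B`
(`A → A → B`, ...), and a quantifier over the elements of `A` or over the subsets of `A` is an
infimum or a supremum over `A` or over `A → B`.  For `B = Prop` all definitions are the usual ones.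
-/

open Cardinal Set

namespace Pool.Agent.Helper84.Kauf

/-- the countable ordinals -/
abbrev K1 : Type := (aleph 1).ord.ToType

/-- the ordinals below `ω₂` -/
abbrev K2 : Type := (aleph 2).ord.ToType

/-! ## The language of arithmetic -/

/-- terms in the language `0, 1, +, ·, <` with variables `v₀, v₁, ...` -/
inductive Tm : Type
  | var : ℕ → Tm
  | zero : Tm
  | one : Tm
  | add : Tm → Tm → Tm
  | mul : Tm → Tm → Tm

/-- formulas in the language `0, 1, +, ·, <`; `all k φ` is `∀ v_k, φ` -/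
inductive Fm : Type
  | eq : Tm → Tm → Fm
  | lt : Tm → Tm → Fm
  | bot : Fm
  | imp : Fm → Fm → Fm
  | all : ℕ → Fm → Fm

/-- Goedel number of a term -/
def Tm.code : Tm → ℕ
  | .zero => 0
  | .one => 1
  | .var k => 3 * k + 2
  | .add t u => 3 * Nat.pair t.code u.code + 3
  | .mul t u => 3 * Nat.pair t.code u.code + 4

/-- Goedel number of a formula -/
def Fm.code : Fm → ℕ
  | .bot => 0
  | .eq t u => 4 * Nat.pair t.code u.code + 1
  | .lt t u => 4 * Nat.pair t.code u.code + 2
  | .imp φ ψ => 4 * Nat.pair φ.code ψ.code + 3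
  | .all k φ => 4 * Nat.pair k φ.code + 4

/-- variables of a term -/
def Tm.vars : Tm → Finset ℕ
  | .var k => {k}
  | .zero => ∅
  | .one => ∅
  | .add t u => t.vars ∪ u.vars
  | .mul t u => t.vars ∪ u.vars

/-- free variables of a formula -/
def Fm.fv : Fm → Finset ℕ
  | .bot => ∅
  | .eq t u => t.vars ∪ u.vars
  | .lt t u => t.vars ∪ u.vars
  | .imp φ ψ => φ.fv ∪ ψ.fv
  | .all k φ => φ.fv.erase k

/-- negation -/
def Fm.neg (φ : Fm) : Fm := .imp φ .bot

/-- existential quantifier -/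
def Fm.ex (k : ℕ) (φ : Fm) : Fm := (Fm.all k φ.neg).neg

/-- the finitely many axioms of Peano arithmetic other than induction (the variables are
universally quantified): `x + 1 ≠ 0`, `x + 1 = y + 1 → x = y`, `x + 0 = x`,
`x + (y + 1) = (x + y) + 1`, `x · 0 = 0`, `x · (y + 1) = x · y + x`,
`x < y → ∃ z, x + (z + 1) = y`, `x + (z + 1) = y → x < y` -/
def basicAxioms : List Fm :=
  let x := Tm.var 0
  let y := Tm.var 1
  let z := Tm.var 2
  [ (Fm.eq (x.add .one) .zero).neg,
    .imp (.eq (x.add .one) (y.add .one)) (.eq x y),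
    .eq (x.add .zero) x,
    .eq (x.add (y.add .one)) ((x.add y).add .one),
    .eq (x.mul .zero) .zero,
    .eq (x.mul (y.add .one)) ((x.mul y).add x),
    .imp (.lt x y) (Fm.ex 2 (.eq (x.add (z.add .one)) y)),
    .imp (.eq (x.add (z.add .one)) y) (.lt x y) ]

/-- a recursive set of formulas, all of whose free variables are among `v₀, ..., v_n` for some `n`:
a type in the variable `v₀` over finitely many parameters `v₁, ..., v_n` -/
def IsRecType (P : Set Fm) : Prop :=
  ComputablePred (fun n : ℕ => ∃ φ ∈ P, φ.code = n) ∧ ∃ n : ℕ, ∀ φ ∈ P, ∀ k ∈ φ.fv, k ≤ n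

/-! ## Boolean-valued structures -/

section

variable {B : Type} [CompleteBooleanAlgebra B] {A : Type}

/-- truth value of a statement of the ground universe -/
def tv (B : Type) [CompleteBooleanAlgebra B] (p : Prop) : B := ⨆ _ : p, ⊤

/-- truth value of an equivalence -/
def iffV (a b : B) : B := (a ⇨ b) ⊓ (b ⇨ a)

/-- a `B`-valued structure for the language of arithmetic with universe `A`: the graphs of the
functions and the order are `B`-valued relations (names of relations on `A`) -/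
structure BStr (B A : Type) where
  zero : A → B
  one : A → B
  add : A → A → A → B
  mul : A → A → A → B
  lt : A → A → B

variable (M : BStr B A)

/-- truth value of: the value of the term under the assignment `v` is `x` -/
def Tm.val (v : ℕ → A) : Tm → A → B
  | .var k, x => tv B (v k = x)
  | .zero, x => M.zero x
  | .one, x => M.one x
  | .add t u, x => ⨆ a, ⨆ b, t.val v a ⊓ u.val v b ⊓ M.add a b x
  | .mul t u, x => ⨆ a, ⨆ b, t.val v a ⊓ u.val v b ⊓ M.mul a b x

/-- truth value of a formula under the assignment `v` -/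
def Fm.val (v : ℕ → A) : Fm → B
  | .eq t u => ⨆ a, t.val M v a ⊓ u.val M v a
  | .lt t u => ⨆ a, ⨆ b, t.val M v a ⊓ u.val M v b ⊓ M.lt a b
  | .bot => ⊥
  | .imp φ ψ => φ.val v ⇨ ψ.val v
  | .all k φ => ⨅ a, φ.val (Function.update v k a)

namespace BStr

/-- truth value of: the constants and the operations are functions -/
def strVal : B :=
  (⨆ x, M.zero x) ⊓ (⨅ x, ⨅ y, M.zero x ⊓ M.zero y ⇨ tv B (x = y)) ⊓
  (⨆ x, M.one x) ⊓ (⨅ x, ⨅ y, M.one x ⊓ M.one y ⇨ tv B (x = y)) ⊓
  (⨅ a, ⨅ b, ⨆ x, M.add a b x) ⊓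
  (⨅ a, ⨅ b, ⨅ x, ⨅ y, M.add a b x ⊓ M.add a b y ⇨ tv B (x = y)) ⊓
  (⨅ a, ⨅ b, ⨆ x, M.mul a b x) ⊓
  (⨅ a, ⨅ b, ⨅ x, ⨅ y, M.mul a b x ⊓ M.mul a b y ⇨ tv B (x = y))

/-- truth value of the induction scheme: for every formula `φ`, every variable `v_k` and all values
of the other variables, if `φ(0)` and `φ(x)` implies `φ(x + 1)` for all `x`, then `φ(x)` for all
`x` -/
def indVal : B :=
  ⨅ φ : Fm, ⨅ k : ℕ, ⨅ v : ℕ → A,
    (⨅ x, M.zero x ⇨ φ.val M (Function.update v k x)) ⊓
    (⨅ x, ⨅ o, ⨅ y, M.one o ⊓ M.add x o y ⊓ φ.val M (Function.update v k x) ⇨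
      φ.val M (Function.update v k y)) ⇨
    ⨅ x, φ.val M (Function.update v k x)

/-- truth value of: `M` is a model of Peano arithmetic -/
def paVal : B :=
  M.strVal ⊓ (⨅ φ ∈ basicAxioms, ⨅ v : ℕ → A, φ.val M v) ⊓ M.indVal

/-- truth value of: every recursive type over finitely many parameters which is finitely
satisfiable is realised -/
def recSatVal : B :=
  ⨅ P : Set Fm, ⨅ _ : IsRecType P, ⨅ v : ℕ → A,
    (⨅ F : Finset Fm, ⨅ _ : (F : Set Fm) ⊆ P, ⨆ a, ⨅ φ ∈ F, φ.val M (Function.update v 0 a)) ⇨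
    ⨆ a, ⨅ φ ∈ P, φ.val M (Function.update v 0 a)

/-- truth value of: `X` is definable with parameters -/
def defVal (X : A → B) : B :=
  ⨆ φ : Fm, ⨆ v : ℕ → A, ⨅ x, iffV (X x) (φ.val M (Function.update v 0 x))

/-- truth value of: `X` is a class, that is, for all `a` the set of the elements of `X` below `a` is
definable with parameters -/
def classVal (X : A → B) : B := ⨅ a, M.defVal fun x => X x ⊓ M.lt x a

/-- truth value of: every class is definable with parameters -/
def rclVal : B := ⨅ X : A → B, M.classVal X ⇨ M.defVal X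

end BStr

/-- truth value of: the set `X` has fewer than `ℵ₂` elements, that is, for some ordinal `γ < ω₂`
there is a relation `F` such that every element of `X` is related to an ordinal below `γ` and
different elements are not related to the same ordinal -/
def smallVal (X : A → B) : B :=
  ⨆ γ : K2, ⨆ F : A → K2 → B,
    (⨅ x, X x ⇨ ⨆ y, tv B (y < γ) ⊓ F x y) ⊓
    (⨅ x, ⨅ x', ⨅ y, F x y ⊓ F x' y ⇨ tv B (x = x'))

/-- truth value of: `M` is an `ℵ₂`-Kaufmann model, that is, a recursively saturated, rather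
classless, `ℵ₂`-like model of Peano arithmetic (the universe of `M` is the set of all ordinals
below `ω₂`) -/
def kaufVal (M : BStr B K2) : B :=
  M.paVal ⊓ (⨅ a, smallVal fun x => M.lt x a) ⊓ M.recSatVal ⊓ M.rclVal

/-! ## Trees -/

/-- a `B`-valued tree: a `B`-valued subset `U` of a set `A`, with a `B`-valued order `lt` and a
`B`-valued relation `lev x ξ` (the node `x` has level `ξ`) -/
structure BTree (B A : Type) where
  U : A → B
  lt : A → A → B
  lev : A → K2 → B

namespace BTree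

variable (T : BTree B A)

/-- truth value of: `T` is a tree of height `ω₂` all of whose levels have fewer than `ℵ₂`
elements.  The clauses are: `<` is a strict partial order; every node has exactly one level;
the level is strictly increasing; a node `y` of level `ζ` has exactly one predecessor of level `ξ`
for every `ξ < ζ`; no level is empty; the levels have fewer than `ℵ₂` elements -/
def treeVal : B :=
  (⨅ x, (T.U x ⊓ T.lt x x)ᶜ) ⊓
  (⨅ x, ⨅ y, ⨅ z, T.U x ⊓ T.U y ⊓ T.U z ⊓ T.lt x y ⊓ T.lt y z ⇨ T.lt x z) ⊓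
  (⨅ x, T.U x ⇨ ⨆ ξ, T.lev x ξ) ⊓
  (⨅ x, ⨅ ξ, ⨅ ζ, T.U x ⊓ T.lev x ξ ⊓ T.lev x ζ ⇨ tv B (ξ = ζ)) ⊓
  (⨅ x, ⨅ y, ⨅ ξ, ⨅ ζ, T.U x ⊓ T.U y ⊓ T.lt x y ⊓ T.lev x ξ ⊓ T.lev y ζ ⇨ tv B (ξ < ζ)) ⊓
  (⨅ y, ⨅ ξ, ⨅ ζ, T.U y ⊓ T.lev y ζ ⊓ tv B (ξ < ζ) ⇨ ⨆ x, T.U x ⊓ T.lt x y ⊓ T.lev x ξ) ⊓
  (⨅ y, ⨅ x, ⨅ x', ⨅ ξ, T.U y ⊓ T.U x ⊓ T.U x' ⊓ T.lt x y ⊓ T.lt x' y ⊓ T.lev x ξ ⊓ T.lev x' ξ ⇨
    tv B (x = x')) ⊓
  (⨅ ξ, ⨆ x, T.U x ⊓ T.lev x ξ) ⊓
  (⨅ ξ, smallVal fun x => T.U x ⊓ T.lev x ξ)

/-- truth value of: `b` is a cofinal branch of `T` (a chain which meets every level) -/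
def branchVal (b : A → B) : B :=
  (⨅ x, b x ⇨ T.U x) ⊓
  (⨅ x, ⨅ y, b x ⊓ b y ⇨ tv B (x = y) ⊔ T.lt x y ⊔ T.lt y x) ⊓
  (⨅ ξ, ⨆ x, b x ⊓ T.lev x ξ)

end BTree

/-- in `V^B` there is no `ℵ₂`-Kaufmann model -/
def NoKaufmann (B : Type) [CompleteBooleanAlgebra B] : Prop :=
  ∀ M : BStr B K2, kaufVal M = ⊥

/-- in `V^B` there is an `ℵ₂`-Aronszajn tree -/
def HasAronszajn (B : Type) [CompleteBooleanAlgebra B] : Prop :=
  ∃ (A : Type) (T : BTree B A), T.treeVal = ⊤ ∧ ∀ b, T.branchVal b = ⊥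

/-- `B` is `(ω₁, ∞)`-distributive: `V^B` has no new functions with domain `ω₁` and values in the
ground universe (so it has the same `ω₁`, the same `ω₂` and the same subsets of `ω₁`) -/
def IsDistributive (B : Type) [CompleteBooleanAlgebra B] : Prop :=
  ∀ (I J : Type), #I ≤ aleph 1 → ∀ x : I → J → B, ⨅ i, ⨆ j, x i j = ⨆ f : I → J, ⨅ i, x i (f i)

end

/-! ## The Proper Forcing Axiom -/

section PFA

variable {P : Type} [Preorder P]

/-- a dense set of conditions -/
def IsDenseSet (D : Set P) : Prop := ∀ p, ∃ q ≤ p, q ∈ D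

/-- `P` is proper: for a club of countable sets `M` of conditions and of sets of conditions
(the countable sets `M` closed under some operation `F` with countable values), every condition
`p` in `M` has an extension `q` which is generic for `M`: for every dense set `D` in `M`, the set
`D ∩ M` is predense below `q` -/
def IsProper (P : Type) [Preorder P] : Prop :=
  ∃ F : List (P ⊕ Set P) → Set (P ⊕ Set P), (∀ l, (F l).Countable) ∧
    ∀ M : Set (P ⊕ Set P), M.Countable → (∀ l : List (P ⊕ Set P), (∀ x ∈ l, x ∈ M) → F l ⊆ M) →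
      ∀ p : P, Sum.inl p ∈ M → ∃ q ≤ p, ∀ D : Set P, Sum.inr D ∈ M → IsDenseSet D →
        ∀ r ≤ q, ∃ s ∈ D, Sum.inl s ∈ M ∧ ∃ t, t ≤ r ∧ t ≤ s

end PFA

/-- the Proper Forcing Axiom: for every proper poset `P` and every family of `ℵ₁` dense sets
there is a filter on `P` which meets all of them -/
def PFA : Prop :=
  ∀ (P : Type) [Preorder P] [Nonempty P], IsProper P → ∀ D : K1 → Set P, (∀ i, IsDenseSet (D i)) →
    ∃ G : Set P, (∀ p ∈ G, ∀ q, p ≤ q → q ∈ G) ∧ (∀ p ∈ G, ∀ q ∈ G, ∃ r ∈ G, r ≤ p ∧ r ≤ q) ∧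
      ∀ i, ∃ p ∈ G, p ∈ D i

end Pool.Agent.Helper84.Kauf
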