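import Pool.Agent.Helper84.Kauf.Force

set_option autoImplicit false

/-!
# Truth values: membership, congruence, countability of formulas
-/

open Cardinal Set
open Pool.Agent.Helper23.CK (RO)

namespace Pool.Agent.Helper84.Kauf

section RO
variable {P : Type} [Preorder P]

theorem mem_tv {p : P} {φ : Prop} : p ∈ (tv (RO P) φ).carrier ↔ φ := by
  rw [tv, RO.mem_iSup]
  constructor
  · intro h
    obtain ⟨_, _, h, _⟩ := h p le_rfl
    exact h
  · intro h q _
    exact ⟨q, le_rfl, h, RO.mem_top⟩

theorem mem_iffV {p : P} {a b : RO P} : p ∈ (iffV a b).carrier ↔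
    ∀ q ≤ p, (q ∈ a.carrier ↔ q ∈ b.carrier) := by
  rw [iffV, RO.mem_inf, RO.mem_himp, RO.mem_himp]
  constructor
  · rintro ⟨h, h'⟩ q hq
    exact ⟨h q hq, h' q hq⟩
  · intro h
    exact ⟨fun q hq => (h q hq).1, fun q hq => (h q hq).2⟩

theorem mem_iSup_of_mem {ι : Sort*} {f : ι → RO P} {p : P} (i : ι) (h : p ∈ (f i).carrier) :
    p ∈ (⨆ i, f i).carrier := RO.mem_iSup.2 fun q hq => ⟨q, le_rfl, i, (f i).lower hq h⟩

theorem not_mem_both {p : P} {a : RO P} (h : p ∈ a.carrier) (h' : p ∈ (aᶜ).carrier) : False :=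
  h' p le_rfl h

theorem mem_compl_compl {p : P} {a : RO P} : p ∈ (aᶜᶜ).carrier ↔ p ∈ a.carrier := by
  rw [compl_compl]

end RO

section
variable {B : Type} [CompleteBooleanAlgebra B] {A : Type}

theorem tv_true {p : Prop} (h : p) : tv B p = ⊤ := by
  rw [tv]
  exact iSup_pos h

theorem tv_false {p : Prop} (h : ¬ p) : tv B p = ⊥ := by
  rw [tv]
  exact iSup_neg h

theorem iSup_tv_inf (a : A) (f : A → B) : ⨆ x, tv B (a = x) ⊓ f x = f a := by
  apply le_antisymm
  · refine iSup_le fun x => ?_
    by_cases h : a = x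
    · subst h
      exact inf_le_right
    · rw [tv_false h, bot_inf_eq]
      exact bot_le
  · refine le_trans ?_ (le_iSup (fun x => tv B (a = x) ⊓ f x) a)
    rw [tv_true rfl, top_inf_eq]

theorem iSup_inf_tv (a : A) (f : A → B) : ⨆ x, f x ⊓ tv B (a = x) = f a := by
  have h : (fun x => f x ⊓ tv B (a = x)) = fun x => tv B (a = x) ⊓ f x := funext fun x => inf_comm _ _
  rw [h]
  exact iSup_tv_inf a f

theorem Tm.val_congr (M : BStr B A) (t : Tm) {v w : ℕ → A} (h : ∀ k ∈ t.vars, v k = w k) :
    t.val M v = t.val M w := by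
  induction t with
  | var k =>
    funext x
    simp only [Tm.val]
    rw [h k (by simp [Tm.vars])]
  | zero => rfl
  | one => rfl
  | add t u iht ihu =>
    funext x
    simp only [Tm.val]
    rw [iht fun k hk => h k (by simp [Tm.vars, hk]), ihu fun k hk => h k (by simp [Tm.vars, hk])]
  | mul t u iht ihu =>
    funext x
    simp only [Tm.val]
    rw [iht fun k hk => h k (by simp [Tm.vars, hk]), ihu fun k hk => h k (by simp [Tm.vars, hk])]

theorem Fm.val_congr (M : BStr B A) (φ : Fm) {v w : ℕ → A} (h : ∀ k ∈ φ.fv, v k = w k) :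
    φ.val M v = φ.val M w := by
  induction φ generalizing v w with
  | eq t u =>
    simp only [Fm.val]
    rw [Tm.val_congr M t fun k hk => h k (by simp [Fm.fv, hk]),
      Tm.val_congr M u fun k hk => h k (by simp [Fm.fv, hk])]
  | lt t u =>
    simp only [Fm.val]
    rw [Tm.val_congr M t fun k hk => h k (by simp [Fm.fv, hk]),
      Tm.val_congr M u fun k hk => h k (by simp [Fm.fv, hk])]
  | bot => rfl
  | imp φ ψ ihφ ihψ =>
    simp only [Fm.val]
    rw [ihφ fun k hk => h k (by simp [Fm.fv, hk]), ihψ fun k hk => h k (by simp [Fm.fv, hk])]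
  | all k φ ih =>
    simp only [Fm.val]
    refine iInf_congr fun a => ih fun j hj => ?_
    by_cases hjk : j = k
    · subst hjk
      simp
    · rw [Function.update_of_ne hjk, Function.update_of_ne hjk]
      exact h j (by simp [Fm.fv, hj, hjk])

/-- satisfaction only depends on the values of the free variables (also in module A) -/
theorem Tm.ev_congr' (N : NStr A) (t : Tm) {v w : ℕ → A} (h : ∀ k ∈ t.vars, v k = w k) :
    t.ev N v = t.ev N w := by
  induction t with
  | var k => exact h k (by simp [Tm.vars])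
  | zero => rfl
  | one => rfl
  | add t u iht ihu =>
    simp only [Tm.ev]
    rw [iht fun k hk => h k (by simp [Tm.vars, hk]), ihu fun k hk => h k (by simp [Tm.vars, hk])]
  | mul t u iht ihu =>
    simp only [Tm.ev]
    rw [iht fun k hk => h k (by simp [Tm.vars, hk]), ihu fun k hk => h k (by simp [Tm.vars, hk])]

theorem Fm.sat_congr' (N : NStr A) (φ : Fm) {v w : ℕ → A} (h : ∀ k ∈ φ.fv, v k = w k) :
    φ.sat N v ↔ φ.sat N w := by
  induction φ generalizing v w with
  | eq t u =>
    simp only [Fm.sat]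
    rw [Tm.ev_congr' N t fun k hk => h k (by simp [Fm.fv, hk]),
      Tm.ev_congr' N u fun k hk => h k (by simp [Fm.fv, hk])]
  | lt t u =>
    simp only [Fm.sat]
    rw [Tm.ev_congr' N t fun k hk => h k (by simp [Fm.fv, hk]),
      Tm.ev_congr' N u fun k hk => h k (by simp [Fm.fv, hk])]
  | bot => rfl
  | imp φ ψ ihφ ihψ =>
    simp only [Fm.sat]
    rw [ihφ fun k hk => h k (by simp [Fm.fv, hk]), ihψ fun k hk => h k (by simp [Fm.fv, hk])]
  | all k φ ih =>
    simp only [Fm.sat]
    refine forall_congr' fun a => ih fun j hj => ?_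
    by_cases hjk : j = k
    · subst hjk
      simp
    · rw [Function.update_of_ne hjk, Function.update_of_ne hjk]
      exact h j (by simp [Fm.fv, hj, hjk])

theorem Fm.val_neg (M : BStr B A) (φ : Fm) (v : ℕ → A) : φ.neg.val M v = (φ.val M v)ᶜ := by
  simp [Fm.neg, Fm.val]

theorem Fm.val_ex (M : BStr B A) (k : ℕ) (φ : Fm) (v : ℕ → A) :
    (Fm.ex k φ).val M v = ⨆ a, φ.val M (Function.update v k a) := by
  simp only [Fm.ex, Fm.val_neg, Fm.val, compl_iInf, compl_compl]

theorem Fm.val_and (M : BStr B A) (φ ψ : Fm) (v : ℕ → A) :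
    (φ.and ψ).val M v = φ.val M v ⊓ ψ.val M v := by
  simp only [Fm.and, Fm.val_neg, Fm.val, himp_eq, compl_sup, compl_compl]
  rw [inf_comm]

theorem Fm.val_iff (M : BStr B A) (φ ψ : Fm) (v : ℕ → A) :
    (φ.iff ψ).val M v = iffV (φ.val M v) (ψ.val M v) := by
  simp only [Fm.iff, Fm.val_and, Fm.val, iffV]

theorem Fm.sat_neg' (N : NStr A) (φ : Fm) (v : ℕ → A) : φ.neg.sat N v ↔ ¬ φ.sat N v := Iff.rfl

theorem Fm.sat_ex' (N : NStr A) (k : ℕ) (φ : Fm) (v : ℕ → A) :
    (Fm.ex k φ).sat N v ↔ ∃ a, φ.sat N (Function.update v k a) := by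
  simp only [Fm.ex, Fm.sat_neg', Fm.sat]
  push Not
  rfl

theorem Fm.sat_and' (N : NStr A) (φ ψ : Fm) (v : ℕ → A) :
    (φ.and ψ).sat N v ↔ φ.sat N v ∧ ψ.sat N v := by
  simp only [Fm.and, Fm.sat_neg', Fm.sat]
  push Not
  rfl

theorem Fm.sat_iff' (N : NStr A) (φ ψ : Fm) (v : ℕ → A) :
    (φ.iff ψ).sat N v ↔ (φ.sat N v ↔ ψ.sat N v) := by
  simp only [Fm.iff, Fm.sat_and', Fm.sat, iff_def]

end

/-! ## There are countably many formulas -/

theorem Tm.code_inj' : ∀ t u : Tm, t.code = u.code → t = u := by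
  intro t
  induction t with
  | zero => intro u h; cases u <;> simp [Tm.code] at h ⊢
  | one => intro u h; cases u <;> simp [Tm.code] at h ⊢
  | var k =>
    intro u h
    cases u with
    | var j =>
      simp only [Tm.code] at h
      have : k = j := by omega
      rw [this]
    | _ => simp only [Tm.code] at h; omega
  | add t u iht ihu =>
    intro w h
    cases w with
    | add t' u' =>
      simp only [Tm.code] at h
      have h' : Nat.pair t.code u.code = Nat.pair t'.code u'.code := by omega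
      obtain ⟨h1, h2⟩ := Nat.pair_eq_pair.1 h'
      rw [iht _ h1, ihu _ h2]
    | _ => simp only [Tm.code] at h; omega
  | mul t u iht ihu =>
    intro w h
    cases w with
    | mul t' u' =>
      simp only [Tm.code] at h
      have h' : Nat.pair t.code u.code = Nat.pair t'.code u'.code := by omega
      obtain ⟨h1, h2⟩ := Nat.pair_eq_pair.1 h'
      rw [iht _ h1, ihu _ h2]
    | _ => simp only [Tm.code] at h; omega

theorem Fm.code_inj' : ∀ φ ψ : Fm, φ.code = ψ.code → φ = ψ := by
  intro φ
  induction φ with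
  | bot => intro u h; cases u <;> simp [Fm.code] at h ⊢
  | eq t u =>
    intro w h
    cases w with
    | eq t' u' =>
      simp only [Fm.code] at h
      have h' : Nat.pair t.code u.code = Nat.pair t'.code u'.code := by omega
      obtain ⟨h1, h2⟩ := Nat.pair_eq_pair.1 h'
      rw [Tm.code_inj' _ _ h1, Tm.code_inj' _ _ h2]
    | _ => simp only [Fm.code] at h; omega
  | lt t u =>
    intro w h
    cases w with
    | lt t' u' =>
      simp only [Fm.code] at h
      have h' : Nat.pair t.code u.code = Nat.pair t'.code u'.code := by omega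
      obtain ⟨h1, h2⟩ := Nat.pair_eq_pair.1 h'
      rw [Tm.code_inj' _ _ h1, Tm.code_inj' _ _ h2]
    | _ => simp only [Fm.code] at h; omega
  | imp φ ψ ihφ ihψ =>
    intro w h
    cases w with
    | imp φ' ψ' =>
      simp only [Fm.code] at h
      have h' : Nat.pair φ.code ψ.code = Nat.pair φ'.code ψ'.code := by omega
      obtain ⟨h1, h2⟩ := Nat.pair_eq_pair.1 h'
      rw [ihφ _ h1, ihψ _ h2]
    | _ => simp only [Fm.code] at h; omega
  | all k φ ih =>
    intro w h
    cases w with
    | all k' φ' =>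
      simp only [Fm.code] at h
      have h' : Nat.pair k φ.code = Nat.pair k' φ'.code := by omega
      obtain ⟨h1, h2⟩ := Nat.pair_eq_pair.1 h'
      rw [h1, ih _ h2]
    | _ => simp only [Fm.code] at h; omega

instance : Countable Fm := Function.Injective.countable (f := Fm.code) fun a b h => Fm.code_inj' a b h

end Pool.Agent.Helper84.Kauf
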