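import Pool.Agent.Helper84.Kauf.Posets

set_option autoImplicit false

/-!
# The generic tree is an Aronszajn tree
-/

open Cardinal Set
open Pool.Agent.Helper23.CK (RO)

namespace Pool.Agent.Helper84.Kauf

theorem exists_big : ∃ γ : K2, aleph 1 ≤ #(Iio γ) := by
  have h1 : #K1 ≤ #K2 := by
    rw [mk_K1, mk_K2]
    exact aleph_le_aleph.2 (by norm_num)
  obtain ⟨f⟩ := (Cardinal.le_def _ _).1 h1
  obtain ⟨γ, hγ⟩ := exists_bound mk_K1.le f
  refine ⟨γ, ?_⟩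
  rw [← mk_K1]
  exact mk_le_of_injective (f := fun x : K1 => (⟨f x, hγ x⟩ : Iio γ)) fun a b h => by
    simpa using h

/-- a name for a subset of a set of size `ℵ₁` of the ground universe is small -/
theorem mem_small {P : Type} [Preorder P] {A : Type} (X : A → RO P) (q : P) (L : Set A)
    (hL : #L ≤ aleph 1) (h : ∀ r ≤ q, ∀ x, r ∈ (X x).carrier → x ∈ L) :
    q ∈ (smallVal X).carrier := by
  classical
  obtain ⟨γ, hγ⟩ := exists_big
  obtain ⟨g⟩ := (Cardinal.le_def _ _).1 (hL.trans hγ)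
  let F : A → K2 → RO P := fun x y => tv (RO P) (∃ hx : x ∈ L, (g ⟨x, hx⟩ : K2) = y)
  refine mem_iSup_of_mem γ (mem_iSup_of_mem F ?_)
  rw [RO.mem_inf]
  constructor
  · rw [RO.mem_iInf]
    intro x
    rw [RO.mem_himp]
    intro r hr hrx
    have hx := h r hr x hrx
    refine mem_iSup_of_mem (g ⟨x, hx⟩ : K2) ?_
    rw [RO.mem_inf, mem_tv, mem_tv]
    exact ⟨(g ⟨x, hx⟩).2, hx, rfl⟩
  · simp only [RO.mem_iInf, RO.mem_himp, RO.mem_inf, mem_tv, F]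
    rintro x x' y r _ ⟨⟨hx, h1⟩, hx', h2⟩
    have h3 : g ⟨x, hx⟩ = g ⟨x', hx'⟩ := Subtype.ext (h1.trans h2.symm)
    simpa using g.injective h3

/-- the conditions which decide that `Z` is a node of level `α` of the generic tree -/
def inTree (x : K2 × Set K2) : Set Cond := {s | x.1 ≤ s.η ∧ ∃ X ∈ s.L, X ∩ Iio x.1 = x.2}

theorem inTree_open (x : K2 × Set K2) (s t : Cond) (h : t ≤ s) (hs : s ∈ inTree x) : t ∈ inTree x := by
  obtain ⟨h1, X, hX, h2⟩ := hs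
  obtain ⟨Y, hY, hYX⟩ := Cond.exists_ext h hX
  refine ⟨h1.trans h.1, Y, hY, ?_⟩
  rw [← h2, ← hYX, inter_assoc, Iio_inter_Iio, min_eq_right h1]

/-- the generic tree -/
def genTree : BTree (RO Cond) (K2 × Set K2) where
  U x := RO.hull (inTree x) (inTree_open x)
  lt x y := tv _ (Nd.Lt x y)
  lev x ξ := tv _ (x.1 = ξ)

theorem mem_genTree {s : Cond} {x : K2 × Set K2} : s ∈ (genTree.U x).carrier ↔
    ∀ t ≤ s, ∃ r ≤ t, r ∈ inTree x := Iff.rfl

theorem genTree_lt {s : Cond} {x y : K2 × Set K2} : s ∈ (genTree.lt x y).carrier ↔ Nd.Lt x y := mem_tv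

theorem genTree_lev {s : Cond} {x : K2 × Set K2} {ξ : K2} :
    s ∈ (genTree.lev x ξ).carrier ↔ x.1 = ξ := mem_tv

/-- if `s` has height at least the level of `x` then it decides whether `x` is a node -/
theorem genTree_of_high {s : Cond} {x : K2 × Set K2} (h : x.1 ≤ s.η)
    (hs : s ∈ (genTree.U x).carrier) : s ∈ inTree x := by
  obtain ⟨r, hr, h1, X, hX, h2⟩ := mem_genTree.1 hs s le_rfl
  refine ⟨h, X ∩ Iio s.η, Cond.restr_mem hr hX, ?_⟩
  rw [inter_assoc, Iio_inter_Iio, min_eq_right h]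
  exact h2

theorem genTree_treeVal : genTree.treeVal = ⊤ := by
  refine RO.eq_top fun p => ⟨p, le_rfl, ?_⟩
  simp only [BTree.treeVal, RO.mem_inf, RO.mem_iInf, RO.mem_himp, RO.mem_compl, genTree_lt,
    genTree_lev, mem_tv]
  refine ⟨⟨⟨⟨⟨⟨⟨⟨?_, ?_⟩, ?_⟩, ?_⟩, ?_⟩, ?_⟩, ?_⟩, ?_⟩, ?_⟩
  · rintro x q _ ⟨_, h⟩
    exact h.1.false
  · rintro x y z q _ ⟨⟨_, h1⟩, h2⟩
    refine ⟨h1.1.trans h2.1, ?_⟩
    rw [h1.2, h2.2, inter_assoc, Iio_inter_Iio, min_eq_right h1.1.le]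
  · intro x q _ _
    exact mem_iSup_of_mem x.1 (genTree_lev.2 rfl)
  · rintro x ξ ζ q _ ⟨⟨_, h1⟩, h2⟩
    exact h1.symm.trans h2
  · rintro x y ξ ζ q _ ⟨⟨⟨_, h1⟩, h2⟩, h3⟩
    rw [← h2, ← h3]
    exact h1.1
  · rintro y ξ ζ q _ ⟨⟨h1, h2⟩, h3⟩
    refine mem_iSup_of_mem (ξ, y.2 ∩ Iio ξ) ?_
    rw [RO.mem_inf, RO.mem_inf, genTree_lt, genTree_lev, mem_genTree]
    rw [← h2] at h3
    refine ⟨⟨?_, h3, rfl⟩, rfl⟩
    intro t ht
    obtain ⟨r, hr, hr1, X, hX, hr2⟩ := mem_genTree.1 h1 t ht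
    refine ⟨r, hr, h3.le.trans hr1, X, hX, ?_⟩
    rw [← hr2, inter_assoc, Iio_inter_Iio, min_eq_right h3.le]
  · rintro y x x' ξ q _ ⟨⟨⟨⟨_, h1⟩, h2⟩, h3⟩, h4⟩
    refine Prod.ext (h3.trans h4.symm) ?_
    rw [h1.2, h2.2, h3, h4]
  · intro ξ
    rw [RO.mem_iSup]
    intro q _
    obtain ⟨t, ht, htξ⟩ := Cond.exists_higher q ξ
    obtain ⟨X, hX⟩ := t.ne
    refine ⟨t, ht, (ξ, X ∩ Iio ξ), ?_⟩
    rw [RO.mem_inf, genTree_lev]
    exact ⟨RO.subset_hull (hU := inTree_open _) ⟨htξ, X, hX, rfl⟩, rfl⟩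
  · intro ξ
    refine ((smallVal fun x => genTree.U x ⊓ genTree.lev x ξ).regular p).2 fun q _ => ?_
    obtain ⟨t, ht, htξ⟩ := Cond.exists_higher q ξ
    refine ⟨t, ht, mem_small _ t ((fun X => (ξ, X ∩ Iio ξ)) '' t.L) (mk_image_le.trans t.card) ?_⟩
    rintro r hr x hx
    rw [RO.mem_inf, genTree_lev] at hx
    obtain ⟨hx, rfl⟩ := hx
    obtain ⟨h1, X, hX, h2⟩ := genTree_of_high (htξ.trans hr.1) hx
    refine ⟨X ∩ Iio t.η, Cond.restr_mem hr hX, ?_⟩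
    simp only [inter_assoc, Iio_inter_Iio, min_eq_right htξ]
    rw [h2]

theorem genTree_branchVal (b : K2 × Set K2 → RO Cond) : genTree.branchVal b = ⊥ := by
  by_contra hne
  obtain ⟨s₀, hs₀⟩ := RO.ne_bot hne
  simp only [BTree.branchVal, RO.mem_inf, RO.mem_iInf, RO.mem_himp] at hs₀
  obtain ⟨⟨h1, h2⟩, h3⟩ := hs₀
  have hcomp : ∀ x y, ∀ r ≤ s₀, r ∈ (b x).carrier → r ∈ (b y).carrier → Nd.Comp x y := by
    intro x y r hr hx hy
    obtain ⟨t, ht, h⟩ := h2 x y r hr ⟨hx, hy⟩ r le_rfl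
    rcases h with h | h
    · obtain ⟨t', _, h⟩ := h t le_rfl
      rcases h with h | h
      · exact Or.inl (mem_tv.1 h)
      · exact Or.inr (Or.inl (mem_tv.1 h))
    · exact Or.inr (Or.inr (mem_tv.1 h))
  have hdec : ∀ ξ, ∀ r ≤ s₀, ∃ t ≤ r, ∃ Z, t ∈ (b (ξ, Z)).carrier := by
    intro ξ r hr
    obtain ⟨t, ht, x, hx⟩ := RO.mem_iSup.1 (h3 ξ) r hr
    rw [RO.mem_inf, genTree_lev] at hx
    obtain ⟨hx, rfl⟩ := hx
    exact ⟨t, ht, x.2, hx⟩
  -- one step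
  have step : ∀ p : {p : PCond Unit // p.s ≤ s₀}, ∃ q : {p : PCond Unit // p.s ≤ s₀}, q.1 ≤ p.1 ∧
      ∃ ζ Z, p.1.s.η < ζ ∧ ζ ≤ q.1.s.η ∧ q.1.s ∈ (b (ζ, Z)).carrier ∧
        ¬ (p.1.s.η ∈ q.1.X () ↔ p.1.s.η ∈ Z) := by
    rintro ⟨p, hp⟩
    obtain ⟨ζ, hζ⟩ := exists_gt_K2 p.s.η
    obtain ⟨t, ht, Z, hZ⟩ := hdec ζ p.s hp
    obtain ⟨t', ht', hζt⟩ := Cond.exists_higher t ζ
    have htp : t' ≤ p.s := ht'.trans ht
    obtain ⟨X, hX, hXp⟩ := Cond.exists_ext htp (p.mem ())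
    have hη : p.s.η < t'.η := hζ.trans_le hζt
    have hX' : symmDiff X {p.s.η} ∈ t'.L := t'.flip _ hX _ hη
    have hX'p : symmDiff X {p.s.η} ∩ Iio p.s.η = p.X () := by
      rw [← hXp]
      ext x
      simp only [mem_inter_iff, mem_symmDiff, mem_singleton_iff, mem_Iio]
      constructor
      · rintro ⟨⟨h, _⟩ | ⟨h, _⟩, h'⟩
        · exact ⟨h, h'⟩
        · exact (h'.ne h).elim
      · rintro ⟨h, h'⟩
        exact ⟨Or.inl ⟨h, h'.ne⟩, h'⟩
    by_cases hc : p.s.η ∈ X ↔ p.s.η ∈ Z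
    · refine ⟨⟨⟨t', fun _ => symmDiff X {p.s.η}, fun _ => hX'⟩, htp.trans hp⟩, ⟨htp, fun _ => hX'p⟩,
        ζ, Z, hζ, hζt, RO.lower _ ht' hZ, ?_⟩
      simp only [mem_symmDiff, mem_singleton_iff]
      tauto
    · exact ⟨⟨⟨t', fun _ => X, fun _ => hX⟩, htp.trans hp⟩, ⟨htp, fun _ => hXp⟩,
        ζ, Z, hζ, hζt, RO.lower _ ht' hZ, hc⟩
  choose g hg ζ Z hζ hζ' hZ hd using step
  obtain ⟨p₀, hp₀⟩ := PCond.surjective_s (ι := Unit) s₀
  let p : ℕ → {p : PCond Unit // p.s ≤ s₀} := fun n => Nat.rec ⟨p₀, hp₀.le⟩ (fun _ x => g x) n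
  have hp : ∀ n, (p (n + 1)).1 ≤ (p n).1 := fun n => hg (p n)
  have hanti : Antitone fun n => (p n).1 := antitone_nat_of_succ_le hp
  let C : Set (PCond Unit) := range fun n => (p n).1
  have hne : C.Nonempty := ⟨_, mem_range_self 0⟩
  have hC : IsChain (· ≤ ·) C := by
    rintro _ ⟨i, rfl⟩ _ ⟨j, rfl⟩ _
    rcases le_total i j with h | h
    · exact Or.inr (hanti h)
    · exact Or.inl (hanti h)
  have hcard : #C ≤ aleph 1 := by
    have : Countable C := (countable_range _).to_subtype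
    exact countable_le_aleph1
  have hι : #Unit ≤ aleph 1 := countable_le_aleph1
  let w := PCond.lim hne hC hcard hι
  have hw : ∀ n, w ≤ (p n).1 := fun n => PCond.lim_le hne hC hcard hι (mem_range_self n)
  obtain ⟨t, ht, Z', hZ'⟩ := hdec w.s.η w.s ((hw 0).1.trans (p 0).2)
  have ht0 : t ≤ s₀ := ht.trans ((hw 0).1.trans (p 0).2)
  have ht1 : t ∈ inTree (w.s.η, Z') := genTree_of_high ht.1 (h1 _ t ht0 hZ')
  obtain ⟨_, X, hX, hXZ⟩ := ht1
  have hmem : Z' ∈ w.s.L := by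
    have hXZ' : X ∩ Iio w.s.η = Z' := hXZ
    rw [← hXZ']
    exact Cond.restr_mem ht hX
  obtain ⟨c, ⟨n, rfl⟩, Y, hY, i, hZe⟩ : Z' ∈ PCond.limL C := hmem
  -- compare at the height of `p n`
  have hb1 : t ∈ (b (ζ (p n), Z (p n))).carrier := RO.lower _ (ht.trans (hw (n + 1)).1) (hZ (p n))
  have hle : ζ (p n) ≤ w.s.η := (hζ' (p n)).trans (hw (n + 1)).1.1
  have hagree : ((p n).1.s.η ∈ Z (p n) ↔ (p n).1.s.η ∈ Z') := by
    have hlt := hζ (p n)
    rcases hcomp _ _ t ht0 hb1 hZ' with h | h | h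
    · have h' : Z (p n) = Z' := (Prod.ext_iff.1 h).2
      rw [h']
    · have h' : Z (p n) = Z' ∩ Iio (ζ (p n)) := h.2
      rw [h']
      constructor
      · exact fun h => h.1
      · exact fun h => ⟨h, hlt⟩
    · exact (h.1.not_ge hle).elim
  have hZX : ((p n).1.s.η ∈ Z' ↔ (p n).1.s.η ∈ (p (n + 1)).1.X ()) := by
    have hlt : (p n).1.s.η < (p (n + 1)).1.s.η := (hζ (p n)).trans_le (hζ' (p n))
    have e := PCond.limX_inter hC (mem_range_self (n + 1) : (p (n + 1)).1 ∈ C) ()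
    rw [← e, hZe]
    simp only [mem_union, mem_sdiff, mem_inter_iff, mem_Iio, lt_irrefl, not_false_eq_true, and_true]
    constructor
    · rintro (h | h)
      · exact ((mem_Iio.1 ((p n).1.s.sub _ hY h)).false).elim
      · exact ⟨h, hlt⟩
    · rintro ⟨h, _⟩
      exact Or.inr h
  exact hd (p n) (hZX.symm.trans hagree.symm)

/-- in the extension by `Cond` there is an `ℵ₂`-Aronszajn tree -/
theorem hasAronszajn : HasAronszajn (RO Cond) :=
  ⟨_, genTree, genTree_treeVal, genTree_branchVal⟩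

/-- the complete Boolean algebra of `Cond` is distributive -/
theorem isDistributive : IsDistributive (RO Cond) := by
  intro I J hI x
  apply le_antisymm
  · intro s hs
    rw [RO.mem_iInf] at hs
    rw [RO.mem_iSup]
    intro t ht
    obtain ⟨p, hp⟩ := PCond.surjective_s (ι := Unit) t
    simp only at hp
    subst hp
    obtain ⟨q, hq, hqD⟩ := (PCond.isClosed1 (ι := Unit) countable_le_aleph1).dist hI
      (fun i => {q | ∃ j, q.s ∈ (x i j).carrier})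
      (fun i p q hqp h => by
        obtain ⟨j, hj⟩ := h
        exact ⟨j, RO.lower _ hqp.1 hj⟩) p (by
        intro i q hq
        obtain ⟨r, hr, j, hj⟩ := RO.mem_iSup.1 (hs i) q.s (hq.1.trans ht)
        obtain ⟨q', hq', hq''⟩ := PCond.isProj_s.lift q r hr
        exact ⟨q', hq', j, RO.lower _ hq'' hj⟩)
    choose f hf using hqD
    refine ⟨q.s, hq.1, f, ?_⟩
    rw [RO.mem_iInf]
    exact hf
  · refine iSup_le fun f => le_iInf fun i => (iInf_le _ i).trans (le_iSup (fun j => x i j) (f i))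

end Pool.Agent.Helper84.Kauf
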