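import Pool.Agent.Helper84.Kauf.PfaDefs

set_option autoImplicit false

/-!
# PFA gives branches of names of trees
-/

open Cardinal Set

namespace Pool.Agent.Helper84.Kauf

namespace F2

/-! ### cofinalities -/

lemma bound2 (S : Set K2) (hS : #S ≤ aleph 1) : ∃ x, ∀ y ∈ S, y < x := by
  rw [← not_isCofinal_iff]
  intro h
  have h1 := Order.cof_le h
  have h2 : Order.cof K2 = aleph 2 := by
    rw [Ordinal.cof_toType]
    have h3 : (aleph 2).IsRegular := by
      have := isRegular_aleph_add_one 1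
      rwa [one_add_one_eq_two] at this
    exact h3.cof_ord
  rw [h2] at h1
  have h4 : aleph 1 < aleph 2 := aleph_lt_aleph.mpr one_lt_two
  exact absurd (h1.trans hS) (not_le.mpr h4)

lemma bound1 (S : Set K1) (hS : S.Countable) : ∃ x, ∀ y ∈ S, y < x := by
  rw [← not_isCofinal_iff]
  intro h
  have h1 := Order.cof_le h
  have h2 : Order.cof K1 = aleph 1 := by
    rw [Ordinal.cof_toType]
    exact isRegular_aleph_one.cof_ord
  rw [h2] at h1
  exact absurd (h1.trans hS.le_aleph0) (not_le.mpr aleph0_lt_aleph_one)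

lemma countable_Iio (i : K1) : (Iio i).Countable := by
  rw [← le_aleph0_iff_set_countable, ← lt_aleph_one_iff]
  have := mk_Iio_lt i (by simp)
  simpa using this

lemma mk_K1 : #K1 = aleph 1 := by simp

instance : Nonempty K1 := by
  rw [← mk_ne_zero_iff, mk_K1]
  exact (aleph_pos 1).ne'

instance : Nonempty K2 := by
  rw [← mk_ne_zero_iff, mk_ord_toType]
  exact (aleph_pos 2).ne'

lemma mk_le_of_countable {α : Type} {S : Set α} (hS : S.Countable) : #S ≤ aleph 1 :=
  hS.le_aleph0.trans aleph0_lt_aleph_one.le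

/-- increasing sequences above a bound -/
lemma exists_incr (β : K2) : ∃ g : K1 → K2, (∀ j k, j < k → g j < g k) ∧ ∀ j, β < g j := by
  have key : ∀ (j : K1) (g : ∀ k, k < j → K2), ∃ x : K2, β < x ∧ ∀ k (hk : k < j), g k hk < x := by
    intro j g
    obtain ⟨x, hx⟩ := bound2 (insert β (range fun k : Iio j => g k.1 k.2)) (by
      apply mk_le_of_countable
      have : Countable (Iio j) := (countable_Iio j).to_subtype
      exact (countable_range _).insert _)
    exact ⟨x, hx _ (mem_insert _ _), fun k hk => hx _ (mem_insert_of_mem _ ⟨⟨k, hk⟩, rfl⟩)⟩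
  choose F hF1 hF2 using key
  let g : K1 → K2 := WellFounded.fix (C := fun _ => K2) (wellFounded_lt (α := K1)) F
  have hg : ∀ j, g j = F j (fun k _ => g k) := fun j => WellFounded.fix_eq _ _ _
  refine ⟨g, fun j k hjk => ?_, fun j => ?_⟩
  · rw [hg k]
    exact hF2 k (fun k _ => g k) j hjk
  · rw [hg j]
    exact hF1 j _

lemma surj_of_le {α β : Type} [Nonempty α] (h : #α ≤ #β) :
    ∃ f : β → α, Function.Surjective f := by
  obtain ⟨g⟩ := Cardinal.le_def α β |>.mp h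
  exact ⟨Function.invFun g, Function.invFun_surjective g.injective⟩

/-! ### PFA implies that the continuum is larger than the first uncountable cardinal -/

/-- finite sequences, ordered by extension -/
structure Coh where
  l : List Bool

instance : Preorder Coh where
  le p q := q.l <+: p.l
  le_refl _ := List.prefix_rfl
  le_trans _ _ _ h h' := h'.trans h

lemma Coh.le_iff {p q : Coh} : p ≤ q ↔ q.l <+: p.l := Iff.rfl

instance : Countable Coh :=
  Function.Injective.countable (f := Coh.l) (fun a b h => by cases a; cases b; cases h; rfl)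

lemma coh_proper : IsProper Coh := by
  refine ⟨fun _ => range Sum.inl, fun _ => countable_range _, ?_⟩
  intro M _ hM p _
  refine ⟨p, le_rfl, fun D _ hD r _ => ?_⟩
  obtain ⟨s, hs, hsD⟩ := hD r
  exact ⟨s, hsD, hM [] (by simp) ⟨s, rfl⟩, s, hs, le_rfl⟩

lemma cont_of_pfa (hP : PFA) : aleph 1 < #(ℕ → Bool) := by
  by_contra hle
  rw [not_lt, ← mk_K1] at hle
  obtain ⟨f, hf⟩ := surj_of_le hle
  have : Nonempty Coh := ⟨⟨[]⟩⟩
  obtain ⟨G, -, hdir, hmeet⟩ := hP Coh coh_proper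
    (fun ξ => {p : Coh | ∃ n, ∃ b, p.l[n]? = some b ∧ b ≠ f ξ n}) (by
      intro ξ p
      refine ⟨⟨p.l ++ [!(f ξ p.l.length)]⟩, List.prefix_append _ _, p.l.length,
        !(f ξ p.l.length), ?_, ?_⟩
      · simp
      · simp)
  classical
  let g : ℕ → Bool := fun n => decide (∃ p ∈ G, p.l[n]? = some true)
  obtain ⟨ξ, hξ⟩ := hf g
  obtain ⟨p, hpG, n, b, hb, hbne⟩ := hmeet ξ
  rw [hξ] at hbne
  cases b with
  | true =>
    apply hbne
    have h1 : g n = true := decide_eq_true (⟨p, hpG, hb⟩ : ∃ p ∈ G, p.l[n]? = some true)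
    rw [h1]
  | false =>
    have h1 : g n = true := by
      cases h : g n
      · exact absurd h.symm hbne
      · rfl
    obtain ⟨p', hpG', hb'⟩ := of_decide_eq_true h1
    obtain ⟨r, -, hr, hr'⟩ := hdir p hpG p' hpG'
    obtain ⟨t, ht⟩ := Coh.le_iff.mp hr
    obtain ⟨t', ht'⟩ := Coh.le_iff.mp hr'
    have h2 : r.l[n]? = some false := by
      rw [← ht, List.getElem?_append_left]
      · exact hb
      · exact (List.getElem?_eq_some_iff.mp hb).1
    have h3 : r.l[n]? = some true := by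
      rw [← ht', List.getElem?_append_left]
      · exact hb'
      · exact (List.getElem?_eq_some_iff.mp hb').1
    rw [h2] at h3
    simp at h3

/-! ### conditions -/

section Cond

variable {D : Type} [Preorder D]

lemma le_antitone (e : ℕ → ECond D) (he : ∀ k, e (k + 1) ≤ e k) : Antitone e :=
  antitone_nat_of_succ_le he

/-- lower bounds of decreasing sequences -/
lemma lower (hc : IsClosed1 D) (e : ℕ → ECond D) (he : ∀ k, e (k + 1) ≤ e k) :
    ∃ e' : ECond D, ∀ k, e' ≤ e k := by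
  classical
  have hanti := le_antitone e he
  obtain ⟨d, hd⟩ := hc (range fun k => (e k).d) (range_nonempty _) (by
    rintro _ ⟨k, rfl⟩ _ ⟨l, rfl⟩ _
    rcases le_total k l with h | h
    · exact Or.inr (hanti h).1
    · exact Or.inl (hanti h).1) (mk_le_of_countable (countable_range _))
  obtain ⟨x, hx⟩ := bound1 (range fun k => (e k).i) (countable_range _)
  have hne : {b : K1 | ∀ k, (e k).i ≤ b}.Nonempty := ⟨x, fun k => (hx _ ⟨k, rfl⟩).le⟩
  obtain ⟨i', hi', hmin⟩ : ∃ i' : K1, (∀ k, (e k).i ≤ i') ∧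
      ∀ j < i', ∃ k, j < (e k).i := by
    refine ⟨wellFounded_lt.min _ hne, wellFounded_lt.min_mem _ hne, fun j hj => ?_⟩
    by_contra hcon
    push Not at hcon
    exact wellFounded_lt.not_lt_min {b : K1 | ∀ k, (e k).i ≤ b} hcon hj
  have hcoh : ∀ k l j, j < (e k).i → j < (e l).i → (e k).h j = (e l).h j := by
    intro k l j hk hl
    rcases le_total k l with h | h
    · exact ((hanti h).2.2 j hk).symm
    · exact (hanti h).2.2 j hl
  let h' : K1 → K2 := fun j => if h : ∃ k, j < (e k).i then (e h.choose).h j else (e 0).h j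
  have hh' : ∀ k j, j < (e k).i → h' j = (e k).h j := by
    intro k j hj
    have hex : ∃ k, j < (e k).i := ⟨k, hj⟩
    simp only [h']
    rw [dif_pos hex]
    exact hcoh _ _ _ hex.choose_spec hj
  refine ⟨⟨d, i', h', fun j hj l hl hjl => ?_⟩, fun k => ⟨hd _ ⟨k, rfl⟩, hi' k, hh' k⟩⟩
  obtain ⟨k, hk⟩ := hmin l hl
  rw [hh' k j (hjl.trans hk), hh' k l hk]
  exact (e k).smono j (hjl.trans hk) l hk hjl

variable {T : UData D}

/-- the condition without nodes -/
def ofE (T : UData D) (e : ECond D) : RCond T where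
  toECond := e
  f := ∅
  node := by simp
  func := by simp
  col := by simp

/-- a condition with one node -/
def sing (e : ECond D) (x : Nd) (h1 : ∃ j < e.i, x.1 = e.h j) (h2 : T.U e.d x.1 x.2) :
    RCond T where
  toECond := e
  f := {(x, 0)}
  node := by
    intro p hp
    rw [Finset.mem_singleton] at hp
    subst hp
    exact ⟨h1, h2⟩
  func := by
    intro p hp q hq _
    rw [Finset.mem_singleton] at hp hq
    rw [hp, hq]
  col := by
    intro p hp q hq hlt
    rw [Finset.mem_singleton] at hp hq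
    subst hp hq
    exact absurd hlt.1 (lt_irrefl _)

/-- change the first part of a condition to a stronger one -/
def strengthen (r : RCond T) (e : ECond D) (he : e ≤ r.toECond) : RCond T where
  toECond := e
  f := r.f
  node := by
    intro p hp
    obtain ⟨⟨j, hj, hj'⟩, hU⟩ := r.node p hp
    exact ⟨⟨j, hj.trans_le he.2.1, hj'.trans (he.2.2 j hj).symm⟩, T.mono _ _ _ _ he.1 hU⟩
  func := r.func
  col := r.col

lemma strengthen_le (r : RCond T) (e : ECond D) (he : e ≤ r.toECond) : strengthen r e he ≤ r :=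
  ⟨he, subset_rfl⟩

/-- make the height of a condition larger than `i` -/
lemma ext_i (r : RCond T) (i : K1) : ∃ r' ≤ r, i < r'.i ∧ r'.d = r.d ∧ r'.f = r.f := by
  classical
  by_cases hi : i < r.i
  · exact ⟨r, le_rfl, hi, rfl, rfl⟩
  · obtain ⟨x, hx⟩ := bound1 {i} (countable_singleton _)
    obtain ⟨β, hβ⟩ := bound2 (r.h '' Iio r.i)
      (mk_le_of_countable ((countable_Iio r.i).image _))
    obtain ⟨g, hg, hgβ⟩ := exists_incr β
    have hix : i < x := hx i rfl
    let e : ECond D := ⟨r.d, x, fun j => if j < r.i then r.h j else g j, by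
      intro j _ k _ hjk
      by_cases hk : k < r.i
      · simp only [if_pos hk, if_pos (hjk.trans hk)]
        exact r.smono j (hjk.trans hk) k hk hjk
      · by_cases hj : j < r.i
        · simp only [if_pos hj, if_neg hk]
          exact (hβ _ ⟨j, hj, rfl⟩).trans (hgβ k)
        · simp only [if_neg hj, if_neg hk]
          exact hg j k hjk⟩
    have he : e ≤ r.toECond := ⟨le_rfl, (not_lt.mp hi).trans hix.le, fun j hj => if_pos hj⟩
    exact ⟨strengthen r e he, strengthen_le r e he, hix, rfl, rfl⟩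

/-- combination of two conditions -/
lemma merge (q r' : RCond T) (hle : r'.toECond ≤ q.toECond) (f₀ : Finset (Nd × ℕ))
    (hf₀r : f₀ ⊆ r'.f) (hf₀q : f₀ ⊆ q.f)
    (hN : ∀ p ∈ r'.f, ∀ p' ∈ q.f, p.1 = p'.1 → p ∈ f₀)
    (hlow : ∀ p ∈ r'.f, ∀ p' ∈ q.f, Nd.Lt p.1 p'.1 → p ∈ f₀)
    (hnew : ∀ p ∈ r'.f \ f₀, ∀ p' ∈ q.f \ f₀, ¬ Nd.Lt p'.1 p.1) :
    ∃ t : RCond T, t ≤ r' ∧ t ≤ q := by
  classical
  refine ⟨⟨r'.toECond, r'.f ∪ q.f, ?_, ?_, ?_⟩, ⟨le_rfl, Finset.subset_union_left⟩,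
    ⟨hle, Finset.subset_union_right⟩⟩
  · intro p hp
    rcases Finset.mem_union.mp hp with hp | hp
    · exact r'.node p hp
    · obtain ⟨⟨j, hj, hj'⟩, hU⟩ := q.node p hp
      exact ⟨⟨j, hj.trans_le hle.2.1, hj'.trans (hle.2.2 j hj).symm⟩, T.mono _ _ _ _ hle.1 hU⟩
  · intro p hp p' hp' hpp
    rcases Finset.mem_union.mp hp with hp | hp <;> rcases Finset.mem_union.mp hp' with hp' | hp'
    · exact r'.func p hp p' hp' hpp
    · exact q.func p (hf₀q (hN p hp p' hp' hpp)) p' hp' hpp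
    · exact q.func p hp p' (hf₀q (hN p' hp' p hp hpp.symm)) hpp
    · exact q.func p hp p' hp' hpp
  · intro p hp p' hp' hlt
    rcases Finset.mem_union.mp hp with hp | hp <;> rcases Finset.mem_union.mp hp' with hp' | hp'
    · exact r'.col p hp p' hp' hlt
    · exact q.col p (hf₀q (hlow p hp p' hp' hlt)) p' hp' hlt
    · by_cases h1 : p' ∈ f₀
      · exact q.col p hp p' (hf₀q h1) hlt
      · by_cases h2 : p ∈ f₀
        · exact r'.col p (hf₀r h2) p' hp' hlt
        · exact absurd hlt (hnew p' (Finset.mem_sdiff.mpr ⟨hp', h1⟩) p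
            (Finset.mem_sdiff.mpr ⟨hp, h2⟩))
    · exact q.col p hp p' hp' hlt

/-- comparability of two nodes below a third one -/
lemma comp_of_lt {x x' y : Nd} (h : Nd.Lt x y) (h' : Nd.Lt x' y) : Nd.Comp x x' := by
  obtain ⟨h1, h2⟩ := h
  obtain ⟨h1', h2'⟩ := h'
  rcases lt_trichotomy x.1 x'.1 with h3 | h3 | h3
  · refine Or.inr (Or.inl ⟨h3, ?_⟩)
    rw [h2, h2', inter_assoc, Iio_inter_Iio, min_eq_right h3.le]
  · exact Or.inl (Prod.ext h3 (by rw [h2, h2', h3]))
  · refine Or.inr (Or.inr ⟨h3, ?_⟩)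
    rw [h2, h2', inter_assoc, Iio_inter_Iio, min_eq_right h3.le]

end Cond

/-! ### properness -/

section Proper

variable {D : Type} [Preorder D] (T : UData D)

/-- nodes of the conditions in a set -/
def NS (M : Set (RCond T ⊕ Set (RCond T))) : Set Nd :=
  {x | ∃ r, Sum.inl r ∈ M ∧ ∃ p ∈ r.f, p.1 = x}

/-- initial segments of nodes of `r` on levels of `r` -/
def cand (r : RCond T) : Set Nd :=
  {x | (∃ j < r.i, x.1 = r.h j) ∧ T.U r.d x.1 x.2 ∧ ∃ p ∈ r.f, x.2 = p.1.2 ∩ Iio x.1}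

lemma cand_countable (r : RCond T) : (cand T r).Countable := by
  apply Countable.mono (s₂ := (fun q : K1 × (Nd × ℕ) =>
    ((r.h q.1, q.2.1.2 ∩ Iio (r.h q.1)) : Nd)) '' (Iio r.i ×ˢ (r.f : Set (Nd × ℕ))))
  · rintro x ⟨⟨j, hj, hjx⟩, -, p, hp, hpx⟩
    refine ⟨(j, p), ⟨hj, hp⟩, ?_⟩
    rw [hjx] at hpx
    exact Prod.ext hjx.symm hpx.symm
  · exact ((countable_Iio r.i).prod (Finset.countable_toSet _)).image _

/-- a condition in which the node `x` occurs -/
def pickSet (x : Nd) : Set (RCond T) :=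
  {c | ∃ h : (∃ r : RCond T, ∃ p ∈ r.f, p.1 = x), c = h.choose}

lemma pickSet_countable (x : Nd) : (pickSet T x).Countable := by
  apply Set.Subsingleton.countable
  rintro a ⟨h, rfl⟩ b ⟨h', rfl⟩
  rfl

variable (E : Set (RCond T) → Finset (Nd × ℕ) → ℕ → ECond D → ECond D)
  (A : Set (RCond T) → Finset (Nd × ℕ) → ℕ → ECond D → Set Nd)
  (Q : Set (RCond T) → Finset (Nd × ℕ) → ℕ → ECond D → Set (RCond T))

/-- the chosen outcomes of the main lemma -/
def out (X : Set (RCond T)) (f₀ : Finset (Nd × ℕ)) (n : ℕ) (e : ECond D) :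
    Set (RCond T ⊕ Set (RCond T)) :=
  {Sum.inl (ofE T (E X f₀ n e))} ∪ Sum.inl '' (Q X f₀ n e) ∪
    ⋃ x ∈ A X f₀ n e, Sum.inl '' (pickSet T x)

/-- the closure function -/
def clF (l : List (RCond T ⊕ Set (RCond T))) : Set (RCond T ⊕ Set (RCond T)) :=
  (⋃ r ∈ {r : RCond T | Sum.inl r ∈ l}, {Sum.inl (ofE T r.toECond)}) ∪
  (⋃ r ∈ {r : RCond T | Sum.inl r ∈ l},
    range fun x : cand T r => Sum.inl (sing r.toECond x.1 x.2.1 x.2.2.1)) ∪
  (⋃ X ∈ {X : Set (RCond T) | Sum.inr X ∈ l}, ⋃ r ∈ {r : RCond T | Sum.inl r ∈ l},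
    ⋃ f₀ ∈ {f₀ : Finset (Nd × ℕ) | ∀ p ∈ f₀, p.1 ∈ NS T {x | x ∈ l}}, ⋃ n : ℕ,
      out T E A Q X f₀ n r.toECond)

lemma inl_finite (l : List (RCond T ⊕ Set (RCond T))) :
    {r : RCond T | Sum.inl r ∈ l}.Finite :=
  (List.finite_toSet l).preimage Sum.inl_injective.injOn

lemma inr_finite (l : List (RCond T ⊕ Set (RCond T))) :
    {r : Set (RCond T) | Sum.inr r ∈ l}.Finite :=
  (List.finite_toSet l).preimage Sum.inr_injective.injOn

lemma NS_countable (l : List (RCond T ⊕ Set (RCond T))) : (NS T {x | x ∈ l}).Countable := by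
  apply Countable.mono (s₂ := ⋃ r ∈ {r : RCond T | Sum.inl r ∈ l},
    Prod.fst '' (r.f : Set (Nd × ℕ)))
  · rintro x ⟨r, hr, p, hp, rfl⟩
    exact mem_biUnion (show r ∈ {r : RCond T | Sum.inl r ∈ l} from hr) ⟨p, hp, rfl⟩
  · exact (inl_finite T l).countable.biUnion fun r _ => (Finset.countable_toSet _).image _

lemma fin_countable {S : Set Nd} (hS : S.Countable) :
    {f₀ : Finset (Nd × ℕ) | ∀ p ∈ f₀, p.1 ∈ S}.Countable := by
  have h1 := Set.countable_setOf_finite_subset (s := S ×ˢ (univ : Set ℕ))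
    (hS.prod countable_univ)
  have h2 := h1.preimage_of_injOn (f := fun f₀ : Finset (Nd × ℕ) => (f₀ : Set (Nd × ℕ)))
    Finset.coe_injective.injOn
  refine h2.mono fun f₀ hf => ?_
  exact ⟨f₀.finite_toSet, fun p hp => ⟨hf p hp, mem_univ _⟩⟩

lemma clF_countable (hA : ∀ X f₀ n e, (A X f₀ n e).Countable)
    (hQ : ∀ X f₀ n e, (Q X f₀ n e).Countable) (l : List (RCond T ⊕ Set (RCond T))) :
    (clF T E A Q l).Countable := by
  refine Countable.union (Countable.union ?_ ?_) ?_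
  · exact (inl_finite T l).countable.biUnion fun r _ => countable_singleton _
  · refine (inl_finite T l).countable.biUnion fun r _ => ?_
    have := (cand_countable T r).to_subtype
    exact countable_range _
  · refine (inr_finite T l).countable.biUnion fun X _ =>
      (inl_finite T l).countable.biUnion fun r _ =>
        (fin_countable (NS_countable T l)).biUnion fun f₀ _ => countable_iUnion fun n => ?_
    refine Countable.union (Countable.union (countable_singleton _) ?_) ?_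
    · exact (hQ _ _ _ _).image _
    · exact (hA _ _ _ _).biUnion fun x _ => (pickSet_countable T x).image _

/-- closed sets -/
lemma closed_ofE {M : Set (RCond T ⊕ Set (RCond T))}
    (hM : ∀ l : List (RCond T ⊕ Set (RCond T)), (∀ x ∈ l, x ∈ M) → clF T E A Q l ⊆ M)
    {r : RCond T} (hr : Sum.inl r ∈ M) : Sum.inl (ofE T r.toECond) ∈ M := by
  apply hM [Sum.inl r] (by simpa using hr)
  refine Or.inl (Or.inl ?_)
  exact mem_biUnion (show r ∈ {r' : RCond T | Sum.inl r' ∈ [Sum.inl r]} by simp) rfl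

lemma closed_cand {M : Set (RCond T ⊕ Set (RCond T))}
    (hM : ∀ l : List (RCond T ⊕ Set (RCond T)), (∀ x ∈ l, x ∈ M) → clF T E A Q l ⊆ M)
    {r : RCond T} (hr : Sum.inl r ∈ M) {x : Nd} (hx : x ∈ cand T r) : x ∈ NS T M := by
  refine ⟨sing r.toECond x hx.1 hx.2.1, ?_, (x, 0), ?_, rfl⟩
  · apply hM [Sum.inl r] (by simpa using hr)
    refine Or.inl (Or.inr ?_)
    exact mem_biUnion (show r ∈ {r' : RCond T | Sum.inl r' ∈ [Sum.inl r]} by simp) ⟨⟨x, hx⟩, rfl⟩
  · exact Finset.mem_singleton_self _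

lemma closed_out {M : Set (RCond T ⊕ Set (RCond T))}
    (hM : ∀ l : List (RCond T ⊕ Set (RCond T)), (∀ x ∈ l, x ∈ M) → clF T E A Q l ⊆ M)
    {X : Set (RCond T)} (hX : Sum.inr X ∈ M) {e : ECond D} (he : Sum.inl (ofE T e) ∈ M)
    {f₀ : Finset (Nd × ℕ)} (hf₀ : ∀ p ∈ f₀, p.1 ∈ NS T M) (n : ℕ) :
    out T E A Q X f₀ n e ⊆ M := by
  classical
  have key : ∃ l : List (RCond T ⊕ Set (RCond T)), (∀ x ∈ l, x ∈ M) ∧
      ∀ p ∈ f₀, p.1 ∈ NS T {x | x ∈ l} := by
    induction f₀ using Finset.induction_on with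
    | empty => exact ⟨[], by simp, by simp⟩
    | insert p f₀ _ ih =>
      obtain ⟨l, hl, hl'⟩ := ih (fun q hq => hf₀ q (Finset.mem_insert_of_mem hq))
      obtain ⟨r, hr, q, hq, hqp⟩ := hf₀ p (Finset.mem_insert_self _ _)
      refine ⟨Sum.inl r :: l, ?_, ?_⟩
      · intro x hx
        rcases List.mem_cons.mp hx with rfl | hx
        · exact hr
        · exact hl x hx
      · intro q' hq'
        rcases Finset.mem_insert.mp hq' with rfl | hq'
        · exact ⟨r, List.mem_cons_self, q, hq, hqp⟩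
        · obtain ⟨r', hr', h'⟩ := hl' q' hq'
          exact ⟨r', List.mem_cons_of_mem _ hr', h'⟩
  obtain ⟨l, hl, hl'⟩ := key
  have h1 := hM (Sum.inr X :: Sum.inl (ofE T e) :: l) (by
    intro x hx
    rcases List.mem_cons.mp hx with rfl | hx
    · exact hX
    · rcases List.mem_cons.mp hx with rfl | hx
      · exact he
      · exact hl x hx)
  refine Subset.trans ?_ h1
  intro x hx
  refine Or.inr ?_
  refine mem_biUnion (show X ∈ {X' : Set (RCond T) | Sum.inr X' ∈
    Sum.inr X :: Sum.inl (ofE T e) :: l} from List.mem_cons_self) ?_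
  refine mem_biUnion (show ofE T e ∈ {r : RCond T | Sum.inl r ∈
    Sum.inr X :: Sum.inl (ofE T e) :: l} from List.mem_cons_of_mem _ List.mem_cons_self) ?_
  refine mem_biUnion (show f₀ ∈ {f₀ : Finset (Nd × ℕ) | ∀ p ∈ f₀, p.1 ∈ NS T {x | x ∈
    Sum.inr X :: Sum.inl (ofE T e) :: l}} from ?_) ?_
  · intro p hp
    obtain ⟨r, hr, h⟩ := hl' p hp
    exact ⟨r, List.mem_cons_of_mem _ (List.mem_cons_of_mem _ hr), h⟩
  · exact mem_iUnion.mpr ⟨n, hx⟩

/-- the forcing is proper -/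
theorem rcond_proper {T : UData D} (hc : IsClosed1 D) (hML : MainLemma T) :
    IsProper (RCond T) := by
  classical
  have hML' : ∀ (X : Set (RCond T)) (f₀ : Finset (Nd × ℕ)) (n : ℕ) (e : ECond D),
      ∃ e' ≤ e, ∃ (A : Set Nd) (Q : Set (RCond T)), A.Countable ∧ Q.Countable ∧
        ((∀ q ∈ X, q.Ext f₀ n → q.toECond ≤ e' → ∃ p ∈ q.f \ f₀, p.1 ∈ A) ∨
          ((∀ q ∈ Q, q ∈ X ∧ q.Ext f₀ n ∧ e' ≤ q.toECond) ∧
            ¬ ∃ s : RCond T → Nd × Fin (n + 1), Solves f₀ (n + 1) Q s)) := by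
    intro X f₀ n e
    obtain ⟨e', he', h⟩ := hML X f₀ n (n + 1) e
    rcases h with ⟨A, hA, h⟩ | ⟨Q, hQ, h, h'⟩
    · exact ⟨e', he', A, ∅, hA, countable_empty, Or.inl h⟩
    · exact ⟨e', he', ∅, Q, countable_empty, hQ.countable, Or.inr ⟨h, h'⟩⟩
  choose E hE A Q hA hQ hcase using hML'
  refine ⟨clF T E A Q, clF_countable T E A Q hA hQ, ?_⟩
  intro M hMc hM p hp
  -- the tasks
  let Tk : Set (Set (RCond T) × Finset (Nd × ℕ) × ℕ) :=
    {t | Sum.inr t.1 ∈ M ∧ ∀ q ∈ t.2.1, q.1 ∈ NS T M}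
  by_cases hTk : Tk.Nonempty
  swap
  · refine ⟨p, le_rfl, fun X hX => ?_⟩
    exact absurd ⟨(X, ∅, 0), hX, fun q hq => absurd hq (Finset.notMem_empty _)⟩ hTk
  have hNSc : (NS T M).Countable := by
    apply Countable.mono (s₂ := ⋃ r ∈ {r : RCond T | Sum.inl r ∈ M},
      Prod.fst '' (r.f : Set (Nd × ℕ)))
    · rintro x ⟨r, hr, p, hp, rfl⟩
      exact mem_biUnion (show r ∈ {r : RCond T | Sum.inl r ∈ M} from hr) ⟨p, hp, rfl⟩
    · refine Countable.biUnion ?_ fun r _ => (Finset.countable_toSet _).image _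
      exact hMc.preimage_of_injOn Sum.inl_injective.injOn
  have hTkc : Tk.Countable := by
    have h1 : {X : Set (RCond T) | Sum.inr X ∈ M}.Countable :=
      hMc.preimage_of_injOn Sum.inr_injective.injOn
    refine (h1.prod ((fin_countable hNSc).prod (countable_univ (α := ℕ)))).mono ?_
    rintro ⟨X, f₀, n⟩ ⟨hX, hf⟩
    exact ⟨hX, hf, mem_univ _⟩
  obtain ⟨tk, htk⟩ := hTkc.exists_eq_range hTk
  -- the decreasing sequence
  let e : ℕ → ECond D := fun k => Nat.rec p.toECond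
    (fun k e => E (tk k).1 (tk k).2.1 (tk k).2.2 e) k
  have he0 : e 0 = p.toECond := rfl
  have hes : ∀ k, e (k + 1) = E (tk k).1 (tk k).2.1 (tk k).2.2 (e k) := fun _ => rfl
  clear_value e
  have hle : ∀ k, e (k + 1) ≤ e k := fun k => by rw [hes]; exact hE _ _ _ _
  have htkM : ∀ k, tk k ∈ Tk := fun k => by rw [htk]; exact ⟨k, rfl⟩
  have hout : ∀ k, Sum.inl (ofE T (e k)) ∈ M →
      out T E A Q (tk k).1 (tk k).2.1 (tk k).2.2 (e k) ⊆ M := fun k hk =>
    closed_out T E A Q hM (htkM k).1 hk (htkM k).2 _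
  have heM : ∀ k, Sum.inl (ofE T (e k)) ∈ M := by
    intro k
    induction k with
    | zero => rw [he0]; exact closed_ofE T E A Q hM hp
    | succ k ih =>
      rw [hes]
      exact hout k ih (Or.inl (Or.inl rfl))
  obtain ⟨e', he'⟩ := lower hc e hle
  have he'p : e' ≤ p.toECond := by rw [← he0]; exact he' 0
  refine ⟨strengthen p e' he'p, strengthen_le p e' he'p, ?_⟩
  intro X hX hdense r hr
  obtain ⟨r', hr'r, hr'X⟩ := hdense r
  have hr'e : r'.toECond ≤ e' := hr'r.1.trans hr.1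
  -- old nodes
  let f₀ : Finset (Nd × ℕ) := r'.f.filter fun q => q.1 ∈ NS T M
  have hf₀ : ∀ q, q ∈ f₀ ↔ q ∈ r'.f ∧ q.1 ∈ NS T M := fun q => by
    simp only [f₀, Finset.mem_filter]
  clear_value f₀
  have hf₀r : f₀ ⊆ r'.f := fun q hq => ((hf₀ q).mp hq).1
  obtain ⟨k, hk⟩ : (X, f₀, (r'.f \ f₀).card) ∈ range tk := by
    rw [← htk]
    exact ⟨hX, fun q hq => ((hf₀ q).mp hq).2⟩
  have hk' : out T E A Q X f₀ (r'.f \ f₀).card (e k) ⊆ M := by
    have := hout k (heM k)
    rw [hk] at this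
    exact this
  have hek : E X f₀ (r'.f \ f₀).card (e k) = e (k + 1) := by rw [hes, hk]
  have hext : r'.Ext f₀ (r'.f \ f₀).card := ⟨hf₀r, rfl⟩
  rcases hcase X f₀ (r'.f \ f₀).card (e k) with h | ⟨h, hns⟩
  · -- outcome (a) is impossible
    exfalso
    obtain ⟨q, hq, hqA⟩ := h r' hr'X hext (by rw [hek]; exact hr'e.trans (he' _))
    rw [Finset.mem_sdiff, hf₀] at hq
    apply hq.2
    refine ⟨hq.1, ?_⟩
    have hex : ∃ r : RCond T, ∃ p ∈ r.f, p.1 = q.1 := ⟨r', q, hq.1, rfl⟩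
    obtain ⟨q', hq', hq'q⟩ := hex.choose_spec
    refine ⟨hex.choose, hk' (Or.inr ?_), q', hq', hq'q⟩
    exact mem_biUnion hqA ⟨_, ⟨hex, rfl⟩, rfl⟩
  · -- outcome (b)
    set n := (r'.f \ f₀).card with hn
    have hgood : ∃ q ∈ Q X f₀ n (e k), ∀ a ∈ r'.f \ f₀, ∀ b ∈ q.f \ f₀, ¬ Nd.Lt b.1 a.1 := by
      by_contra hcon
      push Not at hcon
      apply hns
      let idx : (r'.f \ f₀ : Finset (Nd × ℕ)) ≃ Fin n := Finset.equivFinOfCardEq rfl
      choose! a ha b hb hlt using hcon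
      obtain ⟨x0⟩ : Nonempty Nd := inferInstance
      refine ⟨fun q => if hq : q ∈ Q X f₀ n (e k) then
        ((b q).1, (idx ⟨a q, ha q hq⟩).castSucc) else (x0, 0), ?_, ?_⟩
      · intro q hq
        refine ⟨b q, hb q hq, ?_⟩
        beta_reduce
        rw [dif_pos hq]
      · intro q hq q' hq' hqq
        beta_reduce at hqq ⊢
        rw [dif_pos hq, dif_pos hq'] at hqq ⊢
        have h1 := idx.injective (Fin.castSucc_injective _ hqq)
        rw [Subtype.mk.injEq] at h1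
        have h2 := hlt q hq
        have h3 := hlt q' hq'
        rw [← h1] at h3
        exact comp_of_lt h2 h3
    obtain ⟨q, hqQ, hqnew⟩ := hgood
    obtain ⟨hqX, hqext, hqe⟩ := h q hqQ
    have hqM : Sum.inl q ∈ M := hk' (Or.inl (Or.inr ⟨q, hqQ, rfl⟩))
    have hqN : ∀ b ∈ q.f, b.1 ∈ NS T M := fun b hb => ⟨q, hqM, b, hb, rfl⟩
    have hr'q : r'.toECond ≤ q.toECond := by
      refine (hr'e.trans (he' (k + 1))).trans ?_
      rw [← hek]; exact hqe
    obtain ⟨t, ht1, ht2⟩ := merge q r' hr'q f₀ hf₀r hqext.1 (by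
      intro a ha b hb hab
      rw [hf₀]
      exact ⟨ha, by rw [hab]; exact hqN b hb⟩) (by
      intro a ha b hb hlt
      rw [hf₀]
      refine ⟨ha, closed_cand T E A Q hM hqM ⟨?_, ?_, b, hb, hlt.2⟩⟩
      · obtain ⟨⟨j, hj, hja⟩, -⟩ := r'.node a ha
        obtain ⟨⟨j', hj', hjb⟩, -⟩ := q.node b hb
        have h1 : r'.h j' = q.h j' := hr'q.2.2 j' hj'
        have h2 : j < j' := by
          by_contra hcon
          rw [not_lt] at hcon
          have h3 : r'.h j' ≤ r'.h j := by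
            rcases hcon.eq_or_lt with h4 | h4
            · rw [h4]
            · exact (r'.smono j' (hj'.trans_le hr'q.2.1) j hj h4).le
          have h5 := hlt.1
          rw [hja, hjb, ← h1] at h5
          exact absurd h5 (not_lt.mpr h3)
        refine ⟨j, h2.trans hj', ?_⟩
        rw [hja]
        exact hr'q.2.2 j (h2.trans hj')
      · have h1 := T.down q.d b.1.1 a.1.1 b.1.2 hlt.1.le (q.node b hb).2
        rw [← hlt.2] at h1
        exact h1) hqnew
    exact ⟨q, hqX, hqM, t, ht1.trans hr'r, ht2⟩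

end Proper

/-! ### application of PFA -/

section Appl

variable {D : Type} [Preorder D] (T : UData D)

/-- `a` bounds the possible elements of level `α` -/
def Small (a : D) (α : K2) : Prop :=
  ∃ L : Set (Set K2), #L ≤ aleph 1 ∧ ∀ d ≤ a, ∀ Z, T.U d α Z → Z ∈ L

lemma max_antichain (α : K2) : ∃ A : Set D, (∀ a ∈ A, Small T a α) ∧
    (∀ d, ∃ d' ≤ d, ∃ a ∈ A, d' ≤ a) ∧
    ∀ a ∈ A, ∀ a' ∈ A, ∀ d, d ≤ a → d ≤ a' → a = a' := by
  obtain ⟨A, hA⟩ := zorn_subset
    {A : Set D | (∀ a ∈ A, Small T a α) ∧ ∀ a ∈ A, ∀ a' ∈ A, ∀ d, d ≤ a → d ≤ a' → a = a'} (by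
    intro c hc hchain
    refine ⟨⋃₀ c, ⟨?_, ?_⟩, fun s hs => subset_sUnion_of_mem hs⟩
    · rintro a ⟨s, hs, ha⟩
      exact (hc hs).1 a ha
    · rintro a ⟨s, hs, ha⟩ a' ⟨s', hs', ha'⟩ d hd hd'
      rcases hchain.total hs hs' with h | h
      · exact (hc hs').2 a (h ha) a' ha' d hd hd'
      · exact (hc hs).2 a ha a' (h ha') d hd hd')
  refine ⟨A, hA.prop.1, fun d => ?_, hA.prop.2⟩
  obtain ⟨d1, hd1, hsm⟩ := T.small d α
  by_cases h : ∃ d' ≤ d1, ∃ a ∈ A, d' ≤ a
  · obtain ⟨d', hd', a, ha, hda⟩ := h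
    exact ⟨d', hd'.trans hd1, a, ha, hda⟩
  · push Not at h
    have h1 : insert d1 A ∈ {A : Set D | (∀ a ∈ A, Small T a α) ∧
        ∀ a ∈ A, ∀ a' ∈ A, ∀ d, d ≤ a → d ≤ a' → a = a'} := by
      refine ⟨?_, ?_⟩
      · rintro a (rfl | ha)
        · exact hsm
        · exact hA.prop.1 a ha
      · rintro a (rfl | ha) a' (rfl | ha') d hd hd'
        · rfl
        · exact absurd hd' (h d hd a' ha')
        · exact absurd hd (h d hd' a ha)
        · exact hA.prop.2 a ha a' ha' d hd hd'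
    have h2 : d1 ∈ A := hA.le_of_ge h1 (subset_insert _ _) (mem_insert _ _)
    exact absurd le_rfl (h d1 le_rfl d1 h2)

lemma exists_enum {a : D} {α : K2} (h : Small T a α) :
    ∃ en : K1 → Set K2, ∀ d ≤ a, ∀ Z, T.U d α Z → ∃ ν, en ν = Z := by
  obtain ⟨L, hL, hL'⟩ := h
  rcases L.eq_empty_or_nonempty with rfl | hne
  · exact ⟨fun _ => ∅, fun d hd Z hZ => absurd (hL' d hd Z hZ) (notMem_empty _)⟩
  · have : Nonempty L := hne.to_subtype
    obtain ⟨f, hf⟩ := surj_of_le (α := L) (β := K1) (by rw [mk_K1]; exact hL)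
    refine ⟨fun ν => (f ν).1, fun d hd Z hZ => ?_⟩
    obtain ⟨ν, hν⟩ := hf ⟨Z, hL' d hd Z hZ⟩
    exact ⟨ν, congrArg Subtype.val hν⟩

theorem no_main (hP : PFA) (hne : Nonempty D) (hc : IsClosed1 D) (ht : IsTreeLike D)
    (hML : MainLemma T) : False := by
  classical
  choose A hAs hAd hAu using max_antichain T
  have hen : ∀ (a : D) (α : K2), ∃ en : K1 → Set K2, Small T a α →
      ∀ d ≤ a, ∀ Z, T.U d α Z → ∃ ν, en ν = Z := by
    intro a α
    by_cases h : Small T a α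
    · obtain ⟨en, hen⟩ := exists_enum T h
      exact ⟨en, fun _ => hen⟩
    · exact ⟨fun _ => ∅, fun h' => absurd h' h⟩
  choose en hen using hen
  -- the dense sets
  let Dn : K1 × K1 → Set (RCond T) := fun q => {r | q.1 < r.i ∧ ∃ a ∈ A (r.h q.1), r.d ≤ a ∧
    ((∃ p ∈ r.f, p.1 = (r.h q.1, en a (r.h q.1) q.2)) ∨
      ∀ d ≤ r.d, ¬ T.U d (r.h q.1) (en a (r.h q.1) q.2))}
  have hDn : ∀ q, IsDenseSet (Dn q) := by
    rintro ⟨i, ν⟩ r
    obtain ⟨r1, hr1, hi1, -, -⟩ := ext_i r i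
    obtain ⟨d', hd', a, ha, hda⟩ := hAd (r1.h i) r1.d
    let e2 : ECond D := { r1.toECond with d := d' }
    have he2 : e2 ≤ r1.toECond := ⟨hd', le_rfl, fun _ _ => rfl⟩
    obtain ⟨r2, hr2⟩ : ∃ r2, r2 = strengthen r1 e2 he2 := ⟨_, rfl⟩
    have hr21 : r2 ≤ r1 := by rw [hr2]; exact strengthen_le r1 e2 he2
    have h2d : r2.d = d' := by rw [hr2]; rfl
    have h2i : r2.i = r1.i := by rw [hr2]; rfl
    have h2h : r2.h = r1.h := by rw [hr2]; rfl
    set α := r1.h i with hα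
    set Z := en a α ν with hZ
    by_cases h1 : ∃ p ∈ r2.f, p.1 = (α, Z)
    · refine ⟨r2, hr21.trans hr1, by rw [h2i]; exact hi1, a, ?_, by rw [h2d]; exact hda, Or.inl ?_⟩
      · rw [h2h]; exact ha
      · rw [h2h]; exact h1
    · by_cases h2 : ∃ d ≤ r2.d, T.U d α Z
      · obtain ⟨d3, hd3, hU⟩ := h2
        let e3 : ECond D := { r2.toECond with d := d3 }
        have he3 : e3 ≤ r2.toECond := ⟨hd3, le_rfl, fun _ _ => rfl⟩
        obtain ⟨c, hc'⟩ := Infinite.exists_notMem_finset (r2.f.image Prod.snd)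
        have hfresh : ∀ p ∈ r2.f, p.2 ≠ c := fun p hp h =>
          hc' (Finset.mem_image.mpr ⟨p, hp, h⟩)
        let r3 : RCond T :=
          { toECond := e3
            f := insert ((α, Z), c) r2.f
            node := by
              intro p hp
              rcases Finset.mem_insert.mp hp with rfl | hp
              · refine ⟨⟨i, ?_, ?_⟩, hU⟩
                · show i < r2.i
                  rw [h2i]; exact hi1
                · show α = r2.h i
                  rw [h2h]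
              · exact (strengthen r2 e3 he3).node p hp
            func := by
              intro p hp q hq hpq
              rcases Finset.mem_insert.mp hp with rfl | hp <;>
                rcases Finset.mem_insert.mp hq with rfl | hq
              · rfl
              · exact absurd ⟨q, hq, hpq.symm⟩ h1
              · exact absurd ⟨p, hp, hpq⟩ h1
              · exact r2.func p hp q hq hpq
            col := by
              intro p hp q hq hpq
              rcases Finset.mem_insert.mp hp with rfl | hp <;>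
                rcases Finset.mem_insert.mp hq with rfl | hq
              · exact absurd hpq.1 (lt_irrefl _)
              · exact (hfresh q hq).symm
              · exact hfresh p hp
              · exact r2.col p hp q hq hpq }
        have hr32 : r3 ≤ r2 := ⟨he3, Finset.subset_insert _ _⟩
        refine ⟨r3, (hr32.trans hr21).trans hr1, ?_, a, ?_, ?_, Or.inl ?_⟩
        · show i < r2.i
          rw [h2i]; exact hi1
        · show a ∈ A (r2.h i)
          rw [h2h]; exact ha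
        · show d3 ≤ a
          exact (hd3.trans h2d.le).trans hda
        · refine ⟨((α, Z), c), Finset.mem_insert_self _ _, ?_⟩
          show (α, Z) = (r2.h i, en a (r2.h i) ν)
          rw [h2h]
      · push Not at h2
        refine ⟨r2, hr21.trans hr1, by rw [h2i]; exact hi1, a, ?_, by rw [h2d]; exact hda,
          Or.inr ?_⟩
        · rw [h2h]; exact ha
        · rw [h2h]; exact h2
  -- the filter
  obtain ⟨g, hg⟩ : ∃ g : K1 → K1 × K1, Function.Surjective g := by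
    apply surj_of_le
    rw [mk_prod, lift_id, mk_K1]
    exact (mul_eq_self (aleph0_le_aleph 1)).le
  have hneR : Nonempty (RCond T) := by
    obtain ⟨d⟩ := hne
    obtain ⟨h, hh, -⟩ := exists_incr (Classical.arbitrary K2)
    exact ⟨ofE T ⟨d, Classical.arbitrary K1, h, fun j _ k _ hjk => hh j k hjk⟩⟩
  obtain ⟨G, -, hdir, hmeet⟩ := hP (RCond T) (rcond_proper hc hML) (fun i => Dn (g i))
    (fun i => hDn _)
  have hmeet' : ∀ q : K1 × K1, ∃ r ∈ G, r ∈ Dn q := by
    intro q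
    obtain ⟨i, rfl⟩ := hg q
    exact hmeet i
  choose R hRG hRD using hmeet'
  obtain ⟨ν₀⟩ : Nonempty K1 := inferInstance
  let α : K1 → K2 := fun i => (R (i, ν₀)).h i
  have hα : ∀ i ν, (R (i, ν)).h i = α i := by
    intro i ν
    obtain ⟨r, -, h1, h2⟩ := hdir _ (hRG (i, ν)) _ (hRG (i, ν₀))
    rw [← h1.1.2.2 i (hRD (i, ν)).1]
    exact h2.1.2.2 i (hRD (i, ν₀)).1
  have hmono : ∀ i i', i < i' → α i < α i' := by
    intro i i' hii
    obtain ⟨r, -, h1, h2⟩ := hdir _ (hRG (i, ν₀)) _ (hRG (i', ν₀))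
    have h3 : r.h i = α i := h1.1.2.2 i (hRD (i, ν₀)).1
    have h4 : r.h i' = α i' := h2.1.2.2 i' (hRD (i', ν₀)).1
    rw [← h3, ← h4]
    have h5 : i' < r.i := (hRD (i', ν₀)).1.trans_le h2.1.2.1
    exact r.smono i (hii.trans h5) i' h5 hii
  have hcard : #(K1 × K1) ≤ aleph 1 := by
    rw [mk_prod, lift_id, mk_K1]
    exact (mul_eq_self (aleph0_le_aleph 1)).le
  obtain ⟨d1, hd1⟩ := hc (range fun q => (R q).d) (range_nonempty _) (by
    rintro _ ⟨q, rfl⟩ _ ⟨q', rfl⟩ _
    obtain ⟨r, -, h1, h2⟩ := hdir _ (hRG q) _ (hRG q')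
    exact ht _ _ _ h1.1.1 h2.1.1) (mk_range_le.trans hcard)
  obtain ⟨δ, hδ⟩ := bound2 (range α) (mk_range_le.trans mk_K1.le)
  obtain ⟨d2, hd2, z, hz⟩ := T.ne d1 δ
  have hd2R : ∀ q, d2 ≤ (R q).d := fun q => hd2.trans (hd1 _ ⟨q, rfl⟩)
  have key : ∀ i, ∃ r ∈ G, ∃ p ∈ r.f, p.1 = (α i, z ∩ Iio (α i)) := by
    intro i
    have hU : T.U d2 (α i) (z ∩ Iio (α i)) := T.down d2 δ (α i) z (hδ _ ⟨i, rfl⟩).le hz
    obtain ⟨-, a0, ha0, hda0, -⟩ := hRD (i, ν₀)
    obtain ⟨ν, hν⟩ := hen a0 (α i) (hAs _ a0 ha0) d2 ((hd2R _).trans hda0) _ hU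
    obtain ⟨-, a, ha, hda, h⟩ := hRD (i, ν)
    simp only [hα i ν] at ha h
    have haa : a = a0 := hAu _ a ha a0 ha0 d2 ((hd2R _).trans hda) ((hd2R _).trans hda0)
    rw [haa, hν] at h
    rcases h with ⟨p, hp, hpe⟩ | h
    · exact ⟨_, hRG (i, ν), p, hp, hpe⟩
    · exact absurd hU (h d2 (hd2R _))
  choose r hrG p hpr hp using key
  have hne2 : ∀ i i', i < i' → (p i).2 ≠ (p i').2 := by
    intro i i' hii
    obtain ⟨s, -, h1, h2⟩ := hdir _ (hrG i) _ (hrG i')
    apply s.col (p i) (h1.2 (hpr i)) (p i') (h2.2 (hpr i'))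
    rw [hp i, hp i']
    refine ⟨hmono i i' hii, ?_⟩
    show z ∩ Iio (α i) = (z ∩ Iio (α i')) ∩ Iio (α i)
    rw [inter_assoc, Iio_inter_Iio, min_eq_right (hmono i i' hii).le]
  have hinj : Function.Injective fun i => (p i).2 := by
    intro i i' h
    rcases lt_trichotomy i i' with h1 | h1 | h1
    · exact absurd h (hne2 i i' h1)
    · exact h1
    · exact absurd h.symm (hne2 i' i h1)
  have h1 : #K1 ≤ ℵ₀ := mk_le_aleph0_iff.mpr hinj.countable
  rw [mk_K1] at h1
  exact absurd h1 (not_le.mpr aleph0_lt_aleph_one)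

/-- restriction of a name to the conditions below `d₀` -/
def restr (d₀ : D) : UData {d : D // d ≤ d₀} where
  U d α Z := T.U d.1 α Z
  mono d d' α Z h h' := T.mono d.1 d'.1 α Z h h'
  down d α β Z h h' := T.down d.1 α β Z h h'
  ne d α := by
    obtain ⟨d', hd', Z, hZ⟩ := T.ne d.1 α
    exact ⟨⟨d', hd'.trans d.2⟩, hd', Z, hZ⟩
  small d α := by
    obtain ⟨d', hd', L, hL, h⟩ := T.small d.1 α
    exact ⟨⟨d', hd'.trans d.2⟩, hd', L, hL, fun d'' h'' Z hZ => h d''.1 h'' Z hZ⟩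

lemma branch_of_restr {d₀ : D} {d : {d : D // d ≤ d₀}} (h : (restr T d₀).HasBranch d) :
    T.HasBranch d.1 := by
  obtain ⟨b, h1, h2, h3, h4⟩ := h
  refine ⟨fun d' α Z => ∃ h : d' ≤ d₀, b ⟨d', h⟩ α Z, ?_, ?_, ?_, ?_⟩
  · rintro d' α Z ⟨h, hb⟩
    exact h1 ⟨d', h⟩ α Z hb
  · rintro d' d'' α Z hle ⟨h, hb⟩
    exact ⟨hle.trans h, h2 ⟨d', h⟩ ⟨d'', hle.trans h⟩ α Z hle hb⟩
  · rintro d' α β Z Z' hβ ⟨h, hb⟩ ⟨h', hb'⟩
    exact h3 ⟨d', h⟩ α β Z Z' hβ hb hb'
  · intro d' hd' α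
    obtain ⟨d'', hd'', Z, hZ⟩ := h4 ⟨d', hd'.trans d.2⟩ hd' α
    exact ⟨d''.1, hd'', Z, d''.2, hZ⟩

end Appl

end F2

/-- PFA gives branches -/
theorem f2_of_f1 (hF1 : F1Statement) : F2Statement := by
  intro hP D _ hc ht T d
  by_contra hcon
  push Not at hcon
  have hc' : IsClosed1 {d' : D // d' ≤ d} := by
    intro C hne hC hcard
    obtain ⟨x, hx⟩ := hc (Subtype.val '' C) (hne.image _) (by
      rintro _ ⟨a, ha, rfl⟩ _ ⟨b, hb, rfl⟩ hab
      exact hC ha hb (fun h => hab (congrArg Subtype.val h))) (mk_image_le.trans hcard)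
    obtain ⟨c, hcC⟩ := hne
    refine ⟨⟨x, (hx _ ⟨c, hcC, rfl⟩).trans c.2⟩, fun c' hc' => hx _ ⟨c', hc', rfl⟩⟩
  have ht' : IsTreeLike {d' : D // d' ≤ d} := fun a b c h h' => ht a.1 b.1 c.1 h h'
  have hML := hF1 {d' : D // d' ≤ d} hc' ht' (F2.cont_of_pfa hP) (F2.restr T d)
    (fun d' h => hcon d'.1 d'.2 (F2.branch_of_restr T h))
  exact F2.no_main (F2.restr T d) hP ⟨⟨d, le_rfl⟩⟩ hc' ht' hML

end Pool.Agent.Helper84.Kauf
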