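import Pool.Agent.Helper84.Kauf.Main1

set_option autoImplicit false

/-!
# The main argument: there is no Kaufmann model
-/

open Cardinal Set
open Pool.Agent.Helper23.CK (RO)

namespace Pool.Agent.Helper84.Kauf

variable {M : BStr (RO Cond) K2} {s₀ : Cond}

/-! ## The branch -/

/-- `bb` is a name of a branch through the tree of coded truth sets below `p₁` -/
structure Br (M : BStr (RO Cond) K2) (p₁ : D1) (bb : D1 → K2 → Set K2 → Prop) : Prop where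
  uk : ∀ p α Z, bb p α Z → p ≤ p₁ ∧ UK M p.s α Z
  mono : ∀ p p' α Z, p' ≤ p → bb p α Z → bb p' α Z
  coh : ∀ p α β Z Z', β ≤ α → bb p α Z → bb p β Z' → Z' = Z ∩ Iio β
  total : ∀ p ≤ p₁, ∀ α, ∃ p' ≤ p, ∃ Z, bb p' α Z

theorem exists_br (H : PAFacts) (h2 : ∀ (D : Type) [Preorder D], IsClosed1 D → IsTreeLike D →
    ∀ (T : UData D) (d : D), ∃ d' ≤ d, T.HasBranch d') (h : s₀ ∈ (kaufVal M).carrier) :
    ∃ p₁ : D1, p₁.s ≤ s₀ ∧ ∃ bb, Br M p₁ bb := by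
  let D : Type := {d : D1 // d.s ≤ s₀}
  have hcl : IsClosed1 D := by
    intro C hne hC hcard
    obtain ⟨d, hd⟩ := D1_closed (Subtype.val '' C) (hne.image _) (by
      rintro _ ⟨x, hx, rfl⟩ _ ⟨y, hy, rfl⟩ hxy
      exact hC hx hy fun h => hxy (by rw [h])) (mk_image_le.trans hcard)
    obtain ⟨c, hc⟩ := hne
    exact ⟨⟨d, (hd _ ⟨c, hc, rfl⟩).1.trans c.2⟩, fun x hx => hd _ ⟨x, hx, rfl⟩⟩
  have htl : IsTreeLike D := by
    intro a b c hca hcb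
    exact PCond.isTreeLike a.1 b.1 c.1 hca hcb
  let T : UData D :=
    { U := fun d α Z => UK M d.1.s α Z
      mono := fun d d' α Z hd hU r hr => hU r (hr.trans (show d'.1 ≤ d.1 from hd).1)
      down := fun d α β Z hβ hU r hr => by
        obtain ⟨s, hs, c, b, hG⟩ := hU r hr
        exact ⟨s, hs, c, b, hG.down hβ⟩
      ne := fun d α => by
        obtain ⟨q, hq, Z, c, b, hG⟩ := exists_good H h d.1 d.2 α
        exact ⟨⟨q, hq.1.trans d.2⟩, hq, Z, fun r hr => ⟨r, le_rfl, c, b, hG.mono hr⟩⟩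
      small := fun d α => by
        obtain ⟨q, hq, L, hL, hL'⟩ := exists_small H h d.1 d.2 α
        exact ⟨⟨q, hq.1.trans d.2⟩, hq, L, hL, fun d'' hd'' Z hZ => hL' d''.1 hd'' Z hZ⟩ }
  obtain ⟨p₀, hp₀⟩ := PCond.surjective_s (ι := Unit) s₀
  obtain ⟨d₁, hd₁, b, hb1, hb2, hb3, hb4⟩ := h2 D hcl htl T ⟨p₀, hp₀.le⟩
  refine ⟨d₁.1, d₁.2, fun p α Z => ∃ hp : p.s ≤ s₀, b ⟨p, hp⟩ α Z, ?_, ?_, ?_, ?_⟩
  · rintro p α Z ⟨hp, hb⟩
    exact hb1 _ _ _ hb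
  · rintro p p' α Z hpp ⟨hp, hb⟩
    exact ⟨hpp.1.trans hp, hb2 ⟨p, hp⟩ ⟨p', _⟩ _ _ hpp hb⟩
  · rintro p α β Z Z' hβ ⟨hp, hb⟩ ⟨hp', hb'⟩
    exact hb3 _ _ _ _ _ hβ hb hb'
  · intro p hp α
    obtain ⟨d'', hd'', Z, hZ⟩ := hb4 ⟨p, hp.1.trans d₁.2⟩ hp α
    exact ⟨d''.1, hd'', Z, d''.2, hZ⟩

/-! ## Numerals and pairs -/

variable (M) in
/-- truth value of: `x` is the `n`-th numeral -/
def isNum (n : ℕ) (x : K2) : RO Cond := (Fm.eq (.var 0) (Tm.num n)).val M (fun _ => x)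

variable (M) in
/-- truth value of: `z` is the pair of `n` and `x` -/
def prv (n x z : K2) : RO Cond :=
  (Fm.eq (.var 2) (Tm.pr (.var 0) (.var 1))).val M
    (fun k => if k = 0 then n else if k = 1 then x else z)

section dec

variable {s : Cond} {γ : K2} {N : NStr (Iio γ)}

theorem ev_num' {A : Type} (N : NStr A) (n : ℕ) (v : ℕ → A) : (Tm.num n).ev N v = N.num n := by
  induction n with
  | zero => rfl
  | succ n ih => simp [Tm.num, Tm.ev, NStr.num, ih]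

theorem Decides.num_iff (hD : Decides M s γ N) (n : ℕ) (x : Iio γ) :
    N.num n = x ↔ s ∈ (isNum M n x).carrier := by
  have h1 := hD (.eq (.var 0) (Tm.num n)) (fun _ => x)
  rw [isNum, ← h1]
  simp only [Fm.sat, ev_num', Tm.ev]
  exact eq_comm

theorem Decides.pr_iff (hD : Decides M s γ N) (n x z : Iio γ) :
    N.pr n x = z ↔ s ∈ (prv M n x z).carrier := by
  have h1 := hD (.eq (.var 2) (Tm.pr (.var 0) (.var 1)))
    (fun k => if k = 0 then n else if k = 1 then x else z)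
  have e : (fun k : ℕ => ((if k = 0 then n else if k = 1 then x else z : Iio γ) : K2)) =
      fun k => if k = 0 then (n : K2) else if k = 1 then (x : K2) else z := by
    funext k
    split_ifs <;> rfl
  rw [e] at h1
  rw [prv, ← h1]
  simp only [Fm.sat, Tm.ev, Tm.pr, NStr.pr]
  simp [eq_comm]

end dec

/-! ## The two generic branches -/

section main

variable {p₁ : D1} {bb : D1 → K2 → Set K2 → Prop}

variable (M bb) in
/-- `q` forces that the two branches disagree at a pair `(n, x)` with `n` below `e` -/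
def Dis (q : PCond Bool) (e : K2) : Prop :=
  ∃ z n x α Z β Z', z < α ∧ z < β ∧ bb (PCond.coord false q) α Z ∧ bb (PCond.coord true q) β Z' ∧
    ¬ (z ∈ Z ↔ z ∈ Z') ∧ q.s ∈ (prv M n x z).carrier ∧ q.s ∈ (M.lt n e).carrier

theorem Dis.mono (hB : Br M p₁ bb) {q q' : PCond Bool} {e : K2} (hq : q' ≤ q) (hd : Dis M bb q e) :
    Dis M bb q' e := by
  obtain ⟨z, n, x, α, Z, β, Z', h1, h2, h3, h4, h5, h6, h7⟩ := hd
  exact ⟨z, n, x, α, Z, β, Z', h1, h2, hB.mono _ _ _ _ ((PCond.isProj_coord false).mono hq) h3,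
    hB.mono _ _ _ _ ((PCond.isProj_coord true).mono hq) h4, h5, RO.lower _ hq.1 h6,
    RO.lower _ hq.1 h7⟩

theorem Br.mem_iff (hB : Br M p₁ bb) {p : D1} {α β z : K2} {Z Z' : Set K2} (h : bb p α Z)
    (h' : bb p β Z') (hα : z < α) (hβ : z < β) : z ∈ Z ↔ z ∈ Z' := by
  rcases le_total α β with hab | hab
  · have := hB.coh p β α Z' Z hab h' h
    rw [this]
    simp [hα]
  · have := hB.coh p α β Z Z' hab h h'
    rw [this]
    simp [hβ]

/-- nonstandard elements -/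
theorem exists_nonst (h : s₀ ∈ (kaufVal M).carrier) (hp₁ : p₁.s ≤ s₀) :
    ∃ p₂ ≤ p₁, ∃ a : ℕ → K2, (∀ n, p₂.s ∈ (isNum M n (a n)).carrier) ∧ ∃ e β : K2, (∀ n, a n < e) ∧
      ∀ x, β ≤ x → p₂.s ∈ ((M.lt x e)ᶜ).carrier := by
  obtain ⟨q, hq, γ, -, N, hN, hD⟩ := reflect_proj PCond.isProj_s D1_closed M
    (RO.lower _ hp₁ (kauf_pa h)) (Classical.arbitrary K2)
  obtain ⟨e, he⟩ := exists_bound (I := ℕ) countable_le_aleph1 (fun n => (N.num n : K2))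
  obtain ⟨q', hq', β, hβ⟩ := exists_seg h q (hq.1.trans hp₁) e
  refine ⟨q', hq'.trans hq, fun n => N.num n, fun n => ?_, e, β, he, hβ⟩
  exact RO.lower _ hq'.1 ((Decides.num_iff hD n _).1 rfl)

/-- the first case: there are disagreements below all nonstandard numbers -/
theorem no_case1 (H : PAFacts) (h : s₀ ∈ (kaufVal M).carrier) (hp₁ : p₁.s ≤ s₀) (hB : Br M p₁ bb)
    {p₂ : D1} (hp₂ : p₂ ≤ p₁) {a : ℕ → K2} (ha : ∀ n, p₂.s ∈ (isNum M n (a n)).carrier) {e β : K2}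
    (he : ∀ n, a n < e) (hβ : ∀ x, β ≤ x → p₂.s ∈ ((M.lt x e)ᶜ).carrier) {q₀ : PCond Bool}
    (hq₀ : ∀ i, PCond.coord i q₀ ≤ p₂)
    (hall : ∀ m, m ∉ range a → m ≤ max β e → ∀ q ≤ q₀, ∃ r ≤ q, Dis M bb r m) : False := by
  classical
  have hcl : IsClosed1 (PCond Bool) := PCond.isClosed1 countable_le_aleph1
  let I : Type := {m : K2 // m ∉ range a ∧ m ≤ max β e}
  have hI : #I ≤ aleph 1 := by
    refine le_trans ?_ (mk_Iic_K2 (max β e))
    exact mk_subtype_mono fun x hx => hx.2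
  obtain ⟨q₁, hq₁, hD₁⟩ := hcl.dist hI (fun m => {q | Dis M bb q m.1})
    (fun m p q hqp hp => Dis.mono hB hqp hp) q₀ (fun m q hq => hall m.1 m.2.1 m.2.2 q hq)
  choose z n x α Z β' Z' hzα hzβ hbZ hbZ' hne hpr hlt using hD₁
  -- a common level
  obtain ⟨A, hA⟩ := exists_bound (I := I × Fin 3) (by
      rw [mk_prod, lift_id, lift_id]
      exact (mul_le_mul' hI countable_le_aleph1).trans (mul_eq_self (aleph0_le_aleph 1)).le)
    (fun y => ![z y.1, n y.1, x y.1] y.2)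
  have hzA : ∀ m, z m < A := fun m => hA (m, 0)
  have hnA : ∀ m, n m < A := fun m => hA (m, 1)
  have hxA : ∀ m, x m < A := fun m => hA (m, 2)
  have hle : ∀ i, PCond.coord i q₁ ≤ p₁ := fun i =>
    ((PCond.isProj_coord i).mono hq₁).trans ((hq₀ i).trans hp₂)
  obtain ⟨r₁, hr₁, Y, hY⟩ := hB.total _ (hle false) A
  obtain ⟨q₂, hq₂, hq₂'⟩ := (PCond.isProj_coord false).lift q₁ r₁ hr₁
  obtain ⟨r₂, hr₂, Y', hY'⟩ := hB.total (PCond.coord true q₂)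
    (((PCond.isProj_coord true).mono hq₂).trans (hle true)) A
  obtain ⟨q₃, hq₃, hq₃'⟩ := (PCond.isProj_coord true).lift q₂ r₂ hr₂
  have hY3 : bb (PCond.coord false q₃) A Y :=
    hB.mono _ _ _ _ (((PCond.isProj_coord false).mono hq₃).trans hq₂') hY
  have hY3' : bb (PCond.coord true q₃) A Y' := hB.mono _ _ _ _ hq₃' hY'
  have hYne : ∀ m, ¬ (z m ∈ Y ↔ z m ∈ Y') := by
    intro m hm
    refine hne m ?_
    have hq₃₁ := hq₃.trans hq₂
    rw [hB.mem_iff (hB.mono _ _ _ _ ((PCond.isProj_coord false).mono hq₃₁) (hbZ m)) hY3 (hzα m) (hzA m),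
      hB.mem_iff (hB.mono _ _ _ _ ((PCond.isProj_coord true).mono hq₃₁) (hbZ' m)) hY3' (hzβ m) (hzA m)]
    exact hm
  -- codes
  obtain ⟨t, ht, c, b, hG⟩ := (hB.uk _ _ _ hY3).2 q₃.s le_rfl
  obtain ⟨q₄, hq₄, hq₄'⟩ := PCond.isProj_s.lift q₃ t ht
  obtain ⟨t', ht', c', b', hG'⟩ := (hB.uk _ _ _ hY3').2 q₄.s hq₄.1
  obtain ⟨q₅, hq₅, hq₅'⟩ := PCond.isProj_s.lift q₄ t' ht'
  have hG5 : GdC M q₅.s A Y c b := hG.mono (hq₅.1.trans hq₄')
  have hG5' : GdC M q₅.s A Y' c' b' := hG'.mono hq₅'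
  have hq₅₁ : q₅ ≤ q₁ := hq₅.trans (hq₄.trans (hq₃.trans hq₂))
  have hq₅p : q₅.s ≤ p₂.s := hq₅₁.1.trans (hq₁.1.trans (hq₀ false).1)
  have hq₅s : q₅.s ≤ s₀ := hq₅p.trans (hp₂.1.trans hp₁)
  obtain ⟨γ₀, hγ₀⟩ := exists_bound (I := Fin 7) countable_le_aleph1 ![A, c, b, c', b', e, β]
  obtain ⟨q₆, hq₆, γ, hγ, N, hN, hD⟩ := reflect_proj PCond.isProj_s hcl M
    (RO.lower _ hq₅s (kauf_pa h)) γ₀
  have hAγ : A < γ := (hγ₀ 0).trans hγ
  have hcγ : c < γ := (hγ₀ 1).trans hγ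
  have hbγ : b < γ := (hγ₀ 2).trans hγ
  have hcγ' : c' < γ := (hγ₀ 3).trans hγ
  have hbγ' : b' < γ := (hγ₀ 4).trans hγ
  have heγ : e < γ := (hγ₀ 5).trans hγ
  have hnum : ∀ n, (N.num n : K2) = a n := by
    intro n
    have := (Decides.num_iff hD n ⟨a n, (he n).trans heγ⟩).2
      (RO.lower _ (hq₆.1.trans hq₅p) (ha n))
    rw [this]
  have hG6 : GdC M q₆.s A Y c b := hG5.mono hq₆.1
  have hG6' : GdC M q₆.s A Y' c' b' := hG5'.mono hq₆.1
  -- the smaller of the two bounds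
  obtain ⟨b₀, hb₀, hb₀', hb₀z⟩ : ∃ b₀ : Iio γ, (∀ x, N.lt x b₀ → N.lt x ⟨b, hbγ⟩) ∧
      (∀ x, N.lt x b₀ → N.lt x ⟨b', hbγ'⟩) ∧
      ∀ x, N.lt x ⟨b, hbγ⟩ → N.lt x ⟨b', hbγ'⟩ → N.lt x b₀ := by
    rcases H.total _ N hN ⟨b, hbγ⟩ ⟨b', hbγ'⟩ with h1 | h1 | h1
    · exact ⟨⟨b, hbγ⟩, fun x hx => hx, fun x hx => H.trans _ N hN _ _ _ hx h1, fun x hx _ => hx⟩
    · exact ⟨⟨b, hbγ⟩, fun x hx => hx, fun x hx => h1 ▸ hx, fun x hx _ => hx⟩
    · exact ⟨⟨b', hbγ'⟩, fun x hx => H.trans _ N hN _ _ _ hx h1, fun x hx => hx, fun x _ hx => hx⟩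
  obtain ⟨m, hm, hmn, hm'⟩ := H.ospill _ N hN ⟨c, hcγ⟩ ⟨c', hcγ'⟩ b₀ ⟨e, heγ⟩ (by
      intro n hn
      have h1 := congrArg Subtype.val hn
      rw [hnum n] at h1
      exact (he n).ne h1.symm) (by
      intro n x hx
      obtain ⟨φ, rfl⟩ := H.code_surj n
      have h1 := (Decides.pp_iff H hD φ ⟨c, hcγ⟩ ⟨b, hbγ⟩).1 (hG6.truth φ) x (hb₀ x hx)
      have h2 := (Decides.pp_iff H hD φ ⟨c', hcγ'⟩ ⟨b', hbγ'⟩).1 (hG6'.truth φ) x (hb₀' x hx)
      rw [h1, h2])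
  have hmI : (m : K2) ∉ range a ∧ (m : K2) ≤ max β e := by
    constructor
    · rintro ⟨n, hn⟩
      exact hmn n (Subtype.ext (by rw [hnum n, hn]))
    · rcases hm with hm | hm
      · rw [Decides.lt_iff hD] at hm
        by_contra hc
        have h1 : β ≤ (m : K2) := (le_max_left β e).trans (not_le.1 hc).le
        exact not_mem_both hm (RO.lower _ (hq₆.1.trans hq₅p) (hβ _ h1))
      · rw [hm]
        exact le_max_right β e
  let m' : I := ⟨m, hmI⟩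
  have hzγ : z m' < γ := (hzA m').trans hAγ
  have hnγ : n m' < γ := (hnA m').trans hAγ
  have hxγ : x m' < γ := (hxA m').trans hAγ
  have hq₆₁ : q₆.s ≤ q₁.s := hq₆.1.trans hq₅₁.1
  have h1 : N.pr ⟨n m', hnγ⟩ ⟨x m', hxγ⟩ = ⟨z m', hzγ⟩ := by
    rw [Decides.pr_iff hD]
    exact RO.lower _ hq₆₁ (hpr m')
  have h2 : N.lt ⟨n m', hnγ⟩ m := by
    rw [Decides.lt_iff hD]
    exact RO.lower _ hq₆₁ (hlt m')
  have h3 : N.lt ⟨z m', hzγ⟩ b₀ := by
    refine hb₀z _ ?_ ?_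
    · rw [Decides.lt_iff hD]
      exact hG6.bound _ (hzA m')
    · rw [Decides.lt_iff hD]
      exact hG6'.bound _ (hzA m')
  have h4 : N.lt ⟨x m', hxγ⟩ b₀ := by
    rcases H.le_pr _ N hN ⟨n m', hnγ⟩ ⟨x m', hxγ⟩ with h4 | h4
    · rw [h1] at h4
      exact H.trans _ N hN _ _ _ h4 h3
    · rw [h1] at h4
      rw [h4]
      exact h3
  have h5 := hm' ⟨n m', hnγ⟩ ⟨x m', hxγ⟩ h2 h4
  rw [h1, Decides.el_iff H hD, Decides.el_iff H hD] at h5
  refine hYne m' ⟨fun h6 => ?_, fun h6 => ?_⟩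
  · by_contra h7
    exact not_mem_both (h5.1 (hG6.pos _ (hzA m') h6)) (hG6'.neg _ (hzA m') h7)
  · by_contra h7
    exact not_mem_both (h5.2 (hG6'.pos _ (hzA m') h6)) (hG6.neg _ (hzA m') h7)

/-! ### The second case -/

variable (M bb) in
/-- `p` forces that the pair `z` (with first component below `e`) belongs to the branch -/
def Yes (e z : K2) (p : D1) : Prop :=
  ∃ n x α Z, p.s ∈ (prv M n x z).carrier ∧ p.s ∈ (M.lt n e).carrier ∧ z < α ∧ bb p α Z ∧ z ∈ Z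

variable (M bb) in
/-- `p` forces that the pair `z` (with first component below `e`) does not belong to the branch -/
def No (e z : K2) (p : D1) : Prop :=
  ∃ n x α Z, p.s ∈ (prv M n x z).carrier ∧ p.s ∈ (M.lt n e).carrier ∧ z < α ∧ bb p α Z ∧ z ∉ Z

theorem yes_no (hB : Br M p₁ bb) {q₁ : PCond Bool} (hle : PCond.coord true q₁ ≤ p₁) {e : K2}
    (hno : ∀ r ≤ q₁, ¬ Dis M bb r e) {z : K2} {p p' : D1} (hp : p ≤ PCond.coord false q₁)
    (hp' : p' ≤ PCond.coord false q₁) {t : Cond} (ht : t ≤ p.s) (ht' : t ≤ p'.s)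
    (hy : Yes M bb e z p) (hn : No M bb e z p') : False := by
  obtain ⟨n, x, α, Z, h1, h2, h3, h4, h5⟩ := hy
  obtain ⟨n', x', α', Z', h1', h2', h3', h4', h5'⟩ := hn
  have hts : t ≤ q₁.s := ht.trans hp.1
  obtain ⟨W, hW, hW'⟩ := Cond.exists_ext hts (q₁.mem true)
  obtain ⟨r, hr, V, hV⟩ := hB.total (⟨t, fun _ => W, fun _ => hW⟩ : D1)
    (le_trans ⟨hts, fun _ => hW'⟩ hle) α
  have hrt : r.s ≤ t := hr.1
  have hrq : ∀ {p : D1}, p ≤ PCond.coord false q₁ → t ≤ p.s → ∃ r' : PCond Bool, r' ≤ q₁ ∧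
      r'.s = r.s ∧ PCond.coord false r' ≤ p ∧ PCond.coord true r' = r := by
    intro p hp ht
    obtain ⟨X, hX, hX'⟩ := Cond.exists_ext (hrt.trans ht) (p.mem ())
    have hf : X ∩ Iio q₁.s.η = q₁.X false := by
      have h6 := hp.2 ()
      have h7 : (PCond.coord false q₁).X () = q₁.X false := rfl
      have h8 : (PCond.coord false q₁).s = q₁.s := rfl
      rw [h7, h8] at h6
      have h9 : q₁.s.η ≤ p.s.η := hp.1.1
      rw [← h6, ← hX', inter_assoc, Iio_inter_Iio, min_eq_right h9]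
    have hw : r.X () ∩ Iio q₁.s.η = q₁.X true := by
      have h6 := hr.2 ()
      have h7 : r.X () ∩ Iio t.η = W := h6
      rw [← hW', ← h7, inter_assoc, Iio_inter_Iio, min_eq_right hts.1]
    refine ⟨⟨r.s, fun i => if i then r.X () else X, fun i => ?_⟩, ⟨hrt.trans hts, fun i => ?_⟩, rfl,
      ⟨hrt.trans ht, fun i => ?_⟩, ?_⟩
    · cases i
      · simpa using hX
      · simpa using r.mem ()
    · cases i
      · simpa using hf
      · simpa using hw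
    · simpa [PCond.coord] using hX'
    · exact PCond.ext rfl (funext fun _ => by simp [PCond.coord])
  obtain ⟨r₁, hr₁, hr₁s, hr₁f, hr₁t⟩ := hrq hp ht
  obtain ⟨r₂, hr₂, hr₂s, hr₂f, hr₂t⟩ := hrq hp' ht'
  have hA : z ∈ Z ↔ z ∈ V := by
    by_contra hc
    refine hno r₁ hr₁ ⟨z, n, x, α, Z, α, V, h3, h3, hB.mono _ _ _ _ hr₁f h4, ?_, hc, ?_, ?_⟩
    · rw [hr₁t]
      exact hV
    · rw [hr₁s]
      exact RO.lower _ (hrt.trans ht) h1
    · rw [hr₁s]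
      exact RO.lower _ (hrt.trans ht) h2
  have hA' : z ∈ Z' ↔ z ∈ V := by
    by_contra hc
    refine hno r₂ hr₂ ⟨z, n', x', α', Z', α, V, h3', h3, hB.mono _ _ _ _ hr₂f h4', ?_, hc, ?_, ?_⟩
    · rw [hr₂t]
      exact hV
    · rw [hr₂s]
      exact RO.lower _ (hrt.trans ht') h1'
    · rw [hr₂s]
      exact RO.lower _ (hrt.trans ht') h2'
  exact h5' (hA'.2 (hA.1 h5))

variable (M bb) in
/-- the name of the common part of the branches -/
def WN (π₀ : D1) (e z : K2) : RO Cond :=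
  RO.hull {s | ∃ p ≤ π₀, s ≤ p.s ∧ Yes M bb e z p} fun _ _ hqp ⟨r, hr, hpr, hy⟩ =>
    ⟨r, hr, hqp.trans hpr, hy⟩

/-- the formula which defines the part of the branch below `v_5` by means of the code `v_1` -/
def phiC : Fm :=
  (Fm.lt (.var 0) (.var 5)).and ((Fm.ex 7 (Fm.ex 8 ((Fm.eq (.var 0) (Tm.pr (.var 7) (.var 8))).and
    (Fm.lt (.var 7) (.var 6))))).and (Fm.el (.var 0) (.var 1) 2))

theorem val_phiC (v : ℕ → K2) : phiC.val M v = M.lt (v 0) (v 5) ⊓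
    ((⨆ n, ⨆ x, prv M n x (v 0) ⊓ M.lt n (v 6)) ⊓ elv M (v 0) (v 1)) := by
  have e1 : ∀ (i j : ℕ) (v : ℕ → K2), (Fm.lt (.var i) (.var j)).val M v = M.lt (v i) (v j) := by
    intro i j v
    simp only [Fm.val, Tm.val]
    simp_rw [inf_assoc, ← inf_iSup_eq, iSup_tv_inf]
  have e2 : (Fm.el (.var 0) (.var 1) 2).val M v = elv M (v 0) (v 1) := by
    refine Fm.val_congr M _ fun k hk => ?_
    have : (Fm.el (.var 0) (.var 1) 2).fv = {0, 1} := by decide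
    rw [this] at hk
    simp only [Finset.mem_insert, Finset.mem_singleton] at hk
    rcases hk with rfl | rfl <;> simp
  have e3 : ∀ v : ℕ → K2, (Fm.eq (.var 0) (Tm.pr (.var 7) (.var 8))).val M v =
      prv M (v 7) (v 8) (v 0) := by
    intro v
    simp only [prv, Fm.val, Tm.val, Tm.pr]
    simp
  simp only [phiC, Fm.val_and, Fm.val_ex, e1, e2, e3]
  simp

theorem Yes.mem_WN {π₀ p : D1} {e z : K2} (hp : p ≤ π₀) (hy : Yes M bb e z p) {s : Cond}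
    (hs : s ≤ p.s) : s ∈ (WN M bb π₀ e z).carrier :=
  RO.subset_hull ⟨p, hp, hs, hy⟩

theorem No.mem_WN (hB : Br M p₁ bb) {q₁ : PCond Bool} (hle : PCond.coord true q₁ ≤ p₁) {e : K2}
    (hno : ∀ r ≤ q₁, ¬ Dis M bb r e) {z : K2} {p : D1} (hp : p ≤ PCond.coord false q₁)
    (hn : No M bb e z p) : p.s ∈ ((WN M bb (PCond.coord false q₁) e z)ᶜ).carrier := by
  intro t ht ht'
  obtain ⟨r, hr, p', hp', hrp, hy⟩ := ht' t le_rfl
  exact yes_no hB hle hno hp' hp hrp (hr.trans ht) hy hn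

/-- the name `WN` is a name of a class -/
theorem classVal_WN (h : s₀ ∈ (kaufVal M).carrier) (hp₁ : p₁.s ≤ s₀)
    (hB : Br M p₁ bb) {q₁ : PCond Bool} (hle : ∀ i, PCond.coord i q₁ ≤ p₁) {e : K2}
    (hno : ∀ r ≤ q₁, ¬ Dis M bb r e) :
    q₁.s ∈ (M.classVal (WN M bb (PCond.coord false q₁) e)).carrier := by
  rw [BStr.classVal, RO.mem_iInf]
  intro a
  rw [BStr.defVal, RO.mem_iSup]
  intro t ht
  obtain ⟨p, hp, hpt⟩ := PCond.isProj_s.lift (PCond.coord false q₁) t ht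
  have hps : p.s ≤ s₀ := hp.1.trans ((hle false).1.trans hp₁)
  obtain ⟨p', hp', β, hβ⟩ := exists_seg h p hps a
  obtain ⟨p₂, hp₂, Z, hZ⟩ := hB.total p' (hp'.trans (hp.trans (hle false))) β
  obtain ⟨u, hu, c, b, hG⟩ := (hB.uk _ _ _ hZ).2 p₂.s le_rfl
  obtain ⟨p₃, hp₃, hp₃'⟩ := PCond.isProj_s.lift p₂ u hu
  have hG3 : GdC M p₃.s β Z c b := hG.mono hp₃'
  have hZ3 : bb p₃ β Z := hB.mono _ _ _ _ hp₃ hZ
  have hp₃π : p₃ ≤ PCond.coord false q₁ := hp₃.trans (hp₂.trans (hp'.trans hp))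
  refine ⟨p₃.s, (hp₃.1.trans (hp₂.1.trans hp'.1)).trans hpt, phiC, ?_⟩
  refine mem_iSup_of_mem (fun k => if k = 1 then c else if k = 5 then a else e) ?_
  rw [RO.mem_iInf]
  intro x
  rw [mem_iffV]
  intro v hv
  rw [val_phiC]
  have e0 : Function.update (fun k : ℕ => if k = 1 then c else if k = 5 then a else e) 0 x 0 = x := by
    simp
  have e1 : Function.update (fun k : ℕ => if k = 1 then c else if k = 5 then a else e) 0 x 1 = c := by
    simp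
  have e5 : Function.update (fun k : ℕ => if k = 1 then c else if k = 5 then a else e) 0 x 5 = a := by
    simp
  have e6 : Function.update (fun k : ℕ => if k = 1 then c else if k = 5 then a else e) 0 x 6 = e := by
    simp
  rw [e0, e1, e5, e6]
  simp only [RO.mem_inf]
  have hxβ : v ∈ (M.lt x a).carrier → x < β := by
    intro h1
    by_contra hc
    exact not_mem_both h1 (RO.lower _ (hv.trans (hp₃.1.trans hp₂.1)) (hβ x (not_lt.1 hc)))
  constructor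
  · rintro ⟨h1, h2⟩
    have hx := hxβ h2
    have hkey : ∀ w ≤ v, ∃ w' ≤ w, (∃ n x', w' ∈ (prv M n x' x).carrier ∧ w' ∈ (M.lt n e).carrier) ∧
        x ∈ Z := by
      intro w hw
      obtain ⟨w', hw', p', hp', hwp, n, x', α, Z₁, h3, h4, h5, h6, h7⟩ := h1 w hw
      refine ⟨w', hw', ⟨n, x', RO.lower _ hwp h3, RO.lower _ hwp h4⟩, ?_⟩
      by_contra hc
      obtain ⟨r, hr, hr'⟩ := PCond.isProj_s.lift p₃ w' (hw'.trans (hw.trans hv))
      exact yes_no hB (hle true) hno hp' (hr.trans hp₃π) (hr'.trans hwp) le_rfl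
        ⟨n, x', α, Z₁, h3, h4, h5, h6, h7⟩
        ⟨n, x', β, Z, RO.lower _ (hr'.trans hwp) h3, RO.lower _ (hr'.trans hwp) h4, hx,
          hB.mono _ _ _ _ hr hZ3, hc⟩
    obtain ⟨_, _, _, hxZ⟩ := hkey v le_rfl
    refine ⟨h2, ?_, RO.lower _ hv (hG3.pos x hx hxZ)⟩
    rw [RO.mem_iSup]
    intro w hw
    obtain ⟨w', hw', ⟨n, x', h3, h4⟩, _⟩ := hkey w hw
    exact ⟨w', hw', n, mem_iSup_of_mem x' ⟨h3, h4⟩⟩
  · rintro ⟨h2, h3, h4⟩
    have hx := hxβ h2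
    have hxZ : x ∈ Z := by
      by_contra hc
      exact not_mem_both h4 (RO.lower _ hv (hG3.neg x hx hc))
    refine ⟨?_, h2⟩
    intro w hw
    obtain ⟨w₁, hw₁, n, h5⟩ := RO.mem_iSup.1 h3 w hw
    obtain ⟨w₂, hw₂, x', h6⟩ := RO.mem_iSup.1 h5 w₁ le_rfl
    obtain ⟨r, hr, hr'⟩ := PCond.isProj_s.lift p₃ w₂ (hw₂.trans (hw₁.trans (hw.trans hv)))
    exact ⟨r.s, hr'.trans (hw₂.trans hw₁), r, hr.trans hp₃π, le_rfl, n, x', β, Z,
      RO.lower _ hr' h6.1, RO.lower _ hr' h6.2, hx, hB.mono _ _ _ _ hr hZ3, hxZ⟩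

/-- the second case: there is a nonstandard number with no disagreement below it -/
theorem no_case2 (H : PAFacts) (h : s₀ ∈ (kaufVal M).carrier) (hp₁ : p₁.s ≤ s₀) (hB : Br M p₁ bb)
    {p₂ : D1} {a : ℕ → K2} (ha : ∀ n, p₂.s ∈ (isNum M n (a n)).carrier) {e : K2}
    {q₁ : PCond Bool} (hle : ∀ i, PCond.coord i q₁ ≤ p₁) (hle₂ : q₁.s ≤ p₂.s) (he : e ∉ range a)
    (hno : ∀ r ≤ q₁, ¬ Dis M bb r e) : False := by
  have hq₁s : q₁.s ≤ s₀ := (hle false).1.trans hp₁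
  have h1 := classVal_WN h hp₁ hB hle hno
  have h2 := RO.lower _ hq₁s (kauf_rcl h)
  rw [BStr.rclVal, RO.mem_iInf] at h2
  have h3 := RO.mem_himp.1 (h2 (WN M bb (PCond.coord false q₁) e)) q₁.s le_rfl h1
  obtain ⟨s₁, hs₁, ψ, h4⟩ := RO.mem_iSup.1 h3 q₁.s le_rfl
  obtain ⟨s₂, hs₂, v, h5⟩ := RO.mem_iSup.1 h4 s₁ le_rfl
  rw [RO.mem_iInf] at h5
  obtain ⟨p, hp, hps⟩ := PCond.isProj_s.lift (PCond.coord false q₁) s₂ (hs₂.trans hs₁)
  have hps₀ : p.s ≤ s₀ := hp.1.trans hq₁s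
  obtain ⟨γ₀, hγ₀⟩ := exists_bound (I := ℕ ⊕ ℕ) countable_le_aleph1 (Sum.elim v a)
  obtain ⟨p₃, hp₃, γ, hγ, N, hN, hD⟩ := reflect_proj PCond.isProj_s D1_closed M
    (RO.lower _ hps₀ (kauf_pa h)) (max γ₀ e)
  have hvγ : ∀ k, v k < γ := fun k => (hγ₀ (Sum.inl k)).trans ((le_max_left _ _).trans_lt hγ)
  have haγ : ∀ k, a k < γ := fun k => (hγ₀ (Sum.inr k)).trans ((le_max_left _ _).trans_lt hγ)
  have heγ : e < γ := (le_max_right γ₀ e).trans_lt hγ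
  obtain ⟨p₄, hp₄, Z, hZ⟩ := hB.total p₃ (hp₃.trans (hp.trans (hle false))) γ
  obtain ⟨t, ht, c, b, hG⟩ := (hB.uk _ _ _ hZ).2 p₄.s le_rfl
  obtain ⟨p₅, hp₅, hp₅'⟩ := PCond.isProj_s.lift p₄ t ht
  obtain ⟨γ₁, hγ₁⟩ := exists_bound (I := Fin 3) countable_le_aleph1 ![γ, c, b]
  have hp₅p : p₅ ≤ p := hp₅.trans (hp₄.trans hp₃)
  obtain ⟨q, hq, γ', hγ', N', hN', hD'⟩ := reflect_proj PCond.isProj_s D1_closed M
    (RO.lower _ (hp₅p.1.trans hps₀) (kauf_pa h)) γ₁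
  have hγγ' : γ < γ' := (hγ₁ 0).trans hγ'
  have hcγ' : c < γ' := (hγ₁ 1).trans hγ'
  have hbγ' : b < γ' := (hγ₁ 2).trans hγ'
  have hqp : q ≤ p := hq.trans hp₅p
  have hG6 : GdC M q.s γ Z c b := hG.mono (hq.1.trans hp₅')
  have hZ6 : bb q γ Z := hB.mono _ _ _ _ (hq.trans hp₅) hZ
  have hD6 : Decides M q.s γ N := Decides.mono hD (hq.1.trans (hp₅.1.trans hp₄.1))
  have hqπ : q ≤ PCond.coord false q₁ := hqp.trans hp
  have hqa : ∀ n, q.s ∈ (isNum M n (a n)).carrier := fun n =>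
    RO.lower _ ((hqp.1.trans hp.1).trans hle₂) (ha n)
  have hnum : ∀ n, (N.num n : K2) = a n := by
    intro n
    have := (Decides.num_iff hD6 n ⟨a n, haγ n⟩).2 (hqa n)
    rw [this]
  have hnum' : ∀ n, (N'.num n : K2) = a n := by
    intro n
    have := (Decides.num_iff hD' n ⟨a n, (haγ n).trans hγγ'⟩).2 (hqa n)
    rw [this]
  refine H.tarski _ N hN ψ (fun k => ⟨v k, hvγ k⟩) fun φ hφ x => ?_
  set z : Iio γ := N.pr (N.num φ.code) x with hz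
  have hzγ : (z : K2) < γ := z.2
  -- the pair
  have hpr : q.s ∈ (prv M (N.num φ.code) x z).carrier := (Decides.pr_iff hD6 _ _ _).1 rfl
  have hlt : q.s ∈ (M.lt (N.num φ.code) e).carrier := by
    refine (Decides.lt_iff hD6 (N.num φ.code) ⟨e, heγ⟩).1 (H.num_lt _ N hN _ (fun n hn => he ?_) _)
    exact ⟨n, by rw [← hnum n, ← hn]⟩
  have hWZ : q.s ∈ (WN M bb (PCond.coord false q₁) e z).carrier ↔ (z : K2) ∈ Z := by
    constructor
    · intro h6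
      by_contra hc
      exact not_mem_both h6 (No.mem_WN hB (hle true) hno hqπ ⟨_, _, γ, Z, hpr, hlt, hzγ, hZ6, hc⟩)
    · intro h6
      exact Yes.mem_WN hqπ ⟨_, _, γ, Z, hpr, hlt, hzγ, hZ6, h6⟩ le_rfl
  have hψ : ψ.sat N (Function.update (fun k => ⟨v k, hvγ k⟩) 0 z) ↔
      q.s ∈ (WN M bb (PCond.coord false q₁) e z).carrier := by
    rw [hD6]
    have e1 : (fun k => ((Function.update (fun k => (⟨v k, hvγ k⟩ : Iio γ)) 0 z k : Iio γ) : K2)) =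
        Function.update v 0 (z : K2) := by
      funext k
      by_cases hk : k = 0
      · subst hk
        simp
      · simp [Function.update_of_ne hk]
    rw [e1]
    exact ((mem_iffV.1 (h5 z)) q.s (hqp.1.trans hps)).symm
  rw [hψ, hWZ]
  -- membership in `Z` is membership in the set coded by `c`
  have hxγ' : (x : K2) < γ' := (mem_Iio.1 x.2).trans hγγ'
  have hzγ' : (z : K2) < γ' := hzγ.trans hγγ'
  have hEl : (z : K2) ∈ Z ↔ N'.El ⟨z, hzγ'⟩ ⟨c, hcγ'⟩ := by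
    rw [Decides.el_iff H hD']
    constructor
    · intro h6
      exact hG6.pos _ hzγ h6
    · intro h6
      by_contra hc
      exact not_mem_both h6 (hG6.neg _ hzγ hc)
  have hpr' : N'.pr (N'.num φ.code) ⟨x, hxγ'⟩ = ⟨z, hzγ'⟩ := by
    rw [Decides.pr_iff hD', hnum', ← hnum]
    exact hpr
  have hltb : N'.lt ⟨x, hxγ'⟩ ⟨b, hbγ'⟩ := by
    rw [Decides.lt_iff hD']
    exact hG6.bound _ x.2
  have h6 := (Decides.pp_iff H hD' φ ⟨c, hcγ'⟩ ⟨b, hbγ'⟩).1 (hG6.truth φ) ⟨x, hxγ'⟩ hltb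
  rw [hpr'] at h6
  rw [hEl, h6, H.cl _ N' φ _ _ hφ, hD', hD6]

theorem noKaufmann (H : PAFacts) (h2 : ∀ (D : Type) [Preorder D], IsClosed1 D → IsTreeLike D →
    ∀ (T : UData D) (d : D), ∃ d' ≤ d, T.HasBranch d') : NoKaufmann (RO Cond) := by
  intro M
  by_contra hne
  obtain ⟨s₀, h⟩ := RO.ne_bot hne
  obtain ⟨p₁, hp₁, bb, hB⟩ := exists_br H h2 h
  obtain ⟨p₂, hp₂, a, ha, e, β, he, hβ⟩ := exists_nonst h hp₁
  let q₀ : PCond Bool := ⟨p₂.s, fun _ => p₂.X (), fun _ => p₂.mem ()⟩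
  have hq₀ : ∀ i, PCond.coord i q₀ = p₂ := fun i => PCond.ext rfl rfl
  by_cases hc : ∀ m, m ∉ range a → m ≤ max β e → ∀ q ≤ q₀, ∃ r ≤ q, Dis M bb r m
  · exact no_case1 H h hp₁ hB hp₂ ha he hβ (fun i => (hq₀ i).le) hc
  · push Not at hc
    obtain ⟨m, hm, -, q₁, hq₁, hno⟩ := hc
    refine no_case2 H h hp₁ hB ha (q₁ := q₁) (fun i => ?_) hq₁.1 hm hno
    refine ((PCond.isProj_coord i).mono hq₁).trans ?_
    rw [hq₀ i]
    exact hp₂

end main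

end Pool.Agent.Helper84.Kauf
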