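import Pool.Agent.Helper84.Kauf.Inst
import Pool.Agent.Helper84.Kauf.Main2

set_option autoImplicit false

/-!
# PFA implies that there is a forcing extension with `ℵ₂`-Aronszajn trees and no `ℵ₂`-Kaufmann model
-/

open Cardinal Set
open Pool.Agent.Helper23.CK (RO)

namespace Pool.Agent.Helper84.Kauf

theorem final (hP : PFA) :
    IsDistributive (RO Cond) ∧ NoKaufmann (RO Cond) ∧ HasAronszajn (RO Cond) :=
  ⟨isDistributive, noKaufmann paFacts (f2 hP), hasAronszajn⟩

end Pool.Agent.Helper84.Kauf
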