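import Pool.Agent.Helper84.Kauf.Defs

set_option autoImplicit false

/-!
# Definitions for: PFA gives branches of names of trees
-/

open Cardinal Set

namespace Pool.Agent.Helper84.Kauf

/-- every nonempty chain of at most `ℵ₁` conditions has a lower bound -/
def IsClosed1 (D : Type) [Preorder D] : Prop :=
  ∀ C : Set D, C.Nonempty → IsChain (· ≤ ·) C → #C ≤ aleph 1 → ∃ d, ∀ c ∈ C, d ≤ c

/-- compatible conditions are comparable -/
def IsTreeLike (D : Type) [Preorder D] : Prop :=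
  ∀ a b c : D, c ≤ a → c ≤ b → a ≤ b ∨ b ≤ a

/-- nodes of the tree of all bounded subsets of `ω₂` -/
abbrev Nd : Type := K2 × Set K2

/-- `x` is a proper initial segment of `y` -/
def Nd.Lt (x y : Nd) : Prop := x.1 < y.1 ∧ x.2 = y.2 ∩ Iio x.1

/-- comparable nodes -/
def Nd.Comp (x y : Nd) : Prop := x = y ∨ Nd.Lt x y ∨ Nd.Lt y x

/-- a `D`-name for a subtree of height `ω₂` with levels of size at most `ℵ₁` of the tree of all
bounded subsets of `ω₂`; `U d α Z` means: `d` forces that `Z ⊆ α` belongs to level `α` -/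
structure UData (D : Type) [Preorder D] where
  U : D → K2 → Set K2 → Prop
  mono : ∀ d d' α Z, d' ≤ d → U d α Z → U d' α Z
  down : ∀ d α β Z, β ≤ α → U d α Z → U d β (Z ∩ Iio β)
  ne : ∀ d α, ∃ d' ≤ d, ∃ Z, U d' α Z
  small : ∀ d α, ∃ d' ≤ d, ∃ L : Set (Set K2), #L ≤ aleph 1 ∧ ∀ d'' ≤ d', ∀ Z, U d'' α Z → Z ∈ L

/-- there is a name `b` for a cofinal branch of `T` below `d`; `b d' α Z` means: `d'` forces that
`Z` is the element of the branch on level `α` -/
def UData.HasBranch {D : Type} [Preorder D] (T : UData D) (d : D) : Prop :=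
  ∃ b : D → K2 → Set K2 → Prop,
    (∀ d' α Z, b d' α Z → d' ≤ d ∧ T.U d' α Z) ∧
    (∀ d' d'' α Z, d'' ≤ d' → b d' α Z → b d'' α Z) ∧
    (∀ d' α β Z Z', β ≤ α → b d' α Z → b d' β Z' → Z' = Z ∩ Iio β) ∧
    ∀ d' ≤ d, ∀ α, ∃ d'' ≤ d', ∃ Z, b d'' α Z

section
variable {D : Type} [Preorder D]

/-- conditions of the product of `D` and the poset of countable increasing sequences of ordinals
below `ω₂` (only the values `h j` for `j < i` matter) -/
structure ECond (D : Type) [Preorder D] where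
  d : D
  i : K1
  h : K1 → K2
  smono : ∀ j < i, ∀ k < i, j < k → h j < h k

instance : Preorder (ECond D) where
  le e' e := e'.d ≤ e.d ∧ e.i ≤ e'.i ∧ ∀ j < e.i, e'.h j = e.h j
  le_refl e := ⟨le_rfl, le_rfl, fun _ _ => rfl⟩
  le_trans a b c h h' := ⟨h.1.trans h'.1, h'.2.1.trans h.2.1, fun j hj =>
    (h.2.2 j (hj.trans_le h'.2.1)).trans (h'.2.2 j hj)⟩

/-- conditions: a condition of `ECond D` and a finite function `f` which maps nodes to natural
numbers, such that comparable nodes have different values -/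
structure RCond (T : UData D) extends ECond D where
  f : Finset (Nd × ℕ)
  node : ∀ p ∈ f, (∃ j < i, p.1.1 = h j) ∧ T.U d p.1.1 p.1.2
  func : ∀ p ∈ f, ∀ q ∈ f, p.1 = q.1 → p.2 = q.2
  col : ∀ p ∈ f, ∀ q ∈ f, Nd.Lt p.1 q.1 → p.2 ≠ q.2

instance (T : UData D) : Preorder (RCond T) where
  le r' r := r'.toECond ≤ r.toECond ∧ r.f ⊆ r'.f
  le_refl r := ⟨le_rfl, subset_rfl⟩
  le_trans _ _ _ h h' := ⟨h.1.trans h'.1, h'.2.trans h.2⟩

/-- `q` extends `f₀` by exactly `n` new pairs -/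
def RCond.Ext {T : UData D} (q : RCond T) (f₀ : Finset (Nd × ℕ)) (n : ℕ) : Prop :=
  f₀ ⊆ q.f ∧ (q.f \ f₀).card = n

/-- `s` is a solution for `Q`: to every `q ∈ Q` it assigns a new node and a number `j < m` in such a
way that the nodes with the same number are pairwise comparable -/
def Solves {T : UData D} (f₀ : Finset (Nd × ℕ)) (m : ℕ) (Q : Set (RCond T))
    (s : RCond T → Nd × Fin m) : Prop :=
  (∀ q ∈ Q, ∃ p ∈ q.f \ f₀, p.1 = (s q).1) ∧
    ∀ q ∈ Q, ∀ q' ∈ Q, (s q).2 = (s q').2 → Nd.Comp (s q).1 (s q').1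

/-- the statement of the main lemma -/
def MainLemma (T : UData D) : Prop :=
  ∀ (X : Set (RCond T)) (f₀ : Finset (Nd × ℕ)) (n m : ℕ) (e : ECond D), ∃ e' ≤ e,
    (∃ A : Set Nd, A.Countable ∧ ∀ q ∈ X, q.Ext f₀ n → q.toECond ≤ e' → ∃ p ∈ q.f \ f₀, p.1 ∈ A) ∨
    (∃ Q : Set (RCond T), Q.Finite ∧ (∀ q ∈ Q, q ∈ X ∧ q.Ext f₀ n ∧ e' ≤ q.toECond) ∧
      ¬ ∃ s : RCond T → Nd × Fin m, Solves f₀ m Q s)

end

/-- main lemma (F1) -/
def F1Statement : Prop :=
  ∀ (D : Type) [Preorder D], IsClosed1 D → IsTreeLike D → aleph 1 < #(ℕ → Bool) →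
    ∀ T : UData D, (∀ d, ¬ T.HasBranch d) → MainLemma T

/-- branches from PFA (F2) -/
def F2Statement : Prop :=
  PFA → ∀ (D : Type) [Preorder D], IsClosed1 D → IsTreeLike D → ∀ (T : UData D) (d : D),
    ∃ d' ≤ d, T.HasBranch d'

end Pool.Agent.Helper84.Kauf
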