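import Pool.Agent.Helper84.Kauf.Syn
import Pool.Agent.Helper84.Kauf.PfaDefs

set_option autoImplicit false

/-!
# Closed forcing: distributivity; congruence lemmas for Boolean-valued structures
-/

open Cardinal Set
open Pool.Agent.Helper23.CK (RO)

namespace Pool.Agent.Helper84.Kauf

/-! ## Cardinal arithmetic -/

theorem mk_K1 : #K1 = aleph 1 := by simp [K1]

theorem mk_K2 : #K2 = aleph 2 := by simp [K2]

theorem aleph_two : (aleph 2 : Cardinal.{0}) = Order.succ (aleph 1) := by
  rw [Cardinal.succ_aleph]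
  congr 1
  norm_num

theorem mk_Iio_K2 (γ : K2) : #(Iio γ) ≤ aleph 1 := by
  have h : #(Iio γ) < aleph 2 := Cardinal.mk_Iio_toType_ord_lt (c := aleph 2) γ
  have h3 : #(Iio γ) < Order.succ (aleph 1) := aleph_two ▸ h
  exact Order.lt_succ_iff.1 h3

theorem mk_Iio_K1 (γ : K1) : (Iio γ).Countable := by
  have h : #(Iio γ) < aleph 1 := Cardinal.mk_Iio_toType_ord_lt (c := aleph 1) γ
  have h3 : #(Iio γ) < Order.succ ℵ₀ := by
    have : (aleph 1 : Cardinal.{0}) = Order.succ ℵ₀ := by
      rw [← aleph_zero, Cardinal.succ_aleph]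
      congr 1
      norm_num
    exact this ▸ h
  exact (mk_le_aleph0_iff (α := Iio γ)).1 (Order.lt_succ_iff.1 h3)

theorem mk_Iic_K2 (γ : K2) : #(Iic γ) ≤ aleph 1 := by
  rw [← Iio_insert]
  refine (mk_insert_le).trans ?_
  exact (add_le_add (mk_Iio_K2 γ) (one_le_aleph0.trans (aleph0_le_aleph 1))).trans
    (add_eq_self (aleph0_le_aleph 1)).le

/-- families of at most `ℵ₁` ordinals below `ω₂` are bounded -/
theorem exists_bound {I : Type} (hI : #I ≤ aleph 1) (f : I → K2) : ∃ γ, ∀ i, f i < γ := by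
  by_contra hc
  push Not at hc
  have h1 : (univ : Set K2) ⊆ ⋃ i, Iic (f i) := fun γ _ => by
    obtain ⟨i, hi⟩ := hc γ
    exact mem_iUnion.2 ⟨i, hi⟩
  have h2 : #K2 ≤ aleph 1 := by
    rw [← mk_univ]
    refine (mk_le_mk_of_subset h1).trans ((mk_iUnion_le _).trans ?_)
    refine (mul_le_mul' hI (ciSup_le' fun i => mk_Iic_K2 (f i))).trans ?_
    exact (mul_eq_self (aleph0_le_aleph 1)).le
  rw [mk_K2, aleph_two] at h2
  exact (Order.succ_le_iff.1 h2).false

theorem exists_bound_set {X : Set K2} (hX : #X ≤ aleph 1) : ∃ γ, ∀ x ∈ X, x < γ := by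
  obtain ⟨γ, h⟩ := exists_bound hX (fun x : X => (x : K2))
  exact ⟨γ, fun x hx => h ⟨x, hx⟩⟩

theorem exists_gt_K2 (γ : K2) : ∃ δ, γ < δ := by
  obtain ⟨δ, h⟩ := exists_bound (I := Unit) (by simpa using (one_le_aleph0.trans (aleph0_le_aleph 1))) (fun _ => γ)
  exact ⟨δ, h ()⟩

/-- countable families of countable ordinals are bounded -/
theorem exists_bound1 {I : Type} [Countable I] (f : I → K1) : ∃ γ, ∀ i, f i < γ := by
  by_contra hc
  push Not at hc
  have h1 : (univ : Set K1) ⊆ ⋃ i, Iic (f i) := fun γ _ => by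
    obtain ⟨i, hi⟩ := hc γ
    exact mem_iUnion.2 ⟨i, hi⟩
  have h2 : (⋃ i, Iic (f i)).Countable := countable_iUnion fun i => by
    rw [← Iio_insert]
    exact (mk_Iio_K1 _).insert _
  have h3 : #K1 ≤ ℵ₀ := by
    rw [← mk_univ]
    exact mk_le_aleph0_iff.2 (h2.mono h1)
  rw [mk_K1] at h3
  exact (aleph0_lt_aleph_one.not_ge h3)

theorem countable_le_aleph1 {I : Type} [Countable I] : #I ≤ aleph 1 :=
  (mk_le_aleph0 (α := I)).trans (aleph0_le_aleph 1)

instance : Nonempty K2 := by
  have : #K2 ≠ 0 := by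
    rw [mk_K2]
    exact (aleph0_pos.trans_le (aleph0_le_aleph 2)).ne'
  exact mk_ne_zero_iff.1 this

instance : Nonempty K1 := by
  have : #K1 ≠ 0 := by
    rw [mk_K1]
    exact (aleph0_pos.trans_le (aleph0_le_aleph 1)).ne'
  exact mk_ne_zero_iff.1 this

/-! ## Distributivity of closed forcing -/

section closed

variable {P : Type} [Preorder P]

theorem IsClosed1.seq (hcl : IsClosed1 P) (p : ℕ → P) (hp : ∀ n, p (n + 1) ≤ p n) :
    ∃ q, ∀ n, q ≤ p n := by
  have hanti : Antitone p := antitone_nat_of_succ_le hp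
  obtain ⟨q, hq⟩ := hcl (range p) ⟨p 0, mem_range_self 0⟩ (by
    rintro _ ⟨i, rfl⟩ _ ⟨j, rfl⟩ _
    rcases le_total i j with h | h
    · exact Or.inr (hanti h)
    · exact Or.inl (hanti h)) (by
    haveI : Countable (range p) := (countable_range p).to_subtype
    exact countable_le_aleph1)
  exact ⟨q, fun n => hq _ (mem_range_self n)⟩

/-- the intersection of `ℵ₁` open sets which are dense below `p` is dense below `p` -/
theorem IsClosed1.dist (hcl : IsClosed1 P) {I : Type} (hI : #I ≤ aleph 1) (D : I → Set P)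
    (hopen : ∀ i p q, q ≤ p → p ∈ D i → q ∈ D i) (p : P)
    (hdense : ∀ i, ∀ q ≤ p, ∃ r ≤ q, r ∈ D i) : ∃ q ≤ p, ∀ i, q ∈ D i := by
  classical
  let R : I → I → Prop := WellOrderingRel
  have hwf : WellFounded R := WellOrderingRel.isWellOrder.wf
  let F : (i : I) → ((j : I) → R j i → P) → P := fun i f =>
    if h : ∃ r, (∀ j (hj : R j i), r ≤ f j hj) ∧ r ≤ p ∧ r ∈ D i then h.choose else p
  let f : I → P := hwf.fix F
  have hf : ∀ i, f i = F i (fun j _ => f j) := fun i => hwf.fix_eq F i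
  have key : ∀ i, (∀ j, R j i → f i ≤ f j) ∧ f i ≤ p ∧ f i ∈ D i := by
    intro i
    induction i using hwf.induction with
    | _ i ih =>
      have hex : ∃ r, (∀ j (_ : R j i), r ≤ f j) ∧ r ≤ p ∧ r ∈ D i := by
        obtain ⟨d, hd⟩ := hcl (insert p {x | ∃ j, R j i ∧ x = f j}) ⟨p, mem_insert _ _⟩ (by
          rintro x (rfl | ⟨j, hj, rfl⟩) y (rfl | ⟨k, hk, rfl⟩) hxy
          · exact (hxy rfl).elim
          · exact Or.inr (ih k hk).2.1
          · exact Or.inl (ih j hj).2.1
          · rcases trichotomous_of R j k with h | h | h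
            · exact Or.inr ((ih k hk).1 j h)
            · subst h
              exact (hxy rfl).elim
            · exact Or.inl ((ih j hj).1 k h)) (by
          refine mk_insert_le.trans ?_
          have h1 : #{x | ∃ j, R j i ∧ x = f j} ≤ #I := by
            refine (mk_le_mk_of_subset (t := range f) ?_).trans mk_range_le
            rintro x ⟨j, _, rfl⟩
            exact mem_range_self j
          exact (add_le_add (h1.trans hI) (one_le_aleph0.trans (aleph0_le_aleph 1))).trans
            (add_eq_self (aleph0_le_aleph 1)).le)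
        obtain ⟨r, hr, hr'⟩ := hdense i d (hd p (mem_insert _ _))
        exact ⟨r, fun j hj => hr.trans (hd _ (Or.inr ⟨j, hj, rfl⟩)),
          hr.trans (hd p (mem_insert _ _)), hr'⟩
      have h2 : f i = hex.choose := by
        rw [hf]
        show (if h : _ then _ else _) = _
        rw [dif_pos hex]
      rw [h2]
      exact hex.choose_spec
  obtain ⟨q, hq⟩ := hcl (insert p (range f)) ⟨p, mem_insert _ _⟩ (by
    rintro x (rfl | ⟨j, rfl⟩) y (rfl | ⟨k, rfl⟩) hxy
    · exact (hxy rfl).elim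
    · exact Or.inr (key k).2.1
    · exact Or.inl (key j).2.1
    · rcases trichotomous_of R j k with h | h | h
      · exact Or.inr ((key k).1 j h)
      · subst h
        exact (hxy rfl).elim
      · exact Or.inl ((key j).1 k h)) (by
    refine mk_insert_le.trans ?_
    exact (add_le_add (mk_range_le.trans hI) (one_le_aleph0.trans (aleph0_le_aleph 1))).trans
      (add_eq_self (aleph0_le_aleph 1)).le)
  exact ⟨q, hq p (mem_insert _ _), fun i => hopen i _ _ (hq _ (Or.inr (mem_range_self i))) (key i).2.2⟩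

/-- at most `ℵ₁` truth values can be decided at once -/
theorem IsClosed1.decide (hcl : IsClosed1 P) {I : Type} (hI : #I ≤ aleph 1) (b : I → RO P) (p : P) :
    ∃ q ≤ p, ∀ i, q ∈ (b i).carrier ∨ q ∈ ((b i)ᶜ).carrier :=
  hcl.dist hI (fun i => {q | q ∈ (b i).carrier ∨ q ∈ ((b i)ᶜ).carrier})
    (fun i _ _ h h' => h'.imp (RO.lower _ h) (RO.lower _ h)) p
    (fun i q _ => RO.decide (b i) q)

end closed

end Pool.Agent.Helper84.Kauf
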