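import Pool.Agent.Helper84.Kauf.PANum

set_option autoImplicit false

/-!
# Facts on models of Peano arithmetic (module A)

`Fm.sat_congr` (A1), `Fm.sat_el` (A2) are in `PADef`; here: `Fm.sat_pp` (A3), order facts (A4),
`NStr.PA.exists_codes` (A5), `NStr.PA.bounded_codes` (A6), `NStr.PA.overspill` (A7),
`NStr.PA.tarski` (A8), `Fm.bd`, `Fm.fv_bd`, `Fm.sat_bd` (A9).
-/

open Function

namespace Pool.Agent.Helper84.Kauf

variable {A : Type}

/-- reduction to the case of an ordered semiring -/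
theorem NStr.PA.transfer {N : NStr A} (hN : N.PA) {C : NStr A → Prop}
    (H : ∀ [CommSemiring A] [LinearOrder A] [IsStrictOrderedRing A] [CanonicallyOrderedAdd A],
      (sN A).PA → C (sN A)) : C N := by
  letI : Zero A := ⟨N.zero⟩
  letI : One A := ⟨N.one⟩
  letI : Add A := ⟨N.add⟩
  letI : Mul A := ⟨N.mul⟩
  letI : LT A := ⟨N.lt⟩
  have h : (sN A).PA := hN
  letI i1 := paSemiring h
  have h' : (sN A).PA := hN
  letI i2 := paOrder h'
  have h'' : (sN A).PA := hN
  obtain ⟨i3, i4⟩ := pa_ordered h''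
  exact H h''

/-- A3 -/
theorem Fm.sat_pp (N : NStr A) (n : ℕ) (φ : Fm) (hφ : (Fm.cl n φ).fv ⊆ {0}) (v : ℕ → A) :
    (Fm.pp n φ).sat N v ↔ ∀ x, N.lt x (v 1) →
      (N.El (N.pr (N.num n) x) (v 0) ↔ (Fm.cl n φ).sat N (fun _ => x)) := by
  simp only [Fm.pp, Fm.sat_all, Fm.sat_imp, Fm.sat_iff, Fm.sat_lt, Fm.sat_eq, Tm.ev]
  apply forall_congr'
  intro x
  rw [Fm.sat_el]
  · have h1 : (∀ a, update (update v 2 x) 0 a 0 = update (update v 2 x) 0 a 2 →
        (Fm.cl n φ).sat N (update (update v 2 x) 0 a)) ↔ (Fm.cl n φ).sat N (fun _ => x) := by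
      have h2 : ∀ a, update (update v 2 x) 0 a 0 = update (update v 2 x) 0 a 2 ↔ a = x := by
        intro a
        rw [update_self, update_of_ne (by decide), update_self]
      simp only [h2, forall_eq]
      apply Fm.sat_congr
      intro k hk
      have := hφ hk
      rw [Finset.mem_singleton] at this
      subst this
      simp
    rw [h1]
    simp [Tm.ev]
  · intro j hj
    rw [Tm.vars_pr, Tm.vars_num] at hj
    simp [Tm.vars] at hj
    omega
  · intro j hj
    simp [Tm.vars] at hj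
    omega

/-! ## A4 -/

section A4
variable {N : NStr A} (hN : N.PA)
include hN

theorem NStr.PA.lt_irrefl (x : A) : ¬ N.lt x x :=
  hN.transfer (C := fun N => ¬ N.lt x x) fun _ => _root_.lt_irrefl x

theorem NStr.PA.lt_trans {x y z : A} (h1 : N.lt x y) (h2 : N.lt y z) : N.lt x z :=
  hN.transfer (C := fun N => N.lt x y → N.lt y z → N.lt x z) (fun _ => _root_.lt_trans) h1 h2

theorem NStr.PA.lt_tri (x y : A) : N.lt x y ∨ x = y ∨ N.lt y x :=
  hN.transfer (C := fun N => N.lt x y ∨ x = y ∨ N.lt y x) fun _ => lt_trichotomy x y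

theorem NStr.PA.not_lt_zero (x : A) : ¬ N.lt x N.zero :=
  hN.transfer (C := fun N => ¬ N.lt x N.zero) fun _ => by
    show ¬ x < 0
    exact _root_.not_lt_zero

theorem NStr.PA.zero_or_pos (x : A) : x = N.zero ∨ N.lt N.zero x := by
  rcases hN.lt_tri x N.zero with h | h | h
  · exact absurd h (hN.not_lt_zero x)
  · exact Or.inl h
  · exact Or.inr h

theorem NStr.PA.le_pr_right (x y : A) : N.lt x (N.pr y x) ∨ x = N.pr y x :=
  hN.transfer (C := fun N => N.lt x (N.pr y x) ∨ x = N.pr y x) fun h =>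
    (pa_le_pr_right h x y).lt_or_eq

theorem NStr.PA.le_pr_left (x y : A) : N.lt x (N.pr x y) ∨ x = N.pr x y :=
  hN.transfer (C := fun N => N.lt x (N.pr x y) ∨ x = N.pr x y) fun h =>
    (pa_le_pr_left h x y).lt_or_eq

theorem NStr.PA.pr_inj {x y x' y' : A} (he : N.pr x y = N.pr x' y') : x = x' ∧ y = y' :=
  hN.transfer (C := fun N => N.pr x y = N.pr x' y' → x = x' ∧ y = y')
    (fun h he => pa_pr_inj h he) he

theorem NStr.PA.lt_succ_iff (x y : A) : N.lt x (N.add y N.one) ↔ N.lt x y ∨ x = y :=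
  hN.transfer (C := fun N => N.lt x (N.add y N.one) ↔ N.lt x y ∨ x = y) fun h =>
    (pa_lt_succ_iff h).trans le_iff_lt_or_eq

theorem NStr.PA.num_lt_iff (n m : ℕ) : N.lt (N.num n) (N.num m) ↔ n < m :=
  hN.transfer (C := fun N => N.lt (N.num n) (N.num m) ↔ n < m) fun h => by
    rw [pa_num h, pa_num h]
    exact Nat.cast_lt

theorem NStr.PA.num_inj {n m : ℕ} (he : N.num n = N.num m) : n = m := by
  rcases lt_trichotomy n m with h | h | h
  · exact absurd ((hN.num_lt_iff n m).2 h) (he ▸ hN.lt_irrefl _)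
  · exact h
  · exact absurd ((hN.num_lt_iff m n).2 h) (he ▸ hN.lt_irrefl _)

/-- the elements below a standard number are standard -/
theorem NStr.PA.lt_num {x : A} {n : ℕ} (hx : N.lt x (N.num n)) : ∃ m < n, x = N.num m :=
  hN.transfer (C := fun N => N.lt x (N.num n) → ∃ m < n, x = N.num m) (fun h hx => by
    rw [pa_num h] at hx
    obtain ⟨m, hm, hx⟩ := pa_lt_num h hx
    exact ⟨m, hm, by rw [pa_num h, hx]⟩) hx

/-- nonstandard elements are above the standard ones -/
theorem NStr.PA.num_lt_nonst {e : A} (he : ∀ n, e ≠ N.num n) (n : ℕ) : N.lt (N.num n) e := by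
  rcases hN.lt_tri (N.num n) e with h | h | h
  · exact h
  · exact absurd h.symm (he n)
  · obtain ⟨m, -, hm⟩ := hN.lt_num h
    exact absurd hm (he m)

end A4

/-- every bounded set which is definable with parameters has a code -/
theorem NStr.PA.exists_code {N : NStr A} (hN : N.PA) (a : A) {ψ : A → Prop}
    (hψ : DP N (fun v => ψ (v 0))) : ∃ c, ∀ i, N.lt i a → (N.El i c ↔ ψ i) :=
  hN.transfer (C := fun N => DP N (fun v => ψ (v 0)) → ∃ c, ∀ i, N.lt i a → (N.El i c ↔ ψ i))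
    (fun h hψ => pa_exists_code h a hψ) hψ

/-- A5 (list version) -/
theorem NStr.PA.exists_codes {N : NStr A} (hN : N.PA) (F : List (ℕ × Fm))
    (hF : ∀ p ∈ F, (Fm.cl p.1 p.2).fv ⊆ {0}) (hd : ∀ p ∈ F, ∀ q ∈ F, p.1 = q.1 → p = q)
    (v : ℕ → A) : ∃ c, ∀ p ∈ F, (Fm.pp p.1 p.2).sat N (update v 0 c) := by
  -- a bound
  have hb : ∃ a, ∀ p ∈ F, ∀ x, N.lt x (v 1) → N.lt (N.pr (N.num p.1) x) a := by
    clear hF hd
    induction F with
    | nil => exact ⟨N.zero, fun p hp => by simp at hp⟩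
    | cons p F ih =>
      obtain ⟨a, ha⟩ := ih
      have h1 : ∃ a', (∀ x, N.lt x a → N.lt x a') ∧
          ∀ x, N.lt x (v 1) → N.lt (N.pr (N.num p.1) x) a' := by
        have hT := hN.transfer (C := fun N => ∀ a b : A, ∃ a', (∀ x, N.lt x a → N.lt x a') ∧
          ∀ x, N.lt x b → N.lt (N.pr (N.num p.1) x) a') (fun h a b => by
            refine ⟨a + (sN A).pr ((sN A).num p.1) b + 1, fun x hx => ?_, fun x hx => ?_⟩
            · exact lt_of_lt_of_le hx (le_self_add.trans le_self_add)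
            · refine (pa_lt_succ_iff h).2 ((pa_pr_le h le_rfl (le_of_lt hx)).trans le_add_self))
        exact hT a (v 1)
      obtain ⟨a', h2, h3⟩ := h1
      refine ⟨a', fun q hq x hx => ?_⟩
      rcases List.mem_cons.1 hq with rfl | hq
      · exact h3 x hx
      · exact h2 _ (ha q hq x hx)
  obtain ⟨a, ha⟩ := hb
  obtain ⟨c, hc⟩ := hN.exists_code a (ψ := fun z => ∃ p ∈ F, ∃ x, N.lt x (v 1) ∧
      z = N.pr (N.num p.1) x ∧ (Fm.cl p.1 p.2).sat N (fun _ => x)) (by
    apply DP.list_ex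
    intro p _
    apply DP.ex
    apply DP.and (DP.lt (DT.var _) (DT.const _))
    apply DP.and (DP.eq (DT.var _) (DT.pr (DT.const _) (DT.var _)))
    exact DP.sat_const _ (DT.var _))
  refine ⟨c, fun p hp => ?_⟩
  rw [Fm.sat_pp N _ _ (hF p hp)]
  intro x hx
  rw [update_of_ne (by decide)] at hx
  rw [update_self, hc _ (ha p hp x hx)]
  constructor
  · rintro ⟨q, hq, y, hy, he, hs⟩
    obtain ⟨h1, rfl⟩ := hN.pr_inj he
    rw [hd p hp q hq (hN.num_inj h1)]
    exact hs
  · intro hs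
    exact ⟨p, hp, x, hx, rfl, hs⟩

/-- A5 (finset version) -/
theorem NStr.PA.exists_codes' {N : NStr A} (hN : N.PA) (F : Finset (ℕ × Fm))
    (hF : ∀ p ∈ F, (Fm.cl p.1 p.2).fv ⊆ {0}) (hd : ∀ p ∈ F, ∀ q ∈ F, p.1 = q.1 → p = q)
    (v : ℕ → A) : ∃ c, ∀ p ∈ F, (Fm.pp p.1 p.2).sat N (update v 0 c) := by
  obtain ⟨c, hc⟩ := hN.exists_codes F.toList (fun p hp => hF p (Finset.mem_toList.1 hp))
    (fun p hp q hq => hd p (Finset.mem_toList.1 hp) q (Finset.mem_toList.1 hq)) v
  exact ⟨c, fun p hp => hc p (Finset.mem_toList.2 hp)⟩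

/-- A6 -/
theorem NStr.PA.bounded_codes {N : NStr A} (hN : N.PA) (b : A) : ∃ d, ∀ c, ∃ c', N.lt c' d ∧
    ∀ x, N.lt x b → (N.El x c' ↔ N.El x c) :=
  hN.transfer (C := fun N => ∃ d, ∀ c, ∃ c', N.lt c' d ∧
    ∀ x, N.lt x b → (N.El x c' ↔ N.El x c)) fun h => pa_bounded h b

/-- general overspill -/
theorem NStr.PA.overspill' {N : NStr A} (hN : N.PA) {P : A → Prop}
    (hP : DP N (fun v => P (v 0))) {e : A} (he : ∀ n, e ≠ N.num n) (hst : ∀ n, P (N.num n)) :
    ∃ m, (N.lt m e ∨ m = e) ∧ (∀ n, m ≠ N.num n) ∧ P m :=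
  hN.transfer (C := fun N => DP N (fun v => P (v 0)) → (∀ n, e ≠ N.num n) →
    (∀ n, P (N.num n)) → ∃ m, (N.lt m e ∨ m = e) ∧ (∀ n, m ≠ N.num n) ∧ P m)
    (fun h hP he hst => by
      simp only [pa_num h] at he hst ⊢
      obtain ⟨m, h1, h2, h3⟩ := pa_overspill h hP he hst
      exact ⟨m, h1.lt_or_eq, h2, h3⟩) hP he hst

/-- A7 -/
theorem NStr.PA.overspill {N : NStr A} (hN : N.PA) (c c' b e : A) (he : ∀ n, e ≠ N.num n)
    (hst : ∀ n : ℕ, ∀ x, N.lt x b → (N.El (N.pr (N.num n) x) c ↔ N.El (N.pr (N.num n) x) c')) :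
    ∃ m, (N.lt m e ∨ m = e) ∧ (∀ n, m ≠ N.num n) ∧ ∀ n, N.lt n m → ∀ x, N.lt x b →
      (N.El (N.pr n x) c ↔ N.El (N.pr n x) c') := by
  apply hN.overspill' (P := fun m => ∀ n, N.lt n m → ∀ x, N.lt x b →
    (N.El (N.pr n x) c ↔ N.El (N.pr n x) c')) _ he
  · intro n m hm x hx
    obtain ⟨k, -, rfl⟩ := hN.lt_num hm
    exact hst k x hx
  · apply DP.all
    apply DP.imp (DP.lt (DT.var _) (DT.var _))
    apply DP.all
    apply DP.imp (DP.lt (DT.var _) (DT.const _))
    exact DP.iff (DP.El (DT.pr (DT.var _) (DT.var _)) (DT.const _))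
      (DP.El (DT.pr (DT.var _) (DT.var _)) (DT.const _))

/-! ## A8 -/

lemma Fm.fv_cl (n : ℕ) (φ : Fm) : (Fm.cl n φ).fv = φ.fv.filter (fun k => k = 0 ∨ n < k) := by
  induction n with
  | zero =>
    ext k
    simp only [Fm.cl, Finset.mem_filter]
    exact ⟨fun hk => ⟨hk, k.eq_zero_or_pos⟩, fun hk => hk.1⟩
  | succ n ih =>
    ext k
    simp only [Fm.cl, Fm.fv, ih, Finset.mem_erase, Finset.mem_filter]
    constructor
    · rintro ⟨h1, h2, h3⟩
      exact ⟨h2, by omega⟩
    · rintro ⟨h2, h3⟩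
      exact ⟨by omega, h2, by omega⟩

lemma Fm.sat_cl (N : NStr A) (n : ℕ) (φ : Fm) (v : ℕ → A) :
    (Fm.cl n φ).sat N v ↔ ∀ w : ℕ → A, (∀ k, k = 0 ∨ n < k → w k = v k) → φ.sat N w := by
  induction n generalizing v with
  | zero =>
    simp only [Fm.cl]
    constructor
    · intro hφ w hw
      have : w = v := by
        funext k
        exact hw k k.eq_zero_or_pos
      rwa [this]
    · intro hφ
      exact hφ v fun _ _ => rfl
  | succ n ih =>
    simp only [Fm.cl, Fm.sat_all, ih]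
    constructor
    · intro hφ w hw
      apply hφ (w (n + 1)) w
      intro k hk
      by_cases hkn : k = n + 1
      · subst hkn; simp
      · rw [update_of_ne hkn]
        exact hw k (by omega)
    · intro hφ a w hw
      apply hφ w
      intro k hk
      rw [hw k (by omega), update_of_ne (by omega)]

/-- a code of the finite sequence `w 1, ..., w n` -/
def NStr.seqCode (N : NStr A) : ℕ → (ℕ → A) → A
  | 0, _ => N.zero
  | n + 1, w => N.pr (w (n + 1)) (N.seqCode n w)

lemma Dft.seqCode (N : NStr A) (n : ℕ) : Dft N (fun w => N.seqCode n w) := by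
  induction n with
  | zero => exact Dft.zero
  | succ n ih => exact Dft.pr (Dft.var _) ih

lemma NStr.PA.seqCode_inj {N : NStr A} (hN : N.PA) {n : ℕ} {w w' : ℕ → A}
    (he : N.seqCode n w = N.seqCode n w') : ∀ k, 0 < k → k ≤ n → w k = w' k := by
  induction n with
  | zero => intro k h1 h2; omega
  | succ n ih =>
    obtain ⟨h1, h2⟩ := hN.pr_inj he
    intro k hk hkn
    by_cases hk' : k = n + 1
    · subst hk'; exact h1
    · exact ih h2 k hk (by omega)

lemma NStr.seqCode_congr (N : NStr A) {n : ℕ} {w w' : ℕ → A}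
    (he : ∀ k, 0 < k → k ≤ n → w k = w' k) : N.seqCode n w = N.seqCode n w' := by
  induction n with
  | zero => rfl
  | succ n ih =>
    show N.pr _ _ = N.pr _ _
    rw [he (n + 1) (by omega) le_rfl, ih fun k h1 h2 => he k h1 (by omega)]

lemma Dfv.subst {N : NStr A} (ψ : Fm) {f : (ℕ → A) → A} (hf : Dft N f) :
    Dfv N (fun w => ψ.sat N (update w 0 (f w))) := by
  obtain ⟨t, ht⟩ := hf
  obtain ⟨t', ht'⟩ := t.exists_rename N (fun k => k + 1)
  obtain ⟨ψ', hψ'⟩ := ψ.exists_rename N (fun k => if k = 0 then 0 else k + 1)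
  have h1 : Dfv N (fun w => ∀ a, a = f w → ψ.sat N (update w 0 a)) := by
    apply Dfv.all
    apply Dfv.imp
    · apply Dfv.eq (Dft.var 0)
      refine ⟨t', fun v => ?_⟩
      rw [ht', ← ht]
      rfl
    · refine ⟨ψ', fun v => ?_⟩
      beta_reduce
      rw [hψ']
      have : v ∘ (fun k => if k = 0 then 0 else k + 1) = update (fun k => v (k + 1)) 0 (v 0) := by
        funext k
        by_cases hk : k = 0
        · subst hk; simp
        · simp [hk]
      rw [this]
  exact h1.congr fun v => by simp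

/-- A8: undefinability of truth -/
theorem NStr.PA.tarski {N : NStr A} (hN : N.PA) (ψ : Fm) (v : ℕ → A) :
    ¬ ∀ φ : Fm, φ.fv ⊆ {0} → ∀ x, (ψ.sat N (update v 0 (N.pr (N.num φ.code) x)) ↔
      φ.sat N (fun _ => x)) := by
  intro hT
  obtain ⟨n, hn⟩ := ψ.fv.exists_nat_subset_range
  -- the variable `n + 1` is for the code, `n + 2` for the sequence
  have h1 : Dfv N (fun w => w 0 = N.pr (w (n + 1)) (w (n + 2)) → w (n + 2) = N.seqCode n w →
      ψ.sat N (update w 0 (N.pr (w (n + 1)) (w 0)))) :=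
    (Dfv.eq (Dft.var _) (Dft.pr (Dft.var _) (Dft.var _))).imp
      ((Dfv.eq (Dft.var _) (Dft.seqCode N n)).imp
        (Dfv.subst ψ (Dft.pr (Dft.var _) (Dft.var _))))
  obtain ⟨θ, hθ⟩ := h1
  obtain ⟨m, hm⟩ := (θ.fv ∪ Finset.range (n + 3)).exists_nat_subset_range
  have hnm : n + 2 < m := Finset.mem_range.1 (hm (Finset.mem_union_right _ (by simp)))
  let χ : Fm := (Fm.cl m θ).neg
  have hχ : χ.fv ⊆ {0} := by
    intro k hk
    have hk' : k ∈ (Fm.cl m θ).fv := by
      simpa [χ, Fm.neg, Fm.fv] using hk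
    rw [Fm.fv_cl, Finset.mem_filter] at hk'
    rcases hk'.2 with h2 | h2
    · simp [h2]
    · have := Finset.mem_range.1 (hm (Finset.mem_union_left _ hk'.1))
      omega
  let x : A := N.pr (N.num χ.code) (N.seqCode n v)
  have hkey : χ.sat N (fun _ => x) ↔ ¬ ψ.sat N (update v 0 (N.pr (N.num χ.code) x)) := by
    show ¬ (Fm.cl m θ).sat N _ ↔ _
    rw [not_iff_not, Fm.sat_cl]
    constructor
    · intro hw
      let w : ℕ → A := fun k => if k = 0 then x else if k ≤ n then v k else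
        if k = n + 1 then N.num χ.code else if k = n + 2 then N.seqCode n v else x
      have hw1 := hw w (by
        intro k hk
        rcases hk with rfl | hk
        · simp [w]
        · have e1 : k ≠ 0 := by omega
          have e2 : ¬ k ≤ n := by omega
          have e3 : k ≠ n + 1 := by omega
          have e4 : k ≠ n + 2 := by omega
          simp [w, e1, e2, e3, e4])
      rw [← hθ] at hw1
      have e0 : w 0 = x := by simp [w]
      have e1 : w (n + 1) = N.num χ.code := by simp [w]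
      have e2 : w (n + 2) = N.seqCode n v := by simp [w]
      have e3 : N.seqCode n w = N.seqCode n v := by
        apply N.seqCode_congr
        intro k hk hkn
        have : k ≠ 0 := by omega
        simp [w, this, hkn]
      rw [e0, e1, e2, e3] at hw1
      have hw2 := hw1 rfl rfl
      refine (ψ.sat_congr N ?_).1 hw2
      intro k hk
      have hkn := Finset.mem_range.1 (hn hk)
      by_cases hk0 : k = 0
      · subst hk0; simp
      · rw [update_of_ne hk0, update_of_ne hk0]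
        have : k ≤ n := by omega
        simp [w, hk0, this]
    · intro hψ w hw
      rw [← hθ]
      intro h2 h3
      have e0 : w 0 = x := hw 0 (Or.inl rfl)
      rw [e0] at h2 ⊢
      obtain ⟨e1, e2⟩ := hN.pr_inj h2
      rw [← e1]
      rw [← e2] at h3
      have e4 := hN.seqCode_inj h3
      refine (ψ.sat_congr N ?_).1 hψ
      intro k hk
      have hkn := Finset.mem_range.1 (hn hk)
      by_cases hk0 : k = 0
      · subst hk0; simp
      · rw [update_of_ne hk0, update_of_ne hk0]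
        exact e4 k (by omega) (by omega)
  have h5 := hT χ hχ x
  rw [hkey] at h5
  tauto

/-! ## A9 -/

/-- the formula `∀ c, ∃ c' < v_2, ∀ x < v_1, (x ∈ c' ↔ x ∈ c)` -/
def Fm.bd : Fm :=
  Fm.all 3 (Fm.ex 4 ((Fm.lt (.var 4) (.var 2)).and (Fm.all 5 (Fm.imp (.lt (.var 5) (.var 1))
    (Fm.iff (Fm.el (.var 5) (.var 4) 6) (Fm.el (.var 5) (.var 3) 6))))))

lemma Fm.fv_bd : Fm.bd.fv ⊆ {1, 2} := by
  decide

/-- A9 -/
theorem Fm.sat_bd (N : NStr A) (v : ℕ → A) : Fm.bd.sat N v ↔ ∀ c, ∃ c', N.lt c' (v 2) ∧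
    ∀ x, N.lt x (v 1) → (N.El x c' ↔ N.El x c) := by
  have h1 : ∀ v : ℕ → A, (Fm.el (.var 5) (.var 4) 6).sat N v ↔ N.El (v 5) (v 4) := fun v =>
    Fm.sat_el N _ _ _ _ (by simp [Tm.vars]) (by simp [Tm.vars])
  have h2 : ∀ v : ℕ → A, (Fm.el (.var 5) (.var 3) 6).sat N v ↔ N.El (v 5) (v 3) := fun v =>
    Fm.sat_el N _ _ _ _ (by simp [Tm.vars]) (by simp [Tm.vars])
  simp only [Fm.bd, Fm.sat_all, Fm.sat_ex, Fm.sat_and, Fm.sat_imp, Fm.sat_iff, Fm.sat_lt, Tm.ev,
    h1, h2]
  simp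

end Pool.Agent.Helper84.Kauf
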