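import Pool.Agent.Helper84.Kauf.Syn

set_option autoImplicit false

/-!
# Goedel numbering: the truth type is recursive
-/

open Cardinal Set

namespace Pool.Agent.Helper84.Kauf

/-! ## Codes -/

theorem Tm.code_injective : Function.Injective Tm.code := by
  intro t
  induction t with
  | var k =>
    intro u h
    cases u with
    | var l => simp only [Tm.code] at h; congr 1; omega
    | zero => simp only [Tm.code] at h; omega
    | one => simp only [Tm.code] at h; omega
    | add a b => simp only [Tm.code] at h; omega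
    | mul a b => simp only [Tm.code] at h; omega
  | zero =>
    intro u h
    cases u with
    | var l => simp only [Tm.code] at h; omega
    | zero => rfl
    | one => simp only [Tm.code] at h; omega
    | add a b => simp only [Tm.code] at h; omega
    | mul a b => simp only [Tm.code] at h; omega
  | one =>
    intro u h
    cases u with
    | var l => simp only [Tm.code] at h; omega
    | zero => simp only [Tm.code] at h; omega
    | one => rfl
    | add a b => simp only [Tm.code] at h; omega
    | mul a b => simp only [Tm.code] at h; omega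
  | add t1 t2 ih1 ih2 =>
    intro u h
    cases u with
    | var l => simp only [Tm.code] at h; omega
    | zero => simp only [Tm.code] at h; omega
    | one => simp only [Tm.code] at h; omega
    | add a b =>
      simp only [Tm.code] at h
      have h1 : Nat.pair t1.code t2.code = Nat.pair a.code b.code := by omega
      obtain ⟨h2, h3⟩ := Nat.pair_eq_pair.mp h1
      rw [ih1 h2, ih2 h3]
    | mul a b => simp only [Tm.code] at h; omega
  | mul t1 t2 ih1 ih2 =>
    intro u h
    cases u with
    | var l => simp only [Tm.code] at h; omega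
    | zero => simp only [Tm.code] at h; omega
    | one => simp only [Tm.code] at h; omega
    | add a b => simp only [Tm.code] at h; omega
    | mul a b =>
      simp only [Tm.code] at h
      have h1 : Nat.pair t1.code t2.code = Nat.pair a.code b.code := by omega
      obtain ⟨h2, h3⟩ := Nat.pair_eq_pair.mp h1
      rw [ih1 h2, ih2 h3]

theorem Tm.code_surjective : Function.Surjective Tm.code := by
  intro n
  induction n using Nat.strong_induction_on with
  | _ n ih =>
    by_cases h0 : n = 0
    · exact ⟨.zero, by rw [h0]; rfl⟩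
    by_cases h1 : n = 1
    · exact ⟨.one, by rw [h1]; rfl⟩
    have h3 : n % 3 = 0 ∨ n % 3 = 1 ∨ n % 3 = 2 := by omega
    rcases h3 with h3 | h3 | h3
    · obtain ⟨m, hm⟩ : ∃ m, n = 3 * m + 3 := ⟨(n - 3) / 3, by omega⟩
      have ha : (Nat.unpair m).1 < n := by have := Nat.unpair_left_le m; omega
      have hb : (Nat.unpair m).2 < n := by have := Nat.unpair_right_le m; omega
      obtain ⟨t, ht⟩ := ih _ ha
      obtain ⟨u, hu⟩ := ih _ hb
      refine ⟨.add t u, ?_⟩
      rw [Tm.code, ht, hu, Nat.pair_unpair, hm]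
    · obtain ⟨m, hm⟩ : ∃ m, n = 3 * m + 4 := ⟨(n - 4) / 3, by omega⟩
      have ha : (Nat.unpair m).1 < n := by have := Nat.unpair_left_le m; omega
      have hb : (Nat.unpair m).2 < n := by have := Nat.unpair_right_le m; omega
      obtain ⟨t, ht⟩ := ih _ ha
      obtain ⟨u, hu⟩ := ih _ hb
      refine ⟨.mul t u, ?_⟩
      rw [Tm.code, ht, hu, Nat.pair_unpair, hm]
    · exact ⟨.var (n / 3), by rw [Tm.code]; omega⟩

theorem Fm.code_injective : Function.Injective Fm.code := by
  intro φ
  induction φ with
  | eq t u =>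
    intro ψ h
    cases ψ with
    | eq a b =>
      simp only [Fm.code] at h
      have h1 : Nat.pair t.code u.code = Nat.pair a.code b.code := by omega
      obtain ⟨h2, h3⟩ := Nat.pair_eq_pair.mp h1
      rw [Tm.code_injective h2, Tm.code_injective h3]
    | lt a b => simp only [Fm.code] at h; omega
    | bot => simp only [Fm.code] at h; omega
    | imp a b => simp only [Fm.code] at h; omega
    | all a b => simp only [Fm.code] at h; omega
  | lt t u =>
    intro ψ h
    cases ψ with
    | eq a b => simp only [Fm.code] at h; omega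
    | lt a b =>
      simp only [Fm.code] at h
      have h1 : Nat.pair t.code u.code = Nat.pair a.code b.code := by omega
      obtain ⟨h2, h3⟩ := Nat.pair_eq_pair.mp h1
      rw [Tm.code_injective h2, Tm.code_injective h3]
    | bot => simp only [Fm.code] at h; omega
    | imp a b => simp only [Fm.code] at h; omega
    | all a b => simp only [Fm.code] at h; omega
  | bot =>
    intro ψ h
    cases ψ with
    | eq a b => simp only [Fm.code] at h; omega
    | lt a b => simp only [Fm.code] at h; omega
    | bot => rfl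
    | imp a b => simp only [Fm.code] at h; omega
    | all a b => simp only [Fm.code] at h; omega
  | imp φ1 φ2 ih1 ih2 =>
    intro ψ h
    cases ψ with
    | eq a b => simp only [Fm.code] at h; omega
    | lt a b => simp only [Fm.code] at h; omega
    | bot => simp only [Fm.code] at h; omega
    | imp a b =>
      simp only [Fm.code] at h
      have h1 : Nat.pair φ1.code φ2.code = Nat.pair a.code b.code := by omega
      obtain ⟨h2, h3⟩ := Nat.pair_eq_pair.mp h1
      rw [ih1 h2, ih2 h3]
    | all a b => simp only [Fm.code] at h; omega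
  | all k φ1 ih =>
    intro ψ h
    cases ψ with
    | eq a b => simp only [Fm.code] at h; omega
    | lt a b => simp only [Fm.code] at h; omega
    | bot => simp only [Fm.code] at h; omega
    | imp a b => simp only [Fm.code] at h; omega
    | all a b =>
      simp only [Fm.code] at h
      have h1 : Nat.pair k φ1.code = Nat.pair a b.code := by omega
      obtain ⟨h2, h3⟩ := Nat.pair_eq_pair.mp h1
      rw [h2, ih h3]

theorem Fm.code_surjective : Function.Surjective Fm.code := by
  intro n
  induction n using Nat.strong_induction_on with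
  | _ n ih =>
    by_cases h0 : n = 0
    · exact ⟨.bot, by rw [h0]; rfl⟩
    have h4 : n % 4 = 0 ∨ n % 4 = 1 ∨ n % 4 = 2 ∨ n % 4 = 3 := by omega
    rcases h4 with h4 | h4 | h4 | h4
    · obtain ⟨m, hm⟩ : ∃ m, n = 4 * m + 4 := ⟨(n - 4) / 4, by omega⟩
      have hb : (Nat.unpair m).2 < n := by have := Nat.unpair_right_le m; omega
      obtain ⟨u, hu⟩ := ih _ hb
      refine ⟨.all (Nat.unpair m).1 u, ?_⟩
      rw [Fm.code, hu, Nat.pair_unpair, hm]
    · obtain ⟨m, hm⟩ : ∃ m, n = 4 * m + 1 := ⟨(n - 1) / 4, by omega⟩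
      obtain ⟨t, ht⟩ := Tm.code_surjective (Nat.unpair m).1
      obtain ⟨u, hu⟩ := Tm.code_surjective (Nat.unpair m).2
      refine ⟨.eq t u, ?_⟩
      rw [Fm.code, ht, hu, Nat.pair_unpair, hm]
    · obtain ⟨m, hm⟩ : ∃ m, n = 4 * m + 2 := ⟨(n - 2) / 4, by omega⟩
      obtain ⟨t, ht⟩ := Tm.code_surjective (Nat.unpair m).1
      obtain ⟨u, hu⟩ := Tm.code_surjective (Nat.unpair m).2
      refine ⟨.lt t u, ?_⟩
      rw [Fm.code, ht, hu, Nat.pair_unpair, hm]
    · obtain ⟨m, hm⟩ : ∃ m, n = 4 * m + 3 := ⟨(n - 3) / 4, by omega⟩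
      have ha : (Nat.unpair m).1 < n := by have := Nat.unpair_left_le m; omega
      have hb : (Nat.unpair m).2 < n := by have := Nat.unpair_right_le m; omega
      obtain ⟨t, ht⟩ := ih _ ha
      obtain ⟨u, hu⟩ := ih _ hb
      refine ⟨.imp t u, ?_⟩
      rw [Fm.code, ht, hu, Nat.pair_unpair, hm]

theorem Tm.code_bijective : Function.Bijective Tm.code := ⟨Tm.code_injective, Tm.code_surjective⟩

theorem Fm.code_bijective : Function.Bijective Fm.code := ⟨Fm.code_injective, Fm.code_surjective⟩

/-! ## Free variables are bounded by the code -/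

theorem Tm.le_code {k : ℕ} : ∀ {t : Tm}, k ∈ t.vars → k ≤ t.code
  | .var l, h => by
    simp only [Tm.vars, Finset.mem_singleton] at h
    simp only [Tm.code]; omega
  | .zero, h => by simp [Tm.vars] at h
  | .one, h => by simp [Tm.vars] at h
  | .add t u, h => by
    simp only [Tm.vars, Finset.mem_union] at h
    simp only [Tm.code]
    have h1 := Nat.left_le_pair t.code u.code
    have h2 := Nat.right_le_pair t.code u.code
    rcases h with h | h
    · have := Tm.le_code h; omega
    · have := Tm.le_code h; omega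
  | .mul t u, h => by
    simp only [Tm.vars, Finset.mem_union] at h
    simp only [Tm.code]
    have h1 := Nat.left_le_pair t.code u.code
    have h2 := Nat.right_le_pair t.code u.code
    rcases h with h | h
    · have := Tm.le_code h; omega
    · have := Tm.le_code h; omega

theorem Fm.le_code {k : ℕ} : ∀ {φ : Fm}, k ∈ φ.fv → k ≤ φ.code
  | .eq t u, h => by
    simp only [Fm.fv, Finset.mem_union] at h
    simp only [Fm.code]
    have h1 := Nat.left_le_pair t.code u.code
    have h2 := Nat.right_le_pair t.code u.code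
    rcases h with h | h
    · have := Tm.le_code h; omega
    · have := Tm.le_code h; omega
  | .lt t u, h => by
    simp only [Fm.fv, Finset.mem_union] at h
    simp only [Fm.code]
    have h1 := Nat.left_le_pair t.code u.code
    have h2 := Nat.right_le_pair t.code u.code
    rcases h with h | h
    · have := Tm.le_code h; omega
    · have := Tm.le_code h; omega
  | .bot, h => by simp [Fm.fv] at h
  | .imp φ ψ, h => by
    simp only [Fm.fv, Finset.mem_union] at h
    simp only [Fm.code]
    have h1 := Nat.left_le_pair φ.code ψ.code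
    have h2 := Nat.right_le_pair φ.code ψ.code
    rcases h with h | h
    · have := Fm.le_code h; omega
    · have := Fm.le_code h; omega
  | .all l φ, h => by
    simp only [Fm.fv, Finset.mem_erase] at h
    simp only [Fm.code]
    have h1 := Nat.right_le_pair l φ.code
    have := Fm.le_code h.2
    omega

/-! ## Closures -/

theorem Fm.cl_fv (n : ℕ) (φ : Fm) : (Fm.cl n φ).fv = φ.fv.filter (fun k => k = 0 ∨ n < k) := by
  induction n with
  | zero =>
    rw [Fm.cl]
    symm
    apply Finset.filter_true_of_mem
    intro k _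
    omega
  | succ n ih =>
    rw [Fm.cl, Fm.fv, ih]
    ext k
    simp only [Finset.mem_erase, Finset.mem_filter]
    constructor
    · rintro ⟨h1, h2, h3⟩
      exact ⟨h2, by omega⟩
    · rintro ⟨h1, h2⟩
      exact ⟨by omega, h1, by omega⟩

theorem Fm.cl_code_fv (φ : Fm) : (Fm.cl φ.code φ).fv ⊆ {0} := by
  rw [Fm.cl_fv]
  intro k hk
  rw [Finset.mem_filter] at hk
  have := Fm.le_code hk.1
  rw [Finset.mem_singleton]
  omega

section sat

variable {A : Type} (N : NStr A)

theorem Tm.ev_congr2 {v w : ℕ → A} : ∀ {t : Tm}, (∀ k ∈ t.vars, v k = w k) → t.ev N v = t.ev N w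
  | .var l, h => h l (by simp [Tm.vars])
  | .zero, _ => rfl
  | .one, _ => rfl
  | .add t u, h => by
    simp only [Tm.ev]
    rw [Tm.ev_congr2 (t := t) (fun k hk => h k (by simp [Tm.vars, hk])),
      Tm.ev_congr2 (t := u) (fun k hk => h k (by simp [Tm.vars, hk]))]
  | .mul t u, h => by
    simp only [Tm.ev]
    rw [Tm.ev_congr2 (t := t) (fun k hk => h k (by simp [Tm.vars, hk])),
      Tm.ev_congr2 (t := u) (fun k hk => h k (by simp [Tm.vars, hk]))]

theorem Fm.sat_congr2 : ∀ {φ : Fm} {v w : ℕ → A}, (∀ k ∈ φ.fv, v k = w k) →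
    (φ.sat N v ↔ φ.sat N w)
  | .eq t u, v, w, h => by
    simp only [Fm.sat]
    rw [Tm.ev_congr2 N (t := t) (fun k hk => h k (by simp [Fm.fv, hk])),
      Tm.ev_congr2 N (t := u) (fun k hk => h k (by simp [Fm.fv, hk]))]
  | .lt t u, v, w, h => by
    simp only [Fm.sat]
    rw [Tm.ev_congr2 N (t := t) (fun k hk => h k (by simp [Fm.fv, hk])),
      Tm.ev_congr2 N (t := u) (fun k hk => h k (by simp [Fm.fv, hk]))]
  | .bot, v, w, _ => Iff.rfl
  | .imp φ ψ, v, w, h => by
    simp only [Fm.sat]
    rw [Fm.sat_congr2 (φ := φ) (fun k hk => h k (by simp [Fm.fv, hk])),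
      Fm.sat_congr2 (φ := ψ) (fun k hk => h k (by simp [Fm.fv, hk]))]
  | .all l φ, v, w, h => by
    simp only [Fm.sat]
    refine forall_congr' fun a => Fm.sat_congr2 (φ := φ) fun k hk => ?_
    by_cases hkl : k = l
    · subst hkl; simp
    · rw [Function.update_of_ne hkl, Function.update_of_ne hkl]
      exact h k (by simp [Fm.fv, hk, hkl])

/-- the closure of a formula with no free variables other than `v_0` has the same truth values -/
theorem Fm.cl_sat (n : ℕ) (φ : Fm) (h : φ.fv ⊆ {0}) (v : ℕ → A) :
    (Fm.cl n φ).sat N v ↔ φ.sat N v := by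
  induction n generalizing v with
  | zero => rfl
  | succ n ih =>
    rw [Fm.cl, Fm.sat]
    have h1 : ∀ a, (Fm.cl n φ).sat N (Function.update v (n + 1) a) ↔ φ.sat N v := by
      intro a
      rw [ih]
      apply Fm.sat_congr2
      intro k hk
      have := h hk
      rw [Finset.mem_singleton] at this
      rw [this, Function.update_of_ne (by omega)]
    constructor
    · intro h2
      exact (h1 (v 0)).mp (h2 (v 0))
    · intro h2 a
      exact (h1 a).mpr h2

end sat

/-! ## The truth type is recursive -/

/-- code of a numeral -/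
def numC (n : ℕ) : ℕ := n.rec 0 (fun _ c => 3 * Nat.pair c 1 + 3)

theorem numC_eq (n : ℕ) : (Tm.num n).code = numC n := by
  induction n with
  | zero => rfl
  | succ n ih =>
    rw [Tm.num, Tm.code, ih]
    rfl

/-- code of the closure -/
def clC (n c : ℕ) : ℕ := n.rec c (fun k e => 4 * Nat.pair (k + 1) e + 4)

theorem clC_eq (n : ℕ) (φ : Fm) : (Fm.cl n φ).code = clC n φ.code := by
  induction n with
  | zero => rfl
  | succ n ih =>
    rw [Fm.cl, Fm.code, ih]
    rfl

/-! code level operations -/

def vC (k : ℕ) : ℕ := 3 * k + 2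
def addC (a b : ℕ) : ℕ := 3 * Nat.pair a b + 3
def mulC (a b : ℕ) : ℕ := 3 * Nat.pair a b + 4
def eqC (a b : ℕ) : ℕ := 4 * Nat.pair a b + 1
def ltC (a b : ℕ) : ℕ := 4 * Nat.pair a b + 2
def impC (a b : ℕ) : ℕ := 4 * Nat.pair a b + 3
def allC (a b : ℕ) : ℕ := 4 * Nat.pair a b + 4
def negC (a : ℕ) : ℕ := impC a 0
def exC (k a : ℕ) : ℕ := negC (allC k (negC a))
def andC (a b : ℕ) : ℕ := negC (impC a (negC b))
def iffC (a b : ℕ) : ℕ := andC (impC a b) (impC b a)
def prC (a b : ℕ) : ℕ := addC (mulC (addC a b) (addC a b)) a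
def elC (t s k : ℕ) : ℕ :=
  exC k (exC (k + 1) (exC (k + 2)
    (andC (eqC s (prC (vC k) (vC (k + 1))))
      (eqC (mulC (addC 1 (mulC (addC t 1) (vC k))) (vC (k + 2))) (vC (k + 1))))))

/-- code of `pp` -/
def ppC (n c : ℕ) : ℕ :=
  allC 2 (impC (ltC (vC 2) (vC 1))
    (iffC (elC (prC (numC n) (vC 2)) (vC 0) 3)
      (allC 0 (impC (eqC (vC 0) (vC 2)) (clC n c)))))

theorem ppC_eq (n : ℕ) (φ : Fm) : (Fm.pp n φ).code = ppC n φ.code := by
  rw [ppC, ← numC_eq, ← clC_eq]
  rfl

theorem numC_primrec : Primrec numC := by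
  unfold numC
  refine Primrec.nat_rec₁ 0 ?_
  exact Primrec.nat_add.comp (Primrec.nat_mul.comp (Primrec.const 3)
    (Primrec₂.natPair.comp Primrec.snd (Primrec.const 1))) (Primrec.const 3)

theorem clC_primrec : Primrec₂ clC := by
  unfold clC
  refine (Primrec.nat_rec (f := fun c : ℕ => c)
    (g := fun (_ : ℕ) (p : ℕ × ℕ) => 4 * Nat.pair (p.1 + 1) p.2 + 4) Primrec.id ?_).swap
  exact Primrec.nat_add.comp (Primrec.nat_mul.comp (Primrec.const 4)
    (Primrec₂.natPair.comp (Primrec.succ.comp (Primrec.fst.comp Primrec.snd))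
      (Primrec.snd.comp Primrec.snd))) (Primrec.const 4)

theorem lin_primrec (a b : ℕ) : Primrec₂ (fun x y : ℕ => a * Nat.pair x y + b) :=
  Primrec.nat_add.comp (Primrec.nat_mul.comp (Primrec.const a)
    (Primrec₂.natPair.comp Primrec.fst Primrec.snd)) (Primrec.const b)

theorem addC_primrec : Primrec₂ addC := lin_primrec 3 3
theorem mulC_primrec : Primrec₂ mulC := lin_primrec 3 4
theorem eqC_primrec : Primrec₂ eqC := lin_primrec 4 1
theorem ltC_primrec : Primrec₂ ltC := lin_primrec 4 2
theorem impC_primrec : Primrec₂ impC := lin_primrec 4 3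
theorem allC_primrec : Primrec₂ allC := lin_primrec 4 4

section comp

variable {f g : ℕ → ℕ}

theorem negC_comp (hf : Primrec f) : Primrec fun n => negC (f n) :=
  impC_primrec.comp hf (Primrec.const 0)

theorem exC_comp (k : ℕ) (hf : Primrec f) : Primrec fun n => exC k (f n) :=
  negC_comp (allC_primrec.comp (Primrec.const k) (negC_comp hf))

theorem andC_comp (hf : Primrec f) (hg : Primrec g) : Primrec fun n => andC (f n) (g n) :=
  negC_comp (impC_primrec.comp hf (negC_comp hg))

theorem iffC_comp (hf : Primrec f) (hg : Primrec g) : Primrec fun n => iffC (f n) (g n) :=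
  andC_comp (impC_primrec.comp hf hg) (impC_primrec.comp hg hf)

theorem prC_comp (hf : Primrec f) (hg : Primrec g) : Primrec fun n => prC (f n) (g n) :=
  addC_primrec.comp (mulC_primrec.comp (addC_primrec.comp hf hg) (addC_primrec.comp hf hg)) hf

theorem elC_comp (k : ℕ) (hf : Primrec f) (hg : Primrec g) :
    Primrec fun n => elC (f n) (g n) k :=
  exC_comp _ (exC_comp _ (exC_comp _
    (andC_comp (eqC_primrec.comp hg (Primrec.const _))
      (eqC_primrec.comp (mulC_primrec.comp (addC_primrec.comp (Primrec.const 1)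
        (mulC_primrec.comp (addC_primrec.comp hf (Primrec.const 1)) (Primrec.const _)))
        (Primrec.const _)) (Primrec.const _)))))

theorem ppC_comp (hf : Primrec f) (hg : Primrec g) : Primrec fun n => ppC (f n) (g n) :=
  allC_primrec.comp (Primrec.const 2) (impC_primrec.comp (Primrec.const _)
    (iffC_comp (elC_comp 3 (prC_comp (numC_primrec.comp hf) (Primrec.const _)) (Primrec.const _))
      (allC_primrec.comp (Primrec.const 0) (impC_primrec.comp (Primrec.const _)
        (clC_primrec.comp hf hg)))))

end comp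

theorem le_clC (n c : ℕ) : c ≤ clC n c := by
  induction n with
  | zero => exact le_rfl
  | succ n ih =>
    have h : clC (n + 1) c = 4 * Nat.pair (n + 1) (clC n c) + 4 := rfl
    rw [h]
    have := Nat.right_le_pair (n + 1) (clC n c)
    omega

theorem le_impC_left (a b : ℕ) : a ≤ impC a b := by
  have := Nat.left_le_pair a b
  unfold impC; omega

theorem le_impC_right (a b : ℕ) : b ≤ impC a b := by
  have := Nat.right_le_pair a b
  unfold impC; omega

theorem le_allC (a b : ℕ) : b ≤ allC a b := by
  have := Nat.right_le_pair a b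
  unfold allC; omega

theorem le_ppC (n c : ℕ) : c ≤ ppC n c := by
  unfold ppC
  refine le_trans ?_ (le_allC _ _)
  refine le_trans ?_ (le_impC_right _ _)
  unfold iffC andC negC
  refine le_trans ?_ (le_impC_left _ _)
  refine le_trans ?_ (le_impC_left _ _)
  refine le_trans ?_ (le_impC_right _ _)
  refine le_trans ?_ (le_allC _ _)
  exact le_trans (le_clC n c) (le_impC_right _ _)

theorem Tm.num_vars (n : ℕ) : (Tm.num n).vars = ∅ := by
  induction n with
  | zero => rfl
  | succ n ih => rw [Tm.num, Tm.vars, ih]; rfl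

/-- the free variables of `pp n φ` are `v_0` and `v_1` -/
theorem Fm.pp_fv (n : ℕ) (φ : Fm) (h : (Fm.cl n φ).fv ⊆ {0}) : (Fm.pp n φ).fv ⊆ {0, 1} := by
  intro k hk
  by_contra hk2
  simp only [Finset.mem_insert, Finset.mem_singleton, not_or] at hk2
  have h1 : k ∉ (Fm.cl n φ).fv := by
    intro h2
    have := h h2
    rw [Finset.mem_singleton] at this
    omega
  simp only [Fm.pp, Fm.iff, Fm.and, Fm.neg, Fm.ex, Fm.el, Tm.pr, Fm.fv, Tm.vars, Tm.num_vars,
    Finset.mem_erase, Finset.mem_union, Finset.mem_singleton, Finset.notMem_empty, h1] at hk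
  have h2 : k ≠ 2 := hk.1
  by_cases h3 : k = 3
  · subst h3; simp at hk
  by_cases h4 : k = 4
  · subst h4; simp at hk
  by_cases h5 : k = 5
  · subst h5; simp at hk
  simp [hk2.1, hk2.2, h2, h3, h4, h5] at hk

theorem truthType_codes (n : ℕ) :
    (∃ ψ ∈ truthType, ψ.code = n) ↔ ∃ m < n + 1, ppC m m = n := by
  constructor
  · rintro ⟨ψ, ⟨φ, rfl⟩, h⟩
    rw [ppC_eq] at h
    refine ⟨φ.code, ?_, h⟩
    have := le_ppC φ.code φ.code
    omega
  · rintro ⟨m, _, h⟩
    obtain ⟨φ, rfl⟩ := Fm.code_surjective m
    exact ⟨Fm.pp φ.code φ, ⟨φ, rfl⟩, by rw [ppC_eq]; exact h⟩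

/-- **The truth type is a recursive type.** -/
theorem truthType_rec : IsRecType truthType := by
  constructor
  · have h1 : PrimrecPred (fun n : ℕ => ∃ m < n + 1, ppC m m = n) := by
      have h2 : PrimrecRel (fun m n : ℕ => ppC m m = n) := by
        have h3 : Primrec₂ (fun m _ : ℕ => ppC m m) :=
          (ppC_comp Primrec.id Primrec.id).comp Primrec.fst
        exact Primrec.eq.comp₂ h3 Primrec₂.right
      exact h2.exists_lt.comp Primrec.succ Primrec.id
    exact h1.computablePred.of_eq (fun n => (truthType_codes n).symm)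
  · refine ⟨1, ?_⟩
    rintro ψ ⟨φ, rfl⟩ k hk
    have := Fm.pp_fv φ.code φ (Fm.cl_code_fv φ) hk
    simp only [Finset.mem_insert, Finset.mem_singleton] at this
    omega

end Pool.Agent.Helper84.Kauf
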