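import Pool.Agent.Helper84.Kauf.Main1
import Pool.Agent.Helper84.Kauf.PAFacts
import Pool.Agent.Helper84.Kauf.Rec
import Pool.Agent.Helper84.Kauf.F2
import Pool.Agent.Helper60.Kauf.F1

set_option autoImplicit false

/-!
# Collection of the facts on models of arithmetic and the branch theorem
-/

open Cardinal Set
open Pool.Agent.Helper23.CK (RO)

namespace Pool.Agent.Helper84.Kauf

theorem paFacts : PAFacts where
  el A N v := Fm.sat_el N (.var 0) (.var 1) 2 v (by simp [Tm.vars]) (by simp [Tm.vars])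
  pp A N φ v := Fm.sat_pp N φ.code φ (Fm.cl_code_fv φ) v
  cl A N φ n v h := Fm.cl_sat N n φ (fun k hk => by simp [h k hk]) v
  fin A N hN F hF v := by
    classical
    choose g hg using hF
    obtain ⟨c, hc⟩ := hN.exists_codes (F.attach.toList.map fun x => ((g x.2).code, g x.2)) (by
      intro p hp
      obtain ⟨x, _, rfl⟩ := List.mem_map.1 hp
      exact Fm.cl_code_fv _) (by
      intro p hp q hq hpq
      obtain ⟨x, _, rfl⟩ := List.mem_map.1 hp
      obtain ⟨y, _, rfl⟩ := List.mem_map.1 hq
      simp only at hpq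
      have := Fm.code_injective hpq
      rw [this]) v
    refine ⟨c, fun φ hφ => ?_⟩
    have h1 := hc ((g hφ).code, g hφ) (List.mem_map.2 ⟨⟨φ, hφ⟩, by simp, rfl⟩)
    have h2 : φ = Fm.pp (g hφ).code (g hφ) := hg hφ
    rw [h2]
    exact h1
  bdd := ⟨Fm.bd, fun A N hN => ⟨fun v => Fm.sat_bd N v, fun b => hN.bounded_codes b⟩⟩
  total A N hN x y := hN.lt_tri x y
  trans A N hN x y z h1 h2 := hN.lt_trans h1 h2
  le_pr A N hN n x := hN.le_pr_right x n
  num_lt A N hN e he n := hN.num_lt_nonst he n
  ospill A N hN c c' b e he hst := by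
    obtain ⟨m, h1, h2, h3⟩ := hN.overspill c c' b e he hst
    exact ⟨m, h1, h2, fun n x hn hx => h3 n hn x hx⟩
  tarski A N hN ψ v := fun h => hN.tarski ψ v fun φ hφ => h φ fun k hk => by simpa using hφ hk
  code_surj := Fm.code_surjective
  recType := truthType_rec

theorem f2 : F2Statement := f2_of_f1 f1

end Pool.Agent.Helper84.Kauf
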