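import Pool.Agent.Helper84.Kauf.Aron

set_option autoImplicit false

/-!
# The name of the tree of coded truth sets
-/

open Cardinal Set
open Pool.Agent.Helper23.CK (RO)

namespace Pool.Agent.Helper84.Kauf

/-- facts on models of Peano arithmetic which are used in the argument -/
structure PAFacts : Prop where
  el : ∀ (A : Type) (N : NStr A) (v : ℕ → A),
    (Fm.el (.var 0) (.var 1) 2).sat N v ↔ N.El (v 0) (v 1)
  pp : ∀ (A : Type) (N : NStr A) (φ : Fm) (v : ℕ → A), (Fm.pp φ.code φ).sat N v ↔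
    ∀ x, N.lt x (v 1) → (N.El (N.pr (N.num φ.code) x) (v 0) ↔ (Fm.cl φ.code φ).sat N (fun _ => x))
  cl : ∀ (A : Type) (N : NStr A) (φ : Fm) (n : ℕ) (v : ℕ → A), (∀ k ∈ φ.fv, k = 0) →
    ((Fm.cl n φ).sat N v ↔ φ.sat N v)
  fin : ∀ (A : Type) (N : NStr A), N.PA → ∀ F : Finset Fm, (F : Set Fm) ⊆ truthType →
    ∀ v : ℕ → A, ∃ c, ∀ φ ∈ F, φ.sat N (Function.update v 0 c)
  bdd : ∃ bd : Fm, ∀ (A : Type) (N : NStr A), N.PA →
    (∀ v : ℕ → A, bd.sat N v ↔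
      ∀ c, ∃ c', N.lt c' (v 2) ∧ ∀ x, N.lt x (v 1) → (N.El x c' ↔ N.El x c)) ∧
    ∀ b, ∃ d, ∀ c, ∃ c', N.lt c' d ∧ ∀ x, N.lt x b → (N.El x c' ↔ N.El x c)
  total : ∀ (A : Type) (N : NStr A), N.PA → ∀ x y, N.lt x y ∨ x = y ∨ N.lt y x
  trans : ∀ (A : Type) (N : NStr A), N.PA → ∀ x y z, N.lt x y → N.lt y z → N.lt x z
  le_pr : ∀ (A : Type) (N : NStr A), N.PA → ∀ n x, N.lt x (N.pr n x) ∨ x = N.pr n x
  num_lt : ∀ (A : Type) (N : NStr A), N.PA → ∀ e, (∀ n, e ≠ N.num n) → ∀ n, N.lt (N.num n) e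
  ospill : ∀ (A : Type) (N : NStr A), N.PA → ∀ c c' b e, (∀ n, e ≠ N.num n) →
    (∀ (n : ℕ) (x : A), N.lt x b → (N.El (N.pr (N.num n) x) c ↔ N.El (N.pr (N.num n) x) c')) →
    ∃ m, (N.lt m e ∨ m = e) ∧ (∀ n, m ≠ N.num n) ∧
      ∀ n x, N.lt n m → N.lt x b → (N.El (N.pr n x) c ↔ N.El (N.pr n x) c')
  tarski : ∀ (A : Type) (N : NStr A), N.PA → ∀ (ψ : Fm) (v : ℕ → A),
    ¬ ∀ φ : Fm, (∀ k ∈ φ.fv, k = 0) → ∀ x,
      (ψ.sat N (Function.update v 0 (N.pr (N.num φ.code) x)) ↔ φ.sat N (fun _ => x))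
  code_surj : ∀ n : ℕ, ∃ φ : Fm, φ.code = n
  recType : IsRecType truthType

variable (M : BStr (RO Cond) K2)

/-- truth value of: `z` is an element of the set coded by `c` -/
def elv (z c : K2) : RO Cond := (Fm.el (.var 0) (.var 1) 2).val M (fun k => if k = 0 then z else c)

/-- assignment with two values -/
def asg2 (c b : K2) (k : ℕ) : K2 := if k = 0 then c else b

/-- the condition `t` forces that `Z` is the part below `α` of the set coded by `c`, and that `c`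
codes the truth set up to `b`, which is an upper bound for all ordinals below `α` -/
structure GdC (t : Cond) (α : K2) (Z : Set K2) (c b : K2) : Prop where
  bound : ∀ ξ < α, t ∈ (M.lt ξ b).carrier
  truth : ∀ φ : Fm, t ∈ ((Fm.pp φ.code φ).val M (asg2 c b)).carrier
  pos : ∀ z < α, z ∈ Z → t ∈ (elv M z c).carrier
  neg : ∀ z < α, z ∉ Z → t ∈ ((elv M z c)ᶜ).carrier
  sub : Z ⊆ Iio α

variable {M}

theorem GdC.mono {t t' : Cond} {α : K2} {Z : Set K2} {c b : K2} (h : GdC M t α Z c b) (ht : t' ≤ t) :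
    GdC M t' α Z c b :=
  ⟨fun ξ hξ => RO.lower _ ht (h.bound ξ hξ), fun φ => RO.lower _ ht (h.truth φ),
    fun z hz hZ => RO.lower _ ht (h.pos z hz hZ), fun z hz hZ => RO.lower _ ht (h.neg z hz hZ), h.sub⟩

theorem GdC.down {t : Cond} {α β : K2} {Z : Set K2} {c b : K2} (h : GdC M t α Z c b) (hβ : β ≤ α) :
    GdC M t β (Z ∩ Iio β) c b :=
  ⟨fun ξ hξ => h.bound ξ (hξ.trans_le hβ), h.truth,
    fun z hz hZ => h.pos z (hz.trans_le hβ) hZ.1,
    fun z hz hZ => h.neg z (hz.trans_le hβ) fun hZ' => hZ ⟨hZ', hz⟩, inter_subset_right⟩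

variable (M)

/-- `t` forces that `Z` belongs to level `α` of the tree of coded truth sets -/
def UK (t : Cond) (α : K2) (Z : Set K2) : Prop := ∀ r ≤ t, ∃ s ≤ r, ∃ c b, GdC M s α Z c b

abbrev D1 : Type := PCond Unit

theorem D1_closed : IsClosed1 D1 := PCond.isClosed1 countable_le_aleph1

variable {M} {s₀ : Cond}

theorem kauf_pa (h : s₀ ∈ (kaufVal M).carrier) : s₀ ∈ M.paVal.carrier := h.1.1.1

theorem kauf_small (h : s₀ ∈ (kaufVal M).carrier) (a : K2) :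
    s₀ ∈ (smallVal fun x => M.lt x a).carrier := (RO.mem_iInf.1 h.1.1.2) a

theorem kauf_rec (h : s₀ ∈ (kaufVal M).carrier) : s₀ ∈ M.recSatVal.carrier := h.1.2

theorem kauf_rcl (h : s₀ ∈ (kaufVal M).carrier) : s₀ ∈ M.rclVal.carrier := h.2

/-- initial segments of `M` are bounded in the ordinals -/
theorem exists_seg (h : s₀ ∈ (kaufVal M).carrier) (p : D1) (hp : p.s ≤ s₀) (a : K2) :
    ∃ q ≤ p, ∃ β : K2, ∀ x, β ≤ x → q.s ∈ ((M.lt x a)ᶜ).carrier := by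
  have h1 := RO.lower _ hp (kauf_small h a)
  obtain ⟨t, ht, γ, h2⟩ := RO.mem_iSup.1 h1 p.s le_rfl
  obtain ⟨t', ht', F, h3⟩ := RO.mem_iSup.1 h2 t le_rfl
  obtain ⟨p₁, hp₁, hp₁'⟩ := PCond.isProj_s.lift p t' (ht'.trans ht)
  have h4 := RO.lower _ hp₁' h3
  rw [RO.mem_inf, RO.mem_iInf, RO.mem_iInf] at h4
  obtain ⟨h4, h5⟩ := h4
  obtain ⟨q, hq, hqD⟩ := D1_closed.dist (mk_Iio_K2 γ)
    (fun y => {q : D1 | (∃ x, q.s ∈ (F x y).carrier) ∨ ∀ x, q.s ∈ ((F x y)ᶜ).carrier})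
    (fun y p q hqp hp => hp.imp (fun ⟨x, hx⟩ => ⟨x, RO.lower _ hqp.1 hx⟩)
      (fun hx x => RO.lower _ hqp.1 (hx x))) p₁ (by
      intro y r _
      by_cases hc : ∀ x, r.s ∈ ((F x y)ᶜ).carrier
      · exact ⟨r, le_rfl, Or.inr hc⟩
      · push Not at hc
        obtain ⟨x, hx⟩ := hc
        obtain ⟨u, hu, hu'⟩ := RO.not_mem_iff.1 hx
        rw [compl_compl] at hu'
        obtain ⟨r', hr', hr''⟩ := PCond.isProj_s.lift r u hu
        exact ⟨r', hr', Or.inl ⟨x, RO.lower _ hr'' hu'⟩⟩)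
  classical
  let g : Iio γ → K2 := fun y => if hx : ∃ x, q.s ∈ (F x y).carrier then hx.choose else Classical.arbitrary K2
  obtain ⟨β, hβ⟩ := exists_bound (mk_Iio_K2 γ) g
  refine ⟨q, hq.trans hp₁, β, fun x hx => ?_⟩
  intro u hu hu'
  have h6 := RO.mem_himp.1 (h4 x) u (hu.trans hq.1) hu'
  obtain ⟨u', hu1, y, hy⟩ := RO.mem_iSup.1 h6 u le_rfl
  rw [RO.mem_inf, mem_tv] at hy
  obtain ⟨hyγ, hy⟩ := hy
  rcases hqD ⟨y, hyγ⟩ with h7 | h7
  · have h8 : g ⟨y, hyγ⟩ = h7.choose := dif_pos h7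
    have h9 : x = h7.choose := by
      have h11 := h5 x
      rw [RO.mem_iInf] at h11
      have h12 := h11 h7.choose
      rw [RO.mem_iInf] at h12
      have h13 := RO.mem_himp.1 (h12 y) u' (hu1.trans (hu.trans hq.1))
        ⟨hy, RO.lower _ (hu1.trans hu) h7.choose_spec⟩
      exact mem_tv.1 h13
    have h14 := hβ ⟨y, hyγ⟩
    rw [h8, ← h9] at h14
    exact h14.not_ge hx
  · exact not_mem_both hy (RO.lower _ (hu1.trans hu) (h7 x))

/-- totality of the order of `M` -/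
theorem lt_total (H : PAFacts) (h : s₀ ∈ (kaufVal M).carrier) {s : Cond} (hs : s ≤ s₀) {x y : K2}
    (hne : x ≠ y) (hc : s ∈ ((M.lt x y)ᶜ).carrier) : s ∈ (M.lt y x).carrier := by
  have h1 := transfer_proj (PCond.isProj_s (ι := Unit)) PCond.surjective_s D1_closed M
    (RO.lower _ hs (kauf_pa h))
    (.imp (Fm.lt (.var 0) (.var 1)).neg (.imp (Fm.eq (.var 0) (.var 1)).neg (.lt (.var 1) (.var 0))))
    (by
      intro A N hN v h1 h2
      rcases H.total A N hN (v 0) (v 1) with h3 | h3 | h3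
      · exact (h1 h3).elim
      · exact (h2 h3).elim
      · exact h3) (asg2 x y)
  have e1 : (Fm.lt (.var 0) (.var 1)).val M (asg2 x y) = M.lt x y := by
    simp only [Fm.val, Tm.val]
    simp_rw [inf_assoc, ← inf_iSup_eq, iSup_tv_inf]
    simp [asg2]
  have e2 : (Fm.lt (.var 1) (.var 0)).val M (asg2 x y) = M.lt y x := by
    simp only [Fm.val, Tm.val]
    simp_rw [inf_assoc, ← inf_iSup_eq, iSup_tv_inf]
    simp [asg2]
  have e3 : (Fm.eq (.var 0) (.var 1)).val M (asg2 x y) = ⊥ := by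
    simp only [Fm.val, Tm.val, iSup_tv_inf]
    simp only [asg2, if_true]
    exact tv_false fun h => hne (by simpa using h.symm)
  simp only [Fm.val] at h1
  rw [RO.mem_himp] at h1
  have h2 := h1 s le_rfl (by
    rw [Fm.val_neg, e1]
    exact hc)
  rw [RO.mem_himp] at h2
  have h3 := h2 s le_rfl (by
    rw [Fm.val_neg, e3, compl_bot]
    exact RO.mem_top)
  have h4 : s ∈ ((Fm.lt (.var 1) (.var 0)).val M (asg2 x y)).carrier := h3
  rw [e2] at h4
  exact h4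

/-- the ordinals below `α` have an upper bound in `M` -/
theorem exists_ub (H : PAFacts) (h : s₀ ∈ (kaufVal M).carrier) (p : D1) (hp : p.s ≤ s₀) (α : K2) :
    ∃ q ≤ p, ∃ b : K2, ∀ ξ < α, q.s ∈ (M.lt ξ b).carrier := by
  obtain ⟨q, hq, hqD⟩ := D1_closed.dist (mk_Iio_K2 α)
    (fun ξ => {q : D1 | ∃ β : K2, ∀ x, β ≤ x → q.s ∈ ((M.lt x ξ)ᶜ).carrier})
    (fun ξ p q hqp hp => by
      obtain ⟨β, hβ⟩ := hp
      exact ⟨β, fun x hx => RO.lower _ hqp.1 (hβ x hx)⟩) p (by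
      intro ξ r hr
      exact exists_seg h r (hr.1.trans hp) ξ)
  choose β hβ using hqD
  obtain ⟨b, hb⟩ := exists_bound (mk_Iio_K2 α) β
  refine ⟨q, hq, max b α, fun ξ hξ => ?_⟩
  refine lt_total H h (hq.1.trans hp) (x := max b α) (y := ξ) ?_ ?_
  · exact (hξ.trans_le (le_max_right b α)).ne'
  · exact hβ ⟨ξ, hξ⟩ _ ((hb ⟨ξ, hξ⟩).le.trans (le_max_left b α))

/-! ## Decided structures -/

section dec

variable {s : Cond} {γ : K2} {N : NStr (Iio γ)}

theorem Decides.lt_iff (hD : Decides M s γ N) (x y : Iio γ) : N.lt x y ↔ s ∈ (M.lt x y).carrier := by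
  have h1 := hD (.lt (.var 0) (.var 1)) (fun k => if k = 0 then x else y)
  have e1 : (Fm.lt (.var 0) (.var 1)).val M (fun k => ((if k = 0 then x else y : Iio γ) : K2)) =
      M.lt x y := by
    simp only [Fm.val, Tm.val]
    simp_rw [inf_assoc, ← inf_iSup_eq, iSup_tv_inf]
    simp
  rw [e1] at h1
  rw [← h1]
  simp [Fm.sat, Tm.ev]

theorem coe_ite (x y : Iio γ) : (fun k : ℕ => ((if k = 0 then x else y : Iio γ) : K2)) =
    fun k => if k = 0 then (x : K2) else y := by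
  funext k
  split_ifs <;> rfl

theorem Decides.el_iff (H : PAFacts) (hD : Decides M s γ N) (z c : Iio γ) :
    N.El z c ↔ s ∈ (elv M z c).carrier := by
  have h1 := hD (.el (.var 0) (.var 1) 2) (fun k => if k = 0 then z else c)
  rw [coe_ite] at h1
  have h2 := H.el _ N (fun k => if k = 0 then z else c)
  simp only [if_true, one_ne_zero, if_false] at h2
  rw [← h2]
  exact h1

theorem Decides.pp_iff (H : PAFacts) (hD : Decides M s γ N) (φ : Fm) (c b : Iio γ) :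
    s ∈ ((Fm.pp φ.code φ).val M (asg2 c b)).carrier ↔
    ∀ x, N.lt x b → (N.El (N.pr (N.num φ.code) x) c ↔ (Fm.cl φ.code φ).sat N (fun _ => x)) := by
  have h1 := hD (.pp φ.code φ) (fun k => if k = 0 then c else b)
  rw [coe_ite] at h1
  have h2 := H.pp _ N φ (fun k => if k = 0 then c else b)
  simp only [if_true, one_ne_zero, if_false] at h2
  rw [← h2]
  exact h1.symm

end dec

/-- levels of the tree of coded truth sets are not empty -/
theorem exists_good (H : PAFacts) (h : s₀ ∈ (kaufVal M).carrier) (p : D1) (hp : p.s ≤ s₀) (α : K2) :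
    ∃ q ≤ p, ∃ Z c b, GdC M q.s α Z c b := by
  obtain ⟨q₁, hq₁, b, hb⟩ := exists_ub H h p hp α
  have h1 := RO.lower _ (hq₁.1.trans hp) (kauf_rec h)
  simp only [BStr.recSatVal, RO.mem_iInf] at h1
  have h2 := RO.mem_himp.1 (h1 truthType H.recType (fun _ => b)) q₁.s le_rfl (by
    rw [RO.mem_iInf]
    intro F
    rw [RO.mem_iInf]
    intro hF
    rw [RO.mem_iSup]
    intro t ht
    obtain ⟨p', hp', hp''⟩ := PCond.isProj_s.lift q₁ t ht
    have hpa : p'.s ∈ (M.paVal).carrier :=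
      RO.lower _ (hp'.1.trans (hq₁.1.trans hp)) (kauf_pa h)
    obtain ⟨r, hr, γ, hγ, N, hN, hD⟩ := reflect_proj PCond.isProj_s D1_closed M hpa b
    obtain ⟨c, hc⟩ := H.fin _ N hN F hF (fun _ => ⟨b, hγ⟩)
    refine ⟨r.s, hr.1.trans hp'', c, ?_⟩
    simp only [RO.mem_iInf]
    intro φ hφ
    have h3 := (hD φ _).1 (hc φ hφ)
    have e : (fun k => ((Function.update (fun _ => (⟨b, hγ⟩ : Iio γ)) 0 c k : Iio γ) : K2)) =
        Function.update (fun _ => b) 0 (c : K2) := by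
      funext k
      by_cases hk : k = 0
      · subst hk
        simp
      · simp [Function.update_of_ne hk]
    rw [e] at h3
    exact h3)
  obtain ⟨t, ht, c, hc⟩ := RO.mem_iSup.1 h2 q₁.s le_rfl
  simp only [RO.mem_iInf] at hc
  have e : Function.update (fun _ : ℕ => b) 0 c = asg2 c b := by
    funext k
    by_cases hk : k = 0
    · subst hk
      simp [asg2]
    · simp [asg2, hk, Function.update_of_ne hk]
  rw [e] at hc
  obtain ⟨q₂, hq₂, hq₂'⟩ := PCond.isProj_s.lift q₁ t ht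
  obtain ⟨q₃, hq₃, hq₃D⟩ := D1_closed.dist (mk_Iio_K2 α)
    (fun z => {q : D1 | q.s ∈ (elv M z c).carrier ∨ q.s ∈ ((elv M z c)ᶜ).carrier})
    (fun z p q hqp hp => hp.imp (RO.lower _ hqp.1) (RO.lower _ hqp.1)) q₂ (by
      intro z r _
      obtain ⟨u, hu, hu'⟩ := RO.decide (elv M z c) r.s
      obtain ⟨r', hr', hr''⟩ := PCond.isProj_s.lift r u hu
      exact ⟨r', hr', hu'.imp (RO.lower _ hr'') (RO.lower _ hr'')⟩)
  refine ⟨q₃, hq₃.trans (hq₂.trans hq₁), {z | z < α ∧ q₃.s ∈ (elv M z c).carrier}, c, b, ?_, ?_, ?_, ?_, ?_⟩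
  · intro ξ hξ
    exact RO.lower _ (hq₃.trans hq₂).1 (hb ξ hξ)
  · intro φ
    exact RO.lower _ (hq₃.1.trans hq₂') (hc _ ⟨φ, rfl⟩)
  · rintro z _ ⟨_, hz⟩
    exact hz
  · intro z hz hz'
    rcases hq₃D ⟨z, hz⟩ with h3 | h3
    · exact (hz' ⟨hz, h3⟩).elim
    · exact h3
  · rintro z ⟨hz, _⟩
    exact hz

/-- levels of the tree of coded truth sets are small -/
theorem exists_small (H : PAFacts) (h : s₀ ∈ (kaufVal M).carrier) (p : D1) (hp : p.s ≤ s₀) (α : K2) :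
    ∃ q ≤ p, ∃ L : Set (Set K2), #L ≤ aleph 1 ∧ ∀ q' ≤ q, ∀ Z, UK M q'.s α Z → Z ∈ L := by
  obtain ⟨q₁, hq₁, b, hb⟩ := exists_ub H h p hp α
  obtain ⟨bd, hbd⟩ := H.bdd
  have hq₁s : q₁.s ≤ s₀ := hq₁.1.trans hp
  -- a bound `d` for the codes
  obtain ⟨q₂, hq₂, d, hd⟩ : ∃ q₂ ≤ q₁, ∃ d : K2, ∀ v : ℕ → K2, v 1 = b → v 2 = d →
      q₂.s ∈ (bd.val M v).carrier := by
    obtain ⟨r, hr, γ, hγ, N, hN, hD⟩ := reflect_proj PCond.isProj_s D1_closed M
      (RO.lower _ hq₁s (kauf_pa h)) b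
    obtain ⟨d, hd⟩ := (hbd _ N hN).2 ⟨b, hγ⟩
    refine ⟨r, hr, d, fun v h1 h2 => ?_⟩
    by_contra hc
    obtain ⟨t, ht, ht'⟩ := RO.not_mem_iff.1 hc
    obtain ⟨r', hr', hr''⟩ := PCond.isProj_s.lift r t ht
    obtain ⟨δ, hδ⟩ := exists_bound (I := ℕ) countable_le_aleph1 v
    obtain ⟨r₁, hr₁, γ', hγ', N', hN', hD'⟩ := reflect_proj PCond.isProj_s D1_closed M
      (RO.lower _ (hr'.1.trans (hr.1.trans hq₁s)) (kauf_pa h)) δ
    have h3 : ¬ bd.sat N' (fun k => ⟨v k, (hδ k).trans hγ'⟩) := by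
      rw [Decides.neg hD']
      exact RO.lower _ (hr₁.1.trans hr'') ht'
    -- contradiction: `bd` is equivalent to a formula decided by `r`
    have h4 : bd.sat N (fun k => if k = 2 then d else ⟨b, hγ⟩) := by
      rw [(hbd _ N hN).1]
      simpa using hd
    rw [hD] at h4
    have h5 := RO.lower _ (hr₁.1.trans hr'.1) h4
    have hdγ : (d : K2) < γ' := by
      have := (hδ 2).trans hγ'
      rw [h2] at this
      exact this
    have hbγ : b < γ' := by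
      have := (hδ 1).trans hγ'
      rw [h1] at this
      exact this
    have h6 : bd.sat N' (fun k => if k = 2 then ⟨d, hdγ⟩ else ⟨b, hbγ⟩) := by
      rw [hD']
      convert h5 using 3
      funext k
      split_ifs <;> rfl
    rw [(hbd _ N' hN').1] at h6 h3
    apply h3
    have e1 : (⟨v 1, (hδ 1).trans hγ'⟩ : Iio γ') = ⟨b, hbγ⟩ := Subtype.ext h1
    have e2 : (⟨v 2, (hδ 2).trans hγ'⟩ : Iio γ') = ⟨d, hdγ⟩ := Subtype.ext h2
    simp only [e1, e2]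
    simpa using h6
  have hq₂s : q₂.s ≤ s₀ := hq₂.1.trans hq₁s
  obtain ⟨q₃, hq₃, β, hβ⟩ := exists_seg h q₂ hq₂s d
  obtain ⟨q₄, hq₄, hq₄D⟩ := D1_closed.dist (I := Iio α × Iio β) (by
      rw [mk_prod, Cardinal.lift_id, Cardinal.lift_id]
      exact (mul_le_mul' (mk_Iio_K2 α) (mk_Iio_K2 β)).trans (mul_eq_self (aleph0_le_aleph 1)).le)
    (fun x => {q : D1 | q.s ∈ (elv M x.1 x.2).carrier ∨ q.s ∈ ((elv M x.1 x.2)ᶜ).carrier})
    (fun z p q hqp hp => hp.imp (RO.lower _ hqp.1) (RO.lower _ hqp.1)) q₃ (by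
      intro x r _
      obtain ⟨u, hu, hu'⟩ := RO.decide (elv M x.1 x.2) r.s
      obtain ⟨r', hr', hr''⟩ := PCond.isProj_s.lift r u hu
      exact ⟨r', hr', hu'.imp (RO.lower _ hr'') (RO.lower _ hr'')⟩)
  refine ⟨q₄, hq₄.trans (hq₃.trans (hq₂.trans hq₁)),
    (fun c : Iio β => {z | z < α ∧ q₄.s ∈ (elv M z c).carrier}) '' univ,
    mk_image_le.trans ((mk_univ).le.trans (mk_Iio_K2 β)), ?_⟩
  intro q' hq' Z hZ
  obtain ⟨t, ht, c, b', hG⟩ := hZ q'.s le_rfl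
  obtain ⟨r, hr, hr'⟩ := PCond.isProj_s.lift q' t ht
  have hrs : r.s ≤ s₀ := hr.1.trans (hq'.1.trans (hq₄.1.trans (hq₃.1.trans hq₂s)))
  obtain ⟨δ, hδ⟩ := exists_bound (I := Fin 4) countable_le_aleph1 ![α, b, d, c]
  have hδα : α < δ := hδ 0
  have hδb : b < δ := hδ 1
  have hδd : d < δ := hδ 2
  have hδc : c < δ := hδ 3
  obtain ⟨r₁, hr₁, γ, hγ, N, hN, hD⟩ := reflect_proj PCond.isProj_s D1_closed M
    (RO.lower _ hrs (kauf_pa h)) δ
  have h1 : bd.sat N (fun k => if k = 2 then ⟨d, hδd.trans hγ⟩ else ⟨b, hδb.trans hγ⟩) := by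
    rw [hD]
    refine RO.lower _ ((hr₁.trans (hr.trans (hq'.trans (hq₄.trans hq₃)))).1) (hd _ ?_ ?_) <;> simp
  rw [(hbd _ N hN).1] at h1
  obtain ⟨c', hc', hcc'⟩ := h1 ⟨c, hδc.trans hγ⟩
  simp only [if_true, one_ne_zero, if_false] at hc' hcc'
  rw [Decides.lt_iff hD] at hc'
  have hc'β : (c' : K2) < β := by
    by_contra hcon
    exact not_mem_both hc' (RO.lower _ (hr₁.trans (hr.trans (hq'.trans hq₄))).1
      (hβ _ (not_lt.1 hcon)))
  refine ⟨⟨c', hc'β⟩, mem_univ _, ?_⟩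
  have hr₁t : r₁.s ≤ t := hr₁.1.trans hr'
  have hr₁q : r₁.s ≤ q₄.s := (hr₁.trans (hr.trans hq')).1
  ext z
  constructor
  · rintro ⟨hz, hz'⟩
    by_contra hcon
    have h2 := RO.lower _ hr₁t (hG.neg z hz hcon)
    have hzγ : z < γ := hz.trans (hδα.trans hγ)
    have h3 : N.lt ⟨z, hzγ⟩ ⟨b, hδb.trans hγ⟩ := by
      rw [Decides.lt_iff hD]
      exact RO.lower _ (hr₁.trans (hr.trans (hq'.trans (hq₄.trans (hq₃.trans hq₂))))).1 (hb z hz)
    have h4 := hcc' ⟨z, hzγ⟩ (by simpa using h3)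
    rw [Decides.el_iff H hD, Decides.el_iff H hD] at h4
    exact not_mem_both (h4.1 (RO.lower _ hr₁q hz')) h2
  · intro hz
    have hzα := hG.sub hz
    refine ⟨hzα, ?_⟩
    have h2 := RO.lower _ hr₁t (hG.pos z hzα hz)
    have hzγ : z < γ := (mem_Iio.1 hzα).trans (hδα.trans hγ)
    have h3 : N.lt ⟨z, hzγ⟩ ⟨b, hδb.trans hγ⟩ := by
      rw [Decides.lt_iff hD]
      exact RO.lower _ (hr₁.trans (hr.trans (hq'.trans (hq₄.trans (hq₃.trans hq₂))))).1 (hb z hzα)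
    have h4 := hcc' ⟨z, hzγ⟩ (by simpa using h3)
    rw [Decides.el_iff H hD, Decides.el_iff H hD] at h4
    have h5 := h4.2 h2
    rcases hq₄D (⟨z, hzα⟩, ⟨c', hc'β⟩) with h6 | h6
    · exact h6
    · exact (not_mem_both h5 (RO.lower _ hr₁q h6)).elim

end Pool.Agent.Helper84.Kauf
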