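import Pool.Agent.Helper84.Kauf.Syn

set_option autoImplicit false

/-!
# Definable predicates of two-valued structures
-/

open Function

namespace Pool.Agent.Helper84.Kauf

variable {A : Type}

/-! ## Congruence -/

theorem Tm.ev_congr (N : NStr A) (t : Tm) {v w : ℕ → A} (h : ∀ k ∈ t.vars, v k = w k) :
    t.ev N v = t.ev N w := by
  induction t with
  | var k => exact h k (by simp [Tm.vars])
  | zero => rfl
  | one => rfl
  | add t u iht ihu =>
    simp only [Tm.ev]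
    rw [iht (fun k hk => h k (by simp [Tm.vars, hk])), ihu (fun k hk => h k (by simp [Tm.vars, hk]))]
  | mul t u iht ihu =>
    simp only [Tm.ev]
    rw [iht (fun k hk => h k (by simp [Tm.vars, hk])), ihu (fun k hk => h k (by simp [Tm.vars, hk]))]

/-- A1 -/
theorem Fm.sat_congr (N : NStr A) (φ : Fm) : ∀ {v w : ℕ → A}, (∀ k ∈ φ.fv, v k = w k) →
    (φ.sat N v ↔ φ.sat N w) := by
  induction φ with
  | eq t u =>
    intro v w h
    simp only [Fm.sat]
    rw [t.ev_congr N (fun k hk => h k (by simp [Fm.fv, hk])),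
      u.ev_congr N (fun k hk => h k (by simp [Fm.fv, hk]))]
  | lt t u =>
    intro v w h
    simp only [Fm.sat]
    rw [t.ev_congr N (fun k hk => h k (by simp [Fm.fv, hk])),
      u.ev_congr N (fun k hk => h k (by simp [Fm.fv, hk]))]
  | bot => intro v w _; rfl
  | imp φ ψ ihφ ihψ =>
    intro v w h
    simp only [Fm.sat]
    rw [ihφ (fun k hk => h k (by simp [Fm.fv, hk])), ihψ (fun k hk => h k (by simp [Fm.fv, hk]))]
  | all m φ ih =>
    intro v w h
    simp only [Fm.sat]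
    apply forall_congr'
    intro a
    apply ih
    intro k hk
    by_cases hkm : k = m
    · subst hkm; simp
    · rw [update_of_ne hkm, update_of_ne hkm]
      exact h k (by simp [Fm.fv, hk, hkm])

@[simp] lemma Fm.sat_neg (N : NStr A) (φ : Fm) (v : ℕ → A) :
    φ.neg.sat N v ↔ ¬ φ.sat N v := Iff.rfl

@[simp] lemma Fm.sat_ex (N : NStr A) (k : ℕ) (φ : Fm) (v : ℕ → A) :
    (Fm.ex k φ).sat N v ↔ ∃ a, φ.sat N (update v k a) := by
  simp [Fm.ex, Fm.neg, Fm.sat]

@[simp] lemma Fm.sat_and (N : NStr A) (φ ψ : Fm) (v : ℕ → A) :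
    (φ.and ψ).sat N v ↔ φ.sat N v ∧ ψ.sat N v := by
  simp [Fm.and, Fm.neg, Fm.sat]

@[simp] lemma Fm.sat_iff (N : NStr A) (φ ψ : Fm) (v : ℕ → A) :
    (φ.iff ψ).sat N v ↔ (φ.sat N v ↔ ψ.sat N v) := by
  simp only [Fm.iff, Fm.sat_and, Fm.sat]
  exact ⟨fun h => ⟨h.1, h.2⟩, fun h => ⟨h.1, h.2⟩⟩

@[simp] lemma Fm.sat_imp (N : NStr A) (φ ψ : Fm) (v : ℕ → A) :
    (Fm.imp φ ψ).sat N v ↔ (φ.sat N v → ψ.sat N v) := Iff.rfl

@[simp] lemma Fm.sat_all (N : NStr A) (k : ℕ) (φ : Fm) (v : ℕ → A) :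
    (Fm.all k φ).sat N v ↔ ∀ a, φ.sat N (update v k a) := Iff.rfl

@[simp] lemma Fm.sat_eq (N : NStr A) (t u : Tm) (v : ℕ → A) :
    (Fm.eq t u).sat N v ↔ t.ev N v = u.ev N v := Iff.rfl

@[simp] lemma Fm.sat_lt (N : NStr A) (t u : Tm) (v : ℕ → A) :
    (Fm.lt t u).sat N v ↔ N.lt (t.ev N v) (u.ev N v) := Iff.rfl

@[simp] lemma Tm.ev_num (N : NStr A) (n : ℕ) (v : ℕ → A) : (Tm.num n).ev N v = N.num n := by
  induction n with
  | zero => rfl
  | succ n ih => simp [Tm.num, Tm.ev, NStr.num, ih]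

@[simp] lemma Tm.ev_pr (N : NStr A) (t u : Tm) (v : ℕ → A) :
    (Tm.pr t u).ev N v = N.pr (t.ev N v) (u.ev N v) := rfl

@[simp] lemma Tm.vars_num (n : ℕ) : (Tm.num n).vars = ∅ := by
  induction n with
  | zero => rfl
  | succ n ih => simp [Tm.num, Tm.vars, ih]

lemma Tm.vars_pr (t u : Tm) : (Tm.pr t u).vars = t.vars ∪ u.vars := by
  ext k
  simp only [Tm.pr, Tm.vars, Finset.mem_union]
  tauto

/-- A2 -/
theorem Fm.sat_el (N : NStr A) (t s : Tm) (k : ℕ) (v : ℕ → A) (ht : ∀ j ∈ t.vars, j < k)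
    (hs : ∀ j ∈ s.vars, j < k) :
    (Fm.el t s k).sat N v ↔ N.El (t.ev N v) (s.ev N v) := by
  have key : ∀ (r : Tm), (∀ j ∈ r.vars, j < k) → ∀ a b c,
      r.ev N (update (update (update v k a) (k + 1) b) (k + 2) c) = r.ev N v := by
    intro r hr a b c
    apply r.ev_congr
    intro j hj
    have := hr j hj
    rw [update_of_ne (by omega), update_of_ne (by omega), update_of_ne (by omega)]
  simp only [Fm.el, Fm.sat_ex, Fm.sat_and, Fm.sat_eq, Tm.ev_pr, Tm.ev, NStr.El, key t ht, key s hs,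
    update_self]
  simp

/-! ## Renaming of variables -/

lemma Tm.exists_rename (N : NStr A) (t : Tm) (e : ℕ → ℕ) :
    ∃ t' : Tm, ∀ v : ℕ → A, t'.ev N v = t.ev N (v ∘ e) := by
  induction t with
  | var k => exact ⟨.var (e k), fun v => rfl⟩
  | zero => exact ⟨.zero, fun v => rfl⟩
  | one => exact ⟨.one, fun v => rfl⟩
  | add t u iht ihu =>
    obtain ⟨t', ht⟩ := iht
    obtain ⟨u', hu⟩ := ihu
    exact ⟨.add t' u', fun v => by simp only [Tm.ev, ht, hu]⟩
  | mul t u iht ihu =>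
    obtain ⟨t', ht⟩ := iht
    obtain ⟨u', hu⟩ := ihu
    exact ⟨.mul t' u', fun v => by simp only [Tm.ev, ht, hu]⟩

lemma Fm.exists_rename (N : NStr A) (φ : Fm) :
    ∀ e : ℕ → ℕ, ∃ φ' : Fm, ∀ v : ℕ → A, φ'.sat N v ↔ φ.sat N (v ∘ e) := by
  induction φ with
  | eq t u =>
    intro e
    obtain ⟨t', ht⟩ := t.exists_rename N e
    obtain ⟨u', hu⟩ := u.exists_rename N e
    exact ⟨.eq t' u', fun v => by simp only [Fm.sat_eq, ht, hu]⟩
  | lt t u =>
    intro e
    obtain ⟨t', ht⟩ := t.exists_rename N e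
    obtain ⟨u', hu⟩ := u.exists_rename N e
    exact ⟨.lt t' u', fun v => by simp only [Fm.sat_lt, ht, hu]⟩
  | bot => exact fun e => ⟨.bot, fun v => Iff.rfl⟩
  | imp φ ψ ihφ ihψ =>
    intro e
    obtain ⟨φ', hφ⟩ := ihφ e
    obtain ⟨ψ', hψ⟩ := ihψ e
    exact ⟨.imp φ' ψ', fun v => by simp only [Fm.sat_imp, hφ, hψ]⟩
  | all k φ ih =>
    intro e
    obtain ⟨m, hm⟩ := Infinite.exists_notMem_finset (φ.fv.image e)
    obtain ⟨φ', hφ⟩ := ih (update e k m)
    refine ⟨.all m φ', fun v => ?_⟩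
    simp only [Fm.sat_all, hφ]
    apply forall_congr'
    intro a
    apply φ.sat_congr N
    intro j hj
    by_cases hjk : j = k
    · subst hjk; simp
    · simp only [comp_apply, update_of_ne hjk]
      rw [update_of_ne]
      rintro rfl
      exact hm (Finset.mem_image_of_mem _ hj)

/-! ## Definability without parameters -/

/-- definable functions of an assignment (given by a term) -/
def Dft (N : NStr A) (f : (ℕ → A) → A) : Prop := ∃ t : Tm, ∀ v, f v = t.ev N v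

/-- definable predicates of an assignment -/
def Dfv (N : NStr A) (P : (ℕ → A) → Prop) : Prop := ∃ φ : Fm, ∀ v, P v ↔ φ.sat N v

/-- put a new value in front -/
def push (a : A) (v : ℕ → A) : ℕ → A
  | 0 => a
  | n + 1 => v n

section
variable {N : NStr A}

lemma Dft.var (k : ℕ) : Dft N (fun v => v k) := ⟨.var k, fun _ => rfl⟩
lemma Dft.zero : Dft N (fun _ => N.zero) := ⟨.zero, fun _ => rfl⟩
lemma Dft.one : Dft N (fun _ => N.one) := ⟨.one, fun _ => rfl⟩
lemma Dft.num (n : ℕ) : Dft N (fun _ => N.num n) := ⟨Tm.num n, fun v => (Tm.ev_num N n v).symm⟩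

lemma Dft.add {f g : (ℕ → A) → A} (hf : Dft N f) (hg : Dft N g) :
    Dft N (fun v => N.add (f v) (g v)) := by
  obtain ⟨t, ht⟩ := hf
  obtain ⟨u, hu⟩ := hg
  exact ⟨.add t u, fun v => by beta_reduce; rw [ht, hu]; rfl⟩

lemma Dft.mul {f g : (ℕ → A) → A} (hf : Dft N f) (hg : Dft N g) :
    Dft N (fun v => N.mul (f v) (g v)) := by
  obtain ⟨t, ht⟩ := hf
  obtain ⟨u, hu⟩ := hg
  exact ⟨.mul t u, fun v => by beta_reduce; rw [ht, hu]; rfl⟩

lemma Dft.pr {f g : (ℕ → A) → A} (hf : Dft N f) (hg : Dft N g) :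
    Dft N (fun v => N.pr (f v) (g v)) := ((hf.add hg).mul (hf.add hg)).add hf

lemma Dft.comp {f : (ℕ → A) → A} (hf : Dft N f) (e : ℕ → ℕ) : Dft N (fun v => f (v ∘ e)) := by
  obtain ⟨t, ht⟩ := hf
  obtain ⟨t', ht'⟩ := t.exists_rename N e
  exact ⟨t', fun v => by beta_reduce; rw [ht, ht']⟩

lemma Dfv.comp {P : (ℕ → A) → Prop} (hP : Dfv N P) (e : ℕ → ℕ) : Dfv N (fun v => P (v ∘ e)) := by
  obtain ⟨φ, hφ⟩ := hP
  obtain ⟨φ', hφ'⟩ := φ.exists_rename N e
  exact ⟨φ', fun v => by beta_reduce; rw [hφ, hφ']⟩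

lemma Dfv.sat (φ : Fm) : Dfv N (fun v => φ.sat N v) := ⟨φ, fun _ => Iff.rfl⟩

lemma Dfv.eq {f g : (ℕ → A) → A} (hf : Dft N f) (hg : Dft N g) : Dfv N (fun v => f v = g v) := by
  obtain ⟨t, ht⟩ := hf
  obtain ⟨u, hu⟩ := hg
  exact ⟨.eq t u, fun v => by beta_reduce; rw [ht, hu]; rfl⟩

lemma Dfv.lt {f g : (ℕ → A) → A} (hf : Dft N f) (hg : Dft N g) :
    Dfv N (fun v => N.lt (f v) (g v)) := by
  obtain ⟨t, ht⟩ := hf
  obtain ⟨u, hu⟩ := hg
  exact ⟨.lt t u, fun v => by beta_reduce; rw [ht, hu]; rfl⟩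

lemma Dfv.false : Dfv N (fun _ => False) := ⟨.bot, fun _ => Iff.rfl⟩

lemma Dfv.imp {P Q : (ℕ → A) → Prop} (hP : Dfv N P) (hQ : Dfv N Q) :
    Dfv N (fun v => P v → Q v) := by
  obtain ⟨φ, hφ⟩ := hP
  obtain ⟨ψ, hψ⟩ := hQ
  exact ⟨.imp φ ψ, fun v => by beta_reduce; rw [hφ, hψ]; rfl⟩

lemma Dfv.congr {P Q : (ℕ → A) → Prop} (hP : Dfv N P) (h : ∀ v, Q v ↔ P v) : Dfv N Q := by
  obtain ⟨φ, hφ⟩ := hP
  exact ⟨φ, fun v => (h v).trans (hφ v)⟩

lemma Dfv.not {P : (ℕ → A) → Prop} (hP : Dfv N P) : Dfv N (fun v => ¬ P v) := hP.imp .false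

lemma Dfv.and {P Q : (ℕ → A) → Prop} (hP : Dfv N P) (hQ : Dfv N Q) :
    Dfv N (fun v => P v ∧ Q v) := (hP.imp hQ.not).not.congr fun v => by tauto

lemma Dfv.or {P Q : (ℕ → A) → Prop} (hP : Dfv N P) (hQ : Dfv N Q) :
    Dfv N (fun v => P v ∨ Q v) := (hP.not.imp hQ).congr fun v => by tauto

lemma Dfv.iff {P Q : (ℕ → A) → Prop} (hP : Dfv N P) (hQ : Dfv N Q) :
    Dfv N (fun v => (P v ↔ Q v)) := ((hP.imp hQ).and (hQ.imp hP)).congr fun v => by tauto

lemma Dfv.all {F : (ℕ → A) → A → Prop} (h : Dfv N (fun w => F (fun k => w (k + 1)) (w 0))) :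
    Dfv N (fun v => ∀ a, F v a) := by
  obtain ⟨φ, hφ⟩ := h
  obtain ⟨m, hm⟩ := Infinite.exists_notMem_finset (φ.fv.image Nat.pred)
  obtain ⟨φ', hφ'⟩ := φ.exists_rename N (fun k => Nat.casesOn k m id)
  refine ⟨.all m φ', fun v => ?_⟩
  rw [Fm.sat_all]
  apply forall_congr'
  intro a
  rw [hφ']
  refine (hφ (push a v)).trans ?_
  apply φ.sat_congr
  intro k hk
  cases k with
  | zero => simp [push]
  | succ k =>
    simp only [push, comp_apply, id]
    rw [update_of_ne]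
    rintro rfl
    exact hm (Finset.mem_image.2 ⟨_, hk, rfl⟩)

lemma Dfv.ex {F : (ℕ → A) → A → Prop} (h : Dfv N (fun w => F (fun k => w (k + 1)) (w 0))) :
    Dfv N (fun v => ∃ a, F v a) :=
  (Dfv.all (F := fun v a => ¬ F v a) h.not).not.congr fun v => by push Not; rfl

end

/-! ## Definability with parameters -/

/-- a pairing -/
def EN : ℕ ⊕ ℕ ≃ ℕ := Equiv.natSumNatEquivNat

/-- the assignment `v` on the variables and `p` on the parameters -/
def il (v p : ℕ → A) : ℕ → A := Sum.elim v p ∘ EN.symm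

/-- terms with parameters -/
def DT (N : NStr A) (f : (ℕ → A) → A) : Prop := ∃ t : Tm, ∃ p : ℕ → A, ∀ v, f v = t.ev N (il v p)

/-- predicates of assignments which are definable with parameters -/
def DP (N : NStr A) (P : (ℕ → A) → Prop) : Prop :=
  ∃ φ : Fm, ∃ p : ℕ → A, ∀ v, P v ↔ φ.sat N (il v p)

lemma il_left (p q : ℕ → A) : ∃ e : ℕ → ℕ, ∀ v, il v p = il v (il p q) ∘ e := by
  refine ⟨fun k => EN (Sum.map id (fun j => EN (Sum.inl j))
    (EN.symm k)), fun v => ?_⟩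
  funext k
  simp only [il, comp_apply, Equiv.symm_apply_apply]
  rcases EN.symm k with j | j <;> simp

lemma il_right (p q : ℕ → A) : ∃ e : ℕ → ℕ, ∀ v, il v q = il v (il p q) ∘ e := by
  refine ⟨fun k => EN (Sum.map id (fun j => EN (Sum.inr j))
    (EN.symm k)), fun v => ?_⟩
  funext k
  simp only [il, comp_apply, Equiv.symm_apply_apply]
  rcases EN.symm k with j | j <;> simp

lemma il_push : ∃ e : ℕ → ℕ, ∀ (a : A) (v p : ℕ → A), il (push a v) p = push a (il v p) ∘ e := by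
  refine ⟨fun k => Sum.elim (fun j => Nat.casesOn j 0
    (fun i => EN (Sum.inl i) + 1))
    (fun j => EN (Sum.inr j) + 1) (EN.symm k),
    fun a v p => ?_⟩
  funext k
  simp only [il, comp_apply]
  rcases EN.symm k with j | j
  · cases j with
    | zero => rfl
    | succ j => simp [push]
  · simp [push]

section
variable {N : NStr A}

lemma DT.of_Dft {f : (ℕ → A) → A} (hf : Dft N f) : DT N f := by
  obtain ⟨t, ht⟩ := hf
  obtain ⟨t', ht'⟩ := t.exists_rename N (fun k => EN (Sum.inl k))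
  refine ⟨t', fun _ => N.zero, fun v => ?_⟩
  rw [ht', ht]
  congr 1
  funext k
  simp [il]

lemma DP.of_Dfv {P : (ℕ → A) → Prop} (hP : Dfv N P) : DP N P := by
  obtain ⟨φ, hφ⟩ := hP
  obtain ⟨φ', hφ'⟩ := φ.exists_rename N (fun k => EN (Sum.inl k))
  refine ⟨φ', fun _ => N.zero, fun v => ?_⟩
  rw [hφ', hφ]
  have : (il v fun _ => N.zero) ∘ (fun k => EN (Sum.inl k)) = v := by
    funext k
    simp [il]
  rw [this]

lemma DT.const (a : A) : DT N (fun _ => a) :=
  ⟨.var (EN (Sum.inr 0)), fun _ => a, fun v => by simp [Tm.ev, il]⟩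

lemma DT.var (k : ℕ) : DT N (fun v => v k) := DT.of_Dft (Dft.var k)

lemma DT.merge {f g : (ℕ → A) → A} (hf : DT N f) (hg : DT N g) :
    ∃ t u : Tm, ∃ p : ℕ → A, (∀ v, f v = t.ev N (il v p)) ∧ (∀ v, g v = u.ev N (il v p)) := by
  obtain ⟨t, p, ht⟩ := hf
  obtain ⟨u, q, hu⟩ := hg
  obtain ⟨e, he⟩ := il_left p q
  obtain ⟨e', he'⟩ := il_right p q
  obtain ⟨t', ht'⟩ := t.exists_rename N e
  obtain ⟨u', hu'⟩ := u.exists_rename N e'
  exact ⟨t', u', il p q, fun v => by rw [ht, ht', ← he], fun v => by rw [hu, hu', ← he']⟩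

lemma DP.merge {P Q : (ℕ → A) → Prop} (hP : DP N P) (hQ : DP N Q) :
    ∃ φ ψ : Fm, ∃ p : ℕ → A, (∀ v, P v ↔ φ.sat N (il v p)) ∧ (∀ v, Q v ↔ ψ.sat N (il v p)) := by
  obtain ⟨t, p, ht⟩ := hP
  obtain ⟨u, q, hu⟩ := hQ
  obtain ⟨e, he⟩ := il_left p q
  obtain ⟨e', he'⟩ := il_right p q
  obtain ⟨t', ht'⟩ := t.exists_rename N e
  obtain ⟨u', hu'⟩ := u.exists_rename N e'
  exact ⟨t', u', il p q, fun v => by rw [ht, ht', ← he], fun v => by rw [hu, hu', ← he']⟩

lemma DT.add {f g : (ℕ → A) → A} (hf : DT N f) (hg : DT N g) :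
    DT N (fun v => N.add (f v) (g v)) := by
  obtain ⟨t, u, p, ht, hu⟩ := hf.merge hg
  exact ⟨.add t u, p, fun v => by beta_reduce; rw [ht, hu]; rfl⟩

lemma DT.mul {f g : (ℕ → A) → A} (hf : DT N f) (hg : DT N g) :
    DT N (fun v => N.mul (f v) (g v)) := by
  obtain ⟨t, u, p, ht, hu⟩ := hf.merge hg
  exact ⟨.mul t u, p, fun v => by beta_reduce; rw [ht, hu]; rfl⟩

lemma DT.pr {f g : (ℕ → A) → A} (hf : DT N f) (hg : DT N g) :
    DT N (fun v => N.pr (f v) (g v)) := ((hf.add hg).mul (hf.add hg)).add hf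

lemma DP.eq {f g : (ℕ → A) → A} (hf : DT N f) (hg : DT N g) : DP N (fun v => f v = g v) := by
  obtain ⟨t, u, p, ht, hu⟩ := hf.merge hg
  exact ⟨.eq t u, p, fun v => by beta_reduce; rw [ht, hu]; rfl⟩

lemma DP.lt {f g : (ℕ → A) → A} (hf : DT N f) (hg : DT N g) :
    DP N (fun v => N.lt (f v) (g v)) := by
  obtain ⟨t, u, p, ht, hu⟩ := hf.merge hg
  exact ⟨.lt t u, p, fun v => by beta_reduce; rw [ht, hu]; rfl⟩

lemma DP.false : DP N (fun _ => False) := DP.of_Dfv Dfv.false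

lemma DP.imp {P Q : (ℕ → A) → Prop} (hP : DP N P) (hQ : DP N Q) :
    DP N (fun v => P v → Q v) := by
  obtain ⟨φ, ψ, p, hφ, hψ⟩ := hP.merge hQ
  exact ⟨.imp φ ψ, p, fun v => by beta_reduce; rw [hφ, hψ]; rfl⟩

lemma DP.congr {P Q : (ℕ → A) → Prop} (hP : DP N P) (h : ∀ v, Q v ↔ P v) : DP N Q := by
  obtain ⟨φ, p, hφ⟩ := hP
  exact ⟨φ, p, fun v => (h v).trans (hφ v)⟩

lemma DP.not {P : (ℕ → A) → Prop} (hP : DP N P) : DP N (fun v => ¬ P v) := hP.imp .false

lemma DP.and {P Q : (ℕ → A) → Prop} (hP : DP N P) (hQ : DP N Q) :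
    DP N (fun v => P v ∧ Q v) := (hP.imp hQ.not).not.congr fun v => by tauto

lemma DP.or {P Q : (ℕ → A) → Prop} (hP : DP N P) (hQ : DP N Q) :
    DP N (fun v => P v ∨ Q v) := (hP.not.imp hQ).congr fun v => by tauto

lemma DP.iff {P Q : (ℕ → A) → Prop} (hP : DP N P) (hQ : DP N Q) :
    DP N (fun v => (P v ↔ Q v)) := ((hP.imp hQ).and (hQ.imp hP)).congr fun v => by tauto

lemma DP.all {F : (ℕ → A) → A → Prop} (h : DP N (fun w => F (fun k => w (k + 1)) (w 0))) :
    DP N (fun v => ∀ a, F v a) := by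
  obtain ⟨φ, p, hφ⟩ := h
  obtain ⟨e, he⟩ := il_push (A := A)
  obtain ⟨φ', hφ'⟩ := φ.exists_rename N e
  have h1 : Dfv N (fun v => ∀ a, φ'.sat N (push a v)) := by
    apply Dfv.all (F := fun v a => φ'.sat N (push a v))
    refine ⟨φ', fun v => ?_⟩
    beta_reduce
    have : push (v 0) (fun k => v (k + 1)) = v := by
      funext k
      cases k <;> rfl
    rw [this]
  obtain ⟨ψ, hψ⟩ := h1
  refine ⟨ψ, p, fun v => ?_⟩
  rw [← hψ]
  apply forall_congr'
  intro a
  rw [hφ', ← he, ← hφ]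
  rfl

lemma DP.ex {F : (ℕ → A) → A → Prop} (h : DP N (fun w => F (fun k => w (k + 1)) (w 0))) :
    DP N (fun v => ∃ a, F v a) :=
  (DP.all (F := fun v a => ¬ F v a) h.not).not.congr fun v => by push Not; rfl

lemma DP.const (p : Prop) : DP N (fun _ => p) := by
  by_cases h : p
  · exact DP.false.not.congr fun _ => by simp [h]
  · exact DP.false.congr fun _ => by simp [h]

/-- a formula, with the value of a term for the variable `v_k` -/
lemma DP.sat_update (φ : Fm) (v₀ : ℕ → A) (k : ℕ) {f : (ℕ → A) → A} (hf : DT N f) :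
    DP N (fun v => φ.sat N (update v₀ k (f v))) := by
  obtain ⟨φ', hφ'⟩ := φ.exists_rename N
    (fun j => if j = k then EN (Sum.inl 0)
      else EN (Sum.inr j))
  have h1 : DP N (fun v => ∀ a, a = f v → φ.sat N (update v₀ k a)) := by
    apply DP.all
    apply DP.imp
    · apply DP.eq (DT.var 0)
      obtain ⟨t, p, ht⟩ := hf
      obtain ⟨t', ht'⟩ := t.exists_rename N (fun j => EN
        (Sum.map (fun i => i + 1) id (EN.symm j)))
      refine ⟨t', p, fun v => ?_⟩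
      beta_reduce
      rw [ht, ht']
      congr 1
      funext j
      simp only [il, comp_apply, Equiv.symm_apply_apply]
      rcases EN.symm j with i | i <;> simp
    · refine ⟨φ', v₀, fun v => ?_⟩
      beta_reduce
      rw [hφ']
      have : il v v₀ ∘ (fun j => if j = k then EN (Sum.inl 0)
          else EN (Sum.inr j)) = update v₀ k (v 0) := by
        funext j
        by_cases hj : j = k
        · subst hj; simp [il]
        · simp [il, hj]
      rw [this]
  exact h1.congr fun v => by simp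

/-- a formula without parameters, all variables being replaced by the value of a term -/
lemma DP.sat_const (φ : Fm) {f : (ℕ → A) → A} (hf : DT N f) :
    DP N (fun v => φ.sat N (fun _ => f v)) := by
  obtain ⟨t, p, ht⟩ := hf
  obtain ⟨φ', hφ'⟩ := φ.exists_rename N (fun _ => 0)
  obtain ⟨h1, hh⟩ := DP.sat_update (N := N) φ' p 0 ⟨t, p, ht⟩
  refine ⟨h1, hh.imp fun q hq v => ?_⟩
  rw [← hq]
  beta_reduce
  rw [hφ']
  have : (update p 0 (f v)) ∘ (fun _ : ℕ => (0 : ℕ)) = fun _ => f v := by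
    funext j
    simp
  rw [this]

lemma DP.El {f g : (ℕ → A) → A} (hf : DT N f) (hg : DT N g) :
    DP N (fun v => N.El (f v) (g v)) := by
  obtain ⟨t, u, p, ht, hu⟩ := hf.merge hg
  obtain ⟨m, hm⟩ := (t.vars ∪ u.vars).exists_nat_subset_range
  refine ⟨Fm.el t u m, p, fun v => ?_⟩
  beta_reduce
  rw [Fm.sat_el N t u m, ht, hu]
  · intro j hj
    exact Finset.mem_range.1 (hm (Finset.mem_union_left _ hj))
  · intro j hj
    exact Finset.mem_range.1 (hm (Finset.mem_union_right _ hj))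

lemma DP.list_ex {ι : Type*} {F : List ι} {P : ι → (ℕ → A) → Prop} (h : ∀ i ∈ F, DP N (P i)) :
    DP N (fun v => ∃ i ∈ F, P i v) := by
  induction F with
  | nil => exact DP.false.congr fun v => by simp
  | cons i F ih =>
    exact ((h i List.mem_cons_self).or (ih fun j hj => h j (List.mem_cons_of_mem _ hj))).congr
      fun v => by simp

/-- induction for predicates which are definable with parameters -/
theorem NStr.PA.induct (hN : N.PA) {P : A → Prop} (hP : DP N (fun v => P (v 0)))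
    (h0 : P N.zero) (hs : ∀ x, P x → P (N.add x N.one)) (x : A) : P x := by
  obtain ⟨φ, p, hφ⟩ := hP
  have key : ∀ y, P y ↔ φ.sat N (update (il (fun _ => N.zero) p)
      (EN (Sum.inl 0)) y) := by
    intro y
    have h1 := hφ (update (fun _ => N.zero) 0 y)
    simp only [update_self] at h1
    have : il (update (fun _ => N.zero) 0 y) p = update (il (fun _ => N.zero) p)
        (EN (Sum.inl 0)) y := by
      funext j
      obtain ⟨s, rfl⟩ := EN.surjective j
      have e1 : ∀ v : ℕ → A, il v p (EN s) = Sum.elim v p s := fun v => by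
        rw [il, comp_apply, Equiv.symm_apply_apply]
      by_cases hs : s = Sum.inl 0
      · subst hs
        rw [e1, update_self, Sum.elim_inl, update_self]
      · rw [update_of_ne (fun h => hs (EN.injective h)), e1, e1]
        rcases s with i | i
        · rw [Sum.elim_inl, Sum.elim_inl, update_of_ne (fun h => hs (by rw [h]))]
        · rfl
    rw [h1, this]
  rw [key]
  apply hN.ind φ
  · rw [← key]; exact h0
  · intro y hy
    rw [← key] at hy ⊢
    exact hs y hy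

end

end Pool.Agent.Helper84.Kauf
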