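import Pool.Agent.Helper84.Kauf.PASemi

set_option autoImplicit false

/-!
# Facts on models of Peano arithmetic: codes, bounded codes, overspill, Tarski
-/

open Function

namespace Pool.Agent.Helper84.Kauf

section shift

variable {A : Type} {N : NStr A}

lemma DT.shift {f : (ℕ → A) → A} (hf : DT N f) : DT N (fun w => f (fun k => w (k + 1))) := by
  obtain ⟨t, p, ht⟩ := hf
  obtain ⟨t', ht'⟩ := t.exists_rename N (fun j => EN
    (Sum.map (fun i => i + 1) id (EN.symm j)))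
  refine ⟨t', p, fun v => ?_⟩
  beta_reduce
  rw [ht, ht']
  congr 1
  funext j
  simp only [il, comp_apply, Equiv.symm_apply_apply]
  rcases EN.symm j with i | i <;> simp

end shift

section ordered

variable {A : Type} [CommSemiring A] [LinearOrder A]

lemma DP.dvd' {f g : (ℕ → A) → A} (hf : DT (sN A) f) (hg : DT (sN A) g) :
    DP (sN A) (fun v => f v ∣ g v) := by
  have : DP (sN A) (fun v => ∃ c, g v = f v * c) :=
    DP.ex (F := fun v c => g v = f v * c) (DP.eq hg.shift (DT.mul' hf.shift (DT.var 0)))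
  exact this

lemma DP.le' {f g : (ℕ → A) → A} (hf : DT (sN A) f) (hg : DT (sN A) g) :
    DP (sN A) (fun v => f v ≤ g v) :=
  ((DP.lt' hf hg).or (DP.eq hf hg)).congr fun _ => le_iff_lt_or_eq

variable [IsStrictOrderedRing A] [CanonicallyOrderedAdd A] (h : (sN A).PA)
include h

lemma pa_lt_succ_iff {x y : A} : x < y + 1 ↔ x ≤ y := by
  constructor
  · intro hxy
    rw [pa_lt_iff h] at hxy
    obtain ⟨z, hz⟩ := hxy
    rw [pa_le_iff h]
    refine ⟨z, pa_add_cancel h (z := 1) ?_⟩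
    rw [← hz, add_assoc]
  · intro hxy
    exact hxy.trans_lt (lt_add_one y)

lemma pa_succ_le_iff {x y : A} : x + 1 ≤ y ↔ x < y := by
  constructor
  · intro hxy
    exact (lt_add_one x).trans_le hxy
  · intro hxy
    by_contra hc
    push Not at hc
    rw [pa_lt_succ_iff h] at hc
    exact absurd hxy (not_lt.2 hc)

lemma pa_le_mul_self (x : A) : x ≤ x * x := by
  rcases pa_zero_or h x with rfl | ⟨y, rfl⟩
  · simp
  · have : (y + 1) * (y + 1) = (y + 1) + (y * y + y) := by ring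
    rw [this]
    exact le_self_add

lemma pa_sn_pr (x y : A) : (sN A).pr x y = (x + y) * (x + y) + x := rfl

lemma pa_le_pr_right (x y : A) : x ≤ (sN A).pr y x := by
  rw [pa_sn_pr h]
  calc x ≤ y + x := le_add_self
    _ ≤ (y + x) * (y + x) := pa_le_mul_self h _
    _ ≤ _ := le_self_add

lemma pa_le_pr_left (x y : A) : x ≤ (sN A).pr x y := by
  rw [pa_sn_pr h]
  exact le_add_self

lemma pa_pr_lt {x y x' y' : A} (hlt : x + y < x' + y') : (sN A).pr x y < (sN A).pr x' y' := by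
  rw [pa_sn_pr h, pa_sn_pr h]
  have h1 : x + y + 1 ≤ x' + y' := (pa_succ_le_iff h).2 hlt
  calc (x + y) * (x + y) + x ≤ (x + y) * (x + y) + (x + y) :=
        add_le_add_right le_self_add _
    _ < (x + y) * (x + y) + (x + y) + (x + y + 1) :=
        lt_add_of_pos_right _ (by
          rw [← add_zero (0 : A)]
          exact lt_of_lt_of_le (by simp) le_add_self)
    _ = (x + y + 1) * (x + y + 1) := by ring
    _ ≤ (x' + y') * (x' + y') := mul_le_mul' h1 h1
    _ ≤ _ := le_self_add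

lemma pa_pr_inj {x y x' y' : A} (he : (sN A).pr x y = (sN A).pr x' y') : x = x' ∧ y = y' := by
  have hs : x + y = x' + y' := by
    rcases lt_trichotomy (x + y) (x' + y') with h1 | h1 | h1
    · exact absurd he (pa_pr_lt h h1).ne
    · exact h1
    · exact absurd he (pa_pr_lt h h1).ne'
  rw [pa_sn_pr h, pa_sn_pr h, hs] at he
  have hx : x = x' := by
    rw [add_comm, add_comm _ x'] at he
    exact pa_add_cancel h he
  subst hx
  refine ⟨rfl, ?_⟩
  rw [add_comm, add_comm x y'] at hs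
  exact pa_add_cancel h hs

lemma pa_pr_le {x y x' y' : A} (hx : x ≤ x') (hy : y ≤ y') :
    (sN A).pr x y ≤ (sN A).pr x' y' := by
  rw [pa_sn_pr h, pa_sn_pr h]
  have h1 : x + y ≤ x' + y' := add_le_add hx hy
  exact add_le_add (mul_le_mul' h1 h1) hx

lemma pa_dvd_cancel {a b c : A} (h1 : a ∣ b + c) (h2 : a ∣ b) : a ∣ c := by
  obtain ⟨x, hx⟩ := h1
  obtain ⟨y, rfl⟩ := h2
  rcases le_total y x with hxy | hxy
  · obtain ⟨z, rfl⟩ := (pa_le_iff h _ _).1 hxy
    refine ⟨z, pa_add_cancel h (z := a * y) ?_⟩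
    rw [add_comm c, hx]
    ring
  · obtain ⟨z, rfl⟩ := (pa_le_iff h _ _).1 hxy
    have h3 : c + a * z = 0 := by
      apply pa_add_cancel h (z := a * x)
      rw [zero_add]
      nth_rw 2 [← hx]
      ring
    have h4 : c = 0 := by
      rw [add_comm] at h3
      exact pa_add_eq_zero h h3
    rw [h4]
    exact dvd_zero a

/-- `u` is a common multiple of the numbers up to `a` -/
def Mult (A : Type) [CommSemiring A] [LinearOrder A] (a u : A) : Prop :=
  0 < u ∧ ∀ k, 0 < k → k ≤ a → k ∣ u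

lemma pa_exists_mult (a : A) : ∃ u, Mult A a u := by
  apply pa_ind h (P := fun a => ∃ u, 0 < u ∧ ∀ k, 0 < k → k ≤ a → k ∣ u) (by
    repeat (first | exact DT.var _ | exact DT.const _ | apply DT.add' | apply DT.mul' | apply DT.pr |
      apply DP.eq | apply DP.lt' | apply DP.le' | apply DP.dvd' | apply DP.El | apply DP.imp |
      apply DP.and | apply DP.or | apply DP.iff | apply DP.not | apply DP.all | apply DP.ex))
  · exact ⟨1, zero_lt_one, fun k hk hk0 => absurd hk (not_lt.2 hk0)⟩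
  · rintro a ⟨u, hu, hk⟩
    refine ⟨u * (a + 1), mul_pos hu (lt_of_lt_of_le zero_lt_one le_add_self), ?_⟩
    intro k hk0 hka
    rcases hka.lt_or_eq with h1 | h1
    · exact (hk k hk0 ((pa_lt_succ_iff h).1 h1)).mul_right _
    · rw [h1]
      exact dvd_mul_left _ _

lemma pa_gcd {i u y : A} (hd : 1 + (i + 1) * u ∣ y * u) : 1 + (i + 1) * u ∣ y := by
  have h1 : y * (1 + (i + 1) * u) = (i + 1) * (y * u) + y := by ring
  have h2 : 1 + (i + 1) * u ∣ (i + 1) * (y * u) + y := by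
    rw [← h1]
    exact dvd_mul_left _ _
  exact pa_dvd_cancel h h2 (hd.mul_left _)

lemma pa_coprime {a u i j v : A} (hu : Mult A a u) (hi : i < a) (hj : j < a) (hij : i ≠ j)
    (hd : 1 + (i + 1) * u ∣ v * (1 + (j + 1) * u)) : 1 + (i + 1) * u ∣ v := by
  have key : ∀ k, 0 < k → k ≤ a → 1 + (i + 1) * u ∣ v * (k * u) → 1 + (i + 1) * u ∣ v := by
    intro k hk hka hdk
    obtain ⟨t, ht⟩ := hu.2 k hk hka
    have h1 : 1 + (i + 1) * u ∣ v * k := pa_gcd h (by rwa [mul_assoc])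
    apply pa_gcd h
    have e0 : v * u = v * k * t := by rw [mul_assoc, ← ht]
    rw [e0]
    exact h1.mul_right _
  rcases lt_or_gt_of_ne hij with h1 | h1
  · obtain ⟨z, hz⟩ := (pa_lt_iff h _ _).1 h1
    apply key (z + 1) (lt_of_lt_of_le zero_lt_one le_add_self)
    · exact le_trans (by rw [← hz]; exact le_add_self) hj.le
    · have e1 : v * (1 + (j + 1) * u) = v * (1 + (i + 1) * u) + v * ((z + 1) * u) := by
        rw [← hz]; ring
      rw [e1] at hd
      exact pa_dvd_cancel h hd (dvd_mul_left _ _)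
  · obtain ⟨z, hz⟩ := (pa_lt_iff h _ _).1 h1
    apply key (z + 1) (lt_of_lt_of_le zero_lt_one le_add_self)
    · exact le_trans (by rw [← hz]; exact le_add_self) hi.le
    · have e1 : v * (1 + (i + 1) * u) = v * (1 + (j + 1) * u) + v * ((z + 1) * u) := by
        rw [← hz]; ring
      have hd2 : 1 + (i + 1) * u ∣ v * (1 + (j + 1) * u) + v * ((z + 1) * u) := by
        rw [← e1]
        exact dvd_mul_left _ _
      exact pa_dvd_cancel h hd2 hd

lemma pa_not_dvd_one {i u : A} (hu : 0 < u) : ¬ 1 + (i + 1) * u ∣ 1 := by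
  rintro ⟨q, hq⟩
  have hq0 : 0 < q := by
    rcases pa_zero_or h q with rfl | ⟨y, rfl⟩
    · rw [mul_zero] at hq
      exact absurd hq one_ne_zero
    · exact lt_of_lt_of_le zero_lt_one le_add_self
  have h1 : (1 : A) < 1 + (i + 1) * u :=
    lt_add_of_pos_right _ (mul_pos (lt_of_lt_of_le zero_lt_one le_add_self) hu)
  have h2 : 1 + (i + 1) * u ≤ (1 + (i + 1) * u) * q := by
    have : (1 : A) ≤ q := by
      rw [← zero_add (1 : A)]
      exact (pa_succ_le_iff h).2 hq0
    calc 1 + (i + 1) * u = (1 + (i + 1) * u) * 1 := (mul_one _).symm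
      _ ≤ _ := mul_le_mul' le_rfl this
  rw [← hq] at h2
  exact absurd h1 (not_lt.2 h2)

/-- multiply by the `j`-th modulus if necessary -/
lemma pa_code_step {a u : A} (hu : Mult A a u) {ψ : A → Prop} {j w : A}
    (hw : ∀ i, i < a → (1 + (i + 1) * u ∣ w ↔ i < j ∧ ψ i)) :
    ∃ w', (w' = w ∨ w' = w * (1 + (j + 1) * u)) ∧
      ∀ i, i < a → (1 + (i + 1) * u ∣ w' ↔ i < j + 1 ∧ ψ i) := by
  by_cases hc : j < a ∧ ψ j
  · refine ⟨_, Or.inr rfl, fun i hi => ?_⟩
    by_cases hij : i = j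
    · subst hij
      exact ⟨fun _ => ⟨lt_add_one _, hc.2⟩, fun _ => dvd_mul_left _ _⟩
    · have h1 : 1 + (i + 1) * u ∣ w * (1 + (j + 1) * u) ↔ 1 + (i + 1) * u ∣ w :=
        ⟨pa_coprime h hu hi hc.1 hij, fun hd => hd.mul_right _⟩
      rw [h1, hw i hi, pa_lt_succ_iff h]
      exact and_congr_left fun _ => ⟨fun hlt => hlt.le, fun hle => lt_of_le_of_ne hle hij⟩
  · refine ⟨_, Or.inl rfl, fun i hi => ?_⟩
    rw [hw i hi, pa_lt_succ_iff h]
    constructor
    · exact fun hlt => ⟨hlt.1.le, hlt.2⟩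
    · rintro ⟨hle, hψ⟩
      refine ⟨lt_of_le_of_ne hle ?_, hψ⟩
      rintro rfl
      exact hc ⟨hi, hψ⟩

lemma pa_code {a u : A} (hu : Mult A a u) {ψ : A → Prop} (hψ : DP (sN A) (fun v => ψ (v 0))) :
    ∃ w, ∀ i, i < a → (1 + (i + 1) * u ∣ w ↔ ψ i) := by
  have hψ1 : DP (sN A) (fun v => ψ (v 0)) := hψ
  have key : ∀ j, ∃ w, ∀ i, i < a → (1 + (i + 1) * u ∣ w ↔ i < j ∧ ψ i) := by
    intro j
    apply pa_ind h (P := fun j => ∃ w, ∀ i, i < a → (1 + (i + 1) * u ∣ w ↔ i < j ∧ ψ i))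
    · apply DP.ex
      apply DP.all
      refine DP.imp (DP.lt' (DT.var _) (DT.const _)) (DP.iff (DP.dvd' ?_ (DT.var _))
        (DP.and (DP.lt' (DT.var _) (DT.var _)) hψ1))
      repeat (first | exact DT.var _ | exact DT.const _ | apply DT.add' | apply DT.mul')
    · refine ⟨1, fun i _ => ?_⟩
      simp only [not_lt_zero, false_and, iff_false]
      exact pa_not_dvd_one h hu.1
    · rintro j ⟨w, hw⟩
      obtain ⟨w', -, hw'⟩ := pa_code_step h hu hw
      exact ⟨w', hw'⟩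
  obtain ⟨w, hw⟩ := key a
  exact ⟨w, fun i hi => (hw i hi).trans (and_iff_right hi)⟩

lemma pa_el_pr {z u w : A} : (sN A).El z ((sN A).pr u w) ↔ 1 + (z + 1) * u ∣ w := by
  constructor
  · rintro ⟨u', w', q, he, hq⟩
    obtain ⟨rfl, rfl⟩ := pa_pr_inj h he
    exact ⟨q, hq.symm⟩
  · rintro ⟨q, hq⟩
    exact ⟨u, w, q, rfl, hq.symm⟩

/-- every definable bounded set has a code -/
lemma pa_exists_code (a : A) {ψ : A → Prop} (hψ : DP (sN A) (fun v => ψ (v 0))) :
    ∃ c, ∀ i, i < a → ((sN A).El i c ↔ ψ i) := by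
  obtain ⟨u, hu⟩ := pa_exists_mult h a
  obtain ⟨w, hw⟩ := pa_code h hu hψ
  exact ⟨(sN A).pr u w, fun i hi => (pa_el_pr h).trans (hw i hi)⟩

/-- bounded codes -/
lemma pa_bounded (b : A) : ∃ d, ∀ c, ∃ c', c' < d ∧
    ∀ x, x < b → ((sN A).El x c' ↔ (sN A).El x c) := by
  obtain ⟨u, hu⟩ := pa_exists_mult h b
  have key : ∀ j, ∃ V, ∀ c, ∃ w, w ≤ V ∧
      ∀ i, i < b → (1 + (i + 1) * u ∣ w ↔ i < j ∧ (sN A).El i c) := by
    intro j
    apply pa_ind h (P := fun j => ∃ V, ∀ c, ∃ w, w ≤ V ∧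
      ∀ i, i < b → (1 + (i + 1) * u ∣ w ↔ i < j ∧ (sN A).El i c)) (by
    repeat (first | exact DT.var _ | exact DT.const _ | apply DT.add' | apply DT.mul' | apply DT.pr |
      apply DP.eq | apply DP.lt' | apply DP.le' | apply DP.dvd' | apply DP.El | apply DP.imp |
      apply DP.and | apply DP.or | apply DP.iff | apply DP.not | apply DP.all | apply DP.ex))
    · refine ⟨1, fun c => ⟨1, le_rfl, fun i _ => ?_⟩⟩
      simp only [not_lt_zero, false_and, iff_false]
      exact pa_not_dvd_one h hu.1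
    · rintro j ⟨V, hV⟩
      refine ⟨V * (1 + (j + 1) * u), fun c => ?_⟩
      obtain ⟨w, hwV, hw⟩ := hV c
      obtain ⟨w', hw', hw''⟩ := pa_code_step h hu hw
      refine ⟨w', ?_, hw''⟩
      rcases hw' with rfl | rfl
      · calc w' ≤ V := hwV
          _ = V * 1 := (mul_one V).symm
          _ ≤ _ := mul_le_mul' le_rfl le_self_add
      · exact mul_le_mul' hwV le_rfl
  obtain ⟨V, hV⟩ := key b
  refine ⟨(sN A).pr u V + 1, fun c => ?_⟩
  obtain ⟨w, hwV, hw⟩ := hV c
  refine ⟨(sN A).pr u w, (pa_lt_succ_iff h).2 (pa_pr_le h le_rfl hwV), fun x hx => ?_⟩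
  rw [pa_el_pr h, hw x hx]
  exact and_iff_right hx

lemma pa_num (n : ℕ) : (sN A).num n = (n : A) := by
  induction n with
  | zero => exact Nat.cast_zero.symm
  | succ n ih =>
    rw [Nat.cast_succ, ← ih]
    rfl

lemma pa_lt_num {x : A} {n : ℕ} (hx : x < (n : A)) : ∃ m < n, x = m := by
  induction n with
  | zero =>
    rw [Nat.cast_zero] at hx
    exact absurd hx not_lt_zero
  | succ n ih =>
    rw [Nat.cast_succ, pa_lt_succ_iff h] at hx
    rcases hx.lt_or_eq with h1 | h1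
    · obtain ⟨m, hm, hx⟩ := ih h1
      exact ⟨m, hm.trans (Nat.lt_succ_self n), hx⟩
    · exact ⟨n, Nat.lt_succ_self n, h1⟩

/-- overspill -/
lemma pa_overspill {P : A → Prop} (hP : DP (sN A) (fun v => P (v 0))) {e : A}
    (he : ∀ n : ℕ, e ≠ n) (hst : ∀ n : ℕ, P n) :
    ∃ m, m ≤ e ∧ (∀ n : ℕ, m ≠ n) ∧ P m := by
  by_contra hc
  push Not at hc
  have hle : ∀ n : ℕ, (n : A) ≤ e := by
    intro n
    by_contra hn
    push Not at hn
    obtain ⟨m, -, hm⟩ := pa_lt_num h hn
    exact he m hm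
  have key : ∀ x, x ≤ e ∧ P x := by
    intro x
    apply pa_ind h (P := fun x => x ≤ e ∧ P x)
    · exact DP.and (DP.le' (DT.var _) (DT.const _)) hP
    · have := hst 0
      rw [Nat.cast_zero] at this
      exact ⟨zero_le, this⟩
    · rintro x ⟨hx1, hx2⟩
      have : ∃ n : ℕ, x = n := by
        by_contra hn
        push Not at hn
        exact hc x hx1 hn hx2
      obtain ⟨n, rfl⟩ := this
      rw [← Nat.cast_succ]
      exact ⟨hle _, hst _⟩
  have h1 := (key (e + 1)).1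
  exact absurd h1 (not_le.2 (lt_add_one e))

end ordered

end Pool.Agent.Helper84.Kauf
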