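import Pool.Agent.Helper84.Kauf.PADef

set_option autoImplicit false

/-!
# A model of Peano arithmetic is an ordered semiring
-/

open Function

namespace Pool.Agent.Helper84.Kauf

/-- the structure given by the Mathlib operations -/
@[reducible] def sN (A : Type) [Zero A] [One A] [Add A] [Mul A] [LT A] : NStr A :=
  ⟨0, 1, (· + ·), (· * ·), (· < ·)⟩

section basic

variable {A : Type} [Zero A] [One A] [Add A] [Mul A] [LT A]

lemma DT.add' {f g : (ℕ → A) → A} (hf : DT (sN A) f) (hg : DT (sN A) g) :
    DT (sN A) (fun v => f v + g v) := hf.add hg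

lemma DT.mul' {f g : (ℕ → A) → A} (hf : DT (sN A) f) (hg : DT (sN A) g) :
    DT (sN A) (fun v => f v * g v) := hf.mul hg

lemma DP.lt' {f g : (ℕ → A) → A} (hf : DT (sN A) f) (hg : DT (sN A) g) :
    DP (sN A) (fun v => f v < g v) := DP.lt hf hg

variable (h : (sN A).PA)
include h

lemma pa_ind {P : A → Prop} (hP : DP (sN A) (fun v => P (v 0)))
    (h0 : P 0) (hs : ∀ x, P x → P (x + 1)) (x : A) : P x := h.induct hP h0 hs x

lemma pa_succ_ne_zero (x : A) : x + 1 ≠ 0 := by
  have := h.basic (Fm.eq ((Tm.var 0).add .one) .zero).neg (by simp [basicAxioms])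
    (push x (push x (fun _ => x)))
  simpa [Fm.sat, Tm.ev, push, Fm.neg] using this

lemma pa_succ_inj {x y : A} (hxy : x + 1 = y + 1) : x = y := by
  have := h.basic (.imp (.eq ((Tm.var 0).add .one) ((Tm.var 1).add .one))
    (.eq (.var 0) (.var 1))) (by simp [basicAxioms]) (push x (push y (fun _ => x)))
  simp only [Fm.sat, Tm.ev, push] at this
  exact this hxy

lemma pa_add_zero (x : A) : x + 0 = x := by
  have := h.basic (.eq ((Tm.var 0).add .zero) (.var 0)) (by simp [basicAxioms])
    (push x (push x (fun _ => x)))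
  simpa [Fm.sat, Tm.ev, push, Fm.neg] using this

lemma pa_add_succ (x y : A) : x + (y + 1) = (x + y) + 1 := by
  have := h.basic (.eq ((Tm.var 0).add ((Tm.var 1).add .one))
    (((Tm.var 0).add (.var 1)).add .one)) (by simp [basicAxioms]) (push x (push y (fun _ => x)))
  simpa [Fm.sat, Tm.ev, push, Fm.neg] using this

lemma pa_mul_zero (x : A) : x * 0 = 0 := by
  have := h.basic (.eq ((Tm.var 0).mul .zero) .zero) (by simp [basicAxioms])
    (push x (push x (fun _ => x)))
  simpa [Fm.sat, Tm.ev, push, Fm.neg] using this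

lemma pa_mul_succ (x y : A) : x * (y + 1) = x * y + x := by
  have := h.basic (.eq ((Tm.var 0).mul ((Tm.var 1).add .one))
    (((Tm.var 0).mul (.var 1)).add (.var 0))) (by simp [basicAxioms]) (push x (push y (fun _ => x)))
  simpa [Fm.sat, Tm.ev, push, Fm.neg] using this

lemma pa_lt_iff (x y : A) : x < y ↔ ∃ z, x + (z + 1) = y := by
  constructor
  · have := h.basic (.imp (.lt (.var 0) (.var 1))
      (Fm.ex 2 (.eq ((Tm.var 0).add ((Tm.var 2).add .one)) (.var 1))))
      (by simp [basicAxioms]) (push x (push y (fun _ => x)))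
    simp only [Fm.sat_imp, Fm.sat_lt, Fm.sat_ex, Fm.sat_eq, Tm.ev, push] at this
    intro hxy
    obtain ⟨z, hz⟩ := this hxy
    exact ⟨z, by simpa [push] using hz⟩
  · rintro ⟨z, hz⟩
    have := h.basic (.imp (.eq ((Tm.var 0).add ((Tm.var 2).add .one)) (.var 1))
      (.lt (.var 0) (.var 1))) (by simp [basicAxioms]) (push x (push y (fun _ => z)))
    simp only [Fm.sat_imp, Fm.sat_lt, Fm.sat_eq, Tm.ev, push] at this
    exact this hz

lemma pa_zero_add (x : A) : 0 + x = x := by
  apply pa_ind h (P := fun x => 0 + x = x) (by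
    repeat (first | exact DT.var _ | exact DT.const _ | apply DT.add' | apply DT.mul' | apply DP.eq |
      apply DP.lt' | apply DP.imp | apply DP.and | apply DP.or | apply DP.iff | apply DP.not |
      apply DP.all | apply DP.ex))
  · exact pa_add_zero h 0
  · intro x hx
    rw [pa_add_succ h, hx]

lemma pa_succ_add (x y : A) : (x + 1) + y = (x + y) + 1 := by
  apply pa_ind h (P := fun y => (x + 1) + y = (x + y) + 1) (by
    repeat (first | exact DT.var _ | exact DT.const _ | apply DT.add' | apply DT.mul' | apply DP.eq |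
      apply DP.lt' | apply DP.imp | apply DP.and | apply DP.or | apply DP.iff | apply DP.not |
      apply DP.all | apply DP.ex))
  · rw [pa_add_zero h, pa_add_zero h]
  · intro y hy
    rw [pa_add_succ h, hy, pa_add_succ h]

lemma pa_add_comm (x y : A) : x + y = y + x := by
  apply pa_ind h (P := fun y => x + y = y + x) (by
    repeat (first | exact DT.var _ | exact DT.const _ | apply DT.add' | apply DT.mul' | apply DP.eq |
      apply DP.lt' | apply DP.imp | apply DP.and | apply DP.or | apply DP.iff | apply DP.not |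
      apply DP.all | apply DP.ex))
  · rw [pa_add_zero h, pa_zero_add h]
  · intro y hy
    rw [pa_add_succ h, hy, pa_succ_add h]

lemma pa_add_assoc (x y z : A) : x + y + z = x + (y + z) := by
  apply pa_ind h (P := fun z => x + y + z = x + (y + z)) (by
    repeat (first | exact DT.var _ | exact DT.const _ | apply DT.add' | apply DT.mul' | apply DP.eq |
      apply DP.lt' | apply DP.imp | apply DP.and | apply DP.or | apply DP.iff | apply DP.not |
      apply DP.all | apply DP.ex))
  · rw [pa_add_zero h, pa_add_zero h]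
  · intro z hz
    rw [pa_add_succ h, hz, pa_add_succ h, pa_add_succ h]

lemma pa_zero_mul (x : A) : 0 * x = 0 := by
  apply pa_ind h (P := fun x => 0 * x = 0) (by
    repeat (first | exact DT.var _ | exact DT.const _ | apply DT.add' | apply DT.mul' | apply DP.eq |
      apply DP.lt' | apply DP.imp | apply DP.and | apply DP.or | apply DP.iff | apply DP.not |
      apply DP.all | apply DP.ex))
  · exact pa_mul_zero h 0
  · intro x hx
    rw [pa_mul_succ h, hx, pa_add_zero h]

lemma pa_succ_mul (x y : A) : (x + 1) * y = x * y + y := by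
  apply pa_ind h (P := fun y => (x + 1) * y = x * y + y) (by
    repeat (first | exact DT.var _ | exact DT.const _ | apply DT.add' | apply DT.mul' | apply DP.eq |
      apply DP.lt' | apply DP.imp | apply DP.and | apply DP.or | apply DP.iff | apply DP.not |
      apply DP.all | apply DP.ex))
  · rw [pa_mul_zero h, pa_mul_zero h, pa_add_zero h]
  · intro y hy
    rw [pa_mul_succ h, hy, pa_mul_succ h, pa_add_succ h, pa_add_succ h, pa_add_assoc h (x * y) y x,
      pa_add_comm h y x, ← pa_add_assoc h]

lemma pa_mul_comm (x y : A) : x * y = y * x := by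
  apply pa_ind h (P := fun y => x * y = y * x) (by
    repeat (first | exact DT.var _ | exact DT.const _ | apply DT.add' | apply DT.mul' | apply DP.eq |
      apply DP.lt' | apply DP.imp | apply DP.and | apply DP.or | apply DP.iff | apply DP.not |
      apply DP.all | apply DP.ex))
  · rw [pa_mul_zero h, pa_zero_mul h]
  · intro y hy
    rw [pa_mul_succ h, hy, pa_succ_mul h]

lemma pa_mul_add (x y z : A) : x * (y + z) = x * y + x * z := by
  apply pa_ind h (P := fun z => x * (y + z) = x * y + x * z) (by
    repeat (first | exact DT.var _ | exact DT.const _ | apply DT.add' | apply DT.mul' | apply DP.eq |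
      apply DP.lt' | apply DP.imp | apply DP.and | apply DP.or | apply DP.iff | apply DP.not |
      apply DP.all | apply DP.ex))
  · rw [pa_add_zero h, pa_mul_zero h, pa_add_zero h]
  · intro z hz
    rw [pa_add_succ h, pa_mul_succ h, hz, pa_mul_succ h, pa_add_assoc h]

lemma pa_mul_assoc (x y z : A) : x * y * z = x * (y * z) := by
  apply pa_ind h (P := fun z => x * y * z = x * (y * z)) (by
    repeat (first | exact DT.var _ | exact DT.const _ | apply DT.add' | apply DT.mul' | apply DP.eq |
      apply DP.lt' | apply DP.imp | apply DP.and | apply DP.or | apply DP.iff | apply DP.not |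
      apply DP.all | apply DP.ex))
  · rw [pa_mul_zero h, pa_mul_zero h, pa_mul_zero h]
  · intro z hz
    rw [pa_mul_succ h, hz, pa_mul_succ h, pa_mul_add h]

lemma pa_mul_one (x : A) : x * 1 = x := by
  have h1 := pa_mul_succ h x 0
  rwa [pa_zero_add h, pa_mul_zero h, pa_zero_add h] at h1

/-- a model of Peano arithmetic is a commutative semiring -/
@[reducible] def paSemiring : CommSemiring A where
  add := (· + ·)
  add_assoc := pa_add_assoc h
  zero := 0
  zero_add := pa_zero_add h
  add_zero := pa_add_zero h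
  nsmul := nsmulRec
  add_comm := pa_add_comm h
  mul := (· * ·)
  left_distrib := pa_mul_add h
  right_distrib := fun x y z => by
    rw [pa_mul_comm h, pa_mul_add h, pa_mul_comm h z, pa_mul_comm h z]
  zero_mul := pa_zero_mul h
  mul_zero := pa_mul_zero h
  mul_assoc := pa_mul_assoc h
  one := 1
  one_mul := fun x => by rw [pa_mul_comm h, pa_mul_one h]
  mul_one := pa_mul_one h
  mul_comm := pa_mul_comm h

end basic

section order

variable {A : Type} [CommSemiring A] [LT A] (h : (sN A).PA)
include h

lemma pa_add_cancel {x y z : A} (hxy : x + z = y + z) : x = y := by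
  revert hxy
  apply pa_ind h (P := fun z => x + z = y + z → x = y) (by
    repeat (first | exact DT.var _ | exact DT.const _ | apply DT.add' | apply DT.mul' | apply DP.eq |
      apply DP.lt' | apply DP.imp | apply DP.and | apply DP.or | apply DP.iff | apply DP.not |
      apply DP.all | apply DP.ex))
  · intro hxy
    simpa using hxy
  · intro z hz hxy
    apply hz
    apply pa_succ_inj h
    rw [add_assoc, hxy, add_assoc]

lemma pa_zero_or (x : A) : x = 0 ∨ ∃ y, x = y + 1 := by
  apply pa_ind h (P := fun x => x = 0 ∨ ∃ y, x = y + 1) (by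
    repeat (first | exact DT.var _ | exact DT.const _ | apply DT.add' | apply DT.mul' | apply DP.eq |
      apply DP.lt' | apply DP.imp | apply DP.and | apply DP.or | apply DP.iff | apply DP.not |
      apply DP.all | apply DP.ex))
  · exact Or.inl rfl
  · intro x _
    exact Or.inr ⟨x, rfl⟩

lemma pa_add_eq_zero {x y : A} (hxy : x + y = 0) : y = 0 := by
  rcases pa_zero_or h y with rfl | ⟨z, rfl⟩
  · rfl
  · exfalso
    rw [← add_assoc] at hxy
    exact pa_succ_ne_zero h _ hxy

lemma pa_tri (x y : A) : x < y ∨ x = y ∨ y < x := by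
  have key : ∀ x y : A, (∃ z, x + z = y) ∨ ∃ z, y + z = x := by
    intro x y
    apply pa_ind h (P := fun x => (∃ z, x + z = y) ∨ ∃ z, y + z = x) (by
    repeat (first | exact DT.var _ | exact DT.const _ | apply DT.add' | apply DT.mul' | apply DP.eq |
      apply DP.lt' | apply DP.imp | apply DP.and | apply DP.or | apply DP.iff | apply DP.not |
      apply DP.all | apply DP.ex))
    · exact Or.inl ⟨y, zero_add y⟩
    · rintro x (⟨z, hz⟩ | ⟨z, hz⟩)
      · rcases pa_zero_or h z with rfl | ⟨w, rfl⟩
        · right
          exact ⟨1, by rw [← hz, add_zero]⟩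
        · left
          exact ⟨w, by rw [← hz, add_assoc, add_comm 1 w]⟩
      · right
        exact ⟨z + 1, by rw [← hz, add_assoc]⟩
  rw [pa_lt_iff h, pa_lt_iff h]
  rcases key x y with ⟨z, hz⟩ | ⟨z, hz⟩
  · rcases pa_zero_or h z with rfl | ⟨w, rfl⟩
    · right; left; rw [← hz, add_zero]
    · left; exact ⟨w, hz⟩
  · rcases pa_zero_or h z with rfl | ⟨w, rfl⟩
    · right; left; rw [← hz, add_zero]
    · right; right; exact ⟨w, hz⟩

lemma pa_irrefl (x : A) : ¬ x < x := by
  rw [pa_lt_iff h]
  rintro ⟨z, hz⟩
  have h1 : (z + 1) + x = 0 + x := by rw [add_comm, hz, zero_add]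
  exact pa_succ_ne_zero h z (pa_add_cancel h h1)

lemma pa_trans {x y z : A} (hxy : x < y) (hyz : y < z) : x < z := by
  rw [pa_lt_iff h] at *
  obtain ⟨a, rfl⟩ := hxy
  obtain ⟨b, rfl⟩ := hyz
  exact ⟨a + 1 + b, by simp only [add_assoc]⟩

open Classical in
/-- the linear order -/
@[reducible] noncomputable def paOrder : LinearOrder A where
  lt := (· < ·)
  le a b := a < b ∨ a = b
  le_refl a := Or.inr rfl
  le_trans a b c := by
    rintro (h1 | rfl) (h2 | rfl)
    · exact Or.inl (pa_trans h h1 h2)
    · exact Or.inl h1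
    · exact Or.inl h2
    · exact Or.inr rfl
  lt_iff_le_not_ge a b := by
    constructor
    · intro h1
      refine ⟨Or.inl h1, ?_⟩
      rintro (h2 | rfl)
      · exact pa_irrefl h _ (pa_trans h h1 h2)
      · exact pa_irrefl h _ h1
    · rintro ⟨h1 | rfl, h2⟩
      · exact h1
      · exact absurd (Or.inr rfl) h2
  le_antisymm a b := by
    rintro (h1 | rfl) (h2 | h2)
    · exact absurd (pa_trans h h1 h2) (pa_irrefl h _)
    · exact h2.symm
    · rfl
    · rfl
  le_total a b := by
    rcases pa_tri h a b with h1 | h1 | h1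
    · exact Or.inl (Or.inl h1)
    · exact Or.inl (Or.inr h1)
    · exact Or.inr (Or.inl h1)
  toDecidableLE := fun _ _ => Classical.dec _

end order

section ordered

variable {A : Type} [CommSemiring A] [LinearOrder A] (h : (sN A).PA)
include h

lemma pa_le_iff (x y : A) : x ≤ y ↔ ∃ z, y = x + z := by
  rw [le_iff_lt_or_eq, pa_lt_iff h]
  constructor
  · rintro (⟨z, rfl⟩ | rfl)
    · exact ⟨_, rfl⟩
    · exact ⟨0, (add_zero x).symm⟩
  · rintro ⟨z, rfl⟩
    rcases pa_zero_or h z with rfl | ⟨w, rfl⟩
    · exact Or.inr (add_zero x).symm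
    · exact Or.inl ⟨w, rfl⟩

lemma pa_ordered : IsStrictOrderedRing A ∧ CanonicallyOrderedAdd A := by
  have hpos : ∀ x : A, 0 < x ↔ ∃ z, x = z + 1 := by
    intro x
    rw [pa_lt_iff h]
    constructor
    · rintro ⟨z, rfl⟩
      exact ⟨z, zero_add _⟩
    · rintro ⟨z, rfl⟩
      exact ⟨z, zero_add _⟩
  have hmul : ∀ a b c : A, 0 < a → b < c → a * b < a * c := by
    intro a b c ha hbc
    rw [hpos] at ha
    rw [pa_lt_iff h] at hbc ⊢
    obtain ⟨d, rfl⟩ := ha
    obtain ⟨z, rfl⟩ := hbc
    exact ⟨d * z + d + z, by ring⟩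
  have hadd : ∀ a b c : A, a ≤ b → a + c ≤ b + c := by
    intro a b c hab
    rw [pa_le_iff h] at hab ⊢
    obtain ⟨z, rfl⟩ := hab
    exact ⟨z, by ring⟩
  constructor
  · refine
      { add_le_add_left := fun a b hab c => hadd a b c hab
        le_of_add_le_add_left := ?_
        zero_le_one := ?_
        exists_pair_ne := ⟨0, 1, ?_⟩
        mul_lt_mul_of_pos_left := ?_
        mul_lt_mul_of_pos_right := ?_ }
    · intro a b c habc
      rw [pa_le_iff h] at habc ⊢
      obtain ⟨z, hz⟩ := habc
      refine ⟨z, pa_add_cancel h (z := a) ?_⟩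
      rw [add_comm c, hz]
      ring
    · exact (pa_le_iff h 0 1).2 ⟨1, (zero_add 1).symm⟩
    · intro h01
      apply pa_succ_ne_zero h 0
      rw [zero_add, ← h01]
    · intro a ha b c hbc
      exact hmul a b c ha hbc
    · intro a ha b c hbc
      have := hmul a b c ha hbc
      rwa [mul_comm a, mul_comm a] at this
  · refine { exists_add_of_le := ?_, le_add_self := ?_, le_self_add := ?_ }
    · intro a b hab
      exact (pa_le_iff h a b).1 hab
    · intro a b
      exact (pa_le_iff h _ _).2 ⟨b, add_comm _ _⟩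
    · intro a b
      exact (pa_le_iff h _ _).2 ⟨b, rfl⟩

end ordered

end Pool.Agent.Helper84.Kauf
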