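import Pool.Agent.Helper84.Kauf.Pull

set_option autoImplicit false

/-!
# The forcing notions
-/

open Cardinal Set

namespace Pool.Agent.Helper84.Kauf

/-- conditions: a height `η < ω₂` and a set `L` of at most `ℵ₁` subsets of `η`, closed under
mixtures and finite changes (the top level of a tree of height `η + 1`) -/
structure Cond where
  η : K2
  L : Set (Set K2)
  ne : L.Nonempty
  card : #L ≤ aleph 1
  sub : ∀ X ∈ L, X ⊆ Iio η
  mix : ∀ X ∈ L, ∀ Y ∈ L, ∀ ξ, (X ∩ Iio ξ) ∪ (Y \ Iio ξ) ∈ L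
  flip : ∀ X ∈ L, ∀ ξ < η, symmDiff X {ξ} ∈ L

namespace Cond

theorem ext {s t : Cond} (h : s.η = t.η) (h' : s.L = t.L) : s = t := by
  cases s
  cases t
  cases h
  cases h'
  rfl

theorem inter_eq (s : Cond) {X : Set K2} (hX : X ∈ s.L) : X ∩ Iio s.η = X :=
  inter_eq_left.2 (s.sub X hX)

instance : PartialOrder Cond where
  le t s := s.η ≤ t.η ∧ (fun X => X ∩ Iio s.η) '' t.L = s.L
  le_refl s := ⟨le_rfl, by
    ext X
    constructor
    · rintro ⟨Y, hY, rfl⟩
      show Y ∩ Iio s.η ∈ s.L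
      rw [s.inter_eq hY]
      exact hY
    · intro hX
      exact ⟨X, hX, s.inter_eq hX⟩⟩
  le_trans u t s h h' := ⟨h'.1.trans h.1, by
    rw [← h'.2, ← h.2, image_image]
    refine image_congr fun X _ => ?_
    rw [inter_assoc, Iio_inter_Iio, min_eq_right h'.1]⟩
  le_antisymm t s h h' := by
    have he : s.η = t.η := le_antisymm h.1 h'.1
    refine (ext he ?_).symm
    rw [← h.2, he]
    ext X
    constructor
    · rintro ⟨Y, hY, rfl⟩
      show Y ∩ Iio t.η ∈ t.L
      rw [t.inter_eq hY]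
      exact hY
    · intro hX
      exact ⟨X, hX, t.inter_eq hX⟩

theorem le_iff {s t : Cond} : t ≤ s ↔ s.η ≤ t.η ∧ (fun X => X ∩ Iio s.η) '' t.L = s.L := Iff.rfl

theorem restr_mem {s t : Cond} (h : t ≤ s) {X : Set K2} (hX : X ∈ t.L) : X ∩ Iio s.η ∈ s.L := by
  rw [← h.2]
  exact ⟨X, hX, rfl⟩

theorem exists_ext {s t : Cond} (h : t ≤ s) {X : Set K2} (hX : X ∈ s.L) :
    ∃ Y ∈ t.L, Y ∩ Iio s.η = X := by
  have h' := h.2
  rw [← h'] at hX
  exact hX

end Cond

/-- conditions with distinguished elements of the top level -/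
structure PCond (ι : Type) where
  s : Cond
  X : ι → Set K2
  mem : ∀ i, X i ∈ s.L

namespace PCond

variable {ι : Type}

theorem ext {p q : PCond ι} (h : p.s = q.s) (h' : p.X = q.X) : p = q := by
  cases p
  cases q
  cases h
  cases h'
  rfl

instance : PartialOrder (PCond ι) where
  le q p := q.s ≤ p.s ∧ ∀ i, q.X i ∩ Iio p.s.η = p.X i
  le_refl p := ⟨le_rfl, fun i => p.s.inter_eq (p.mem i)⟩
  le_trans r q p h h' := ⟨h.1.trans h'.1, fun i => by
    rw [← h'.2 i, ← h.2 i, inter_assoc, Iio_inter_Iio, min_eq_right h'.1.1]⟩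
  le_antisymm q p h h' := by
    have he := le_antisymm h.1 h'.1
    refine ext he (funext fun i => ?_)
    rw [← h.2 i, ← he, q.s.inter_eq (q.mem i)]

theorem le_iff {p q : PCond ι} : q ≤ p ↔ q.s ≤ p.s ∧ ∀ i, q.X i ∩ Iio p.s.η = p.X i := Iff.rfl

/-! ### Limits of chains -/

section limit

variable {C : Set (PCond ι)} (hne : C.Nonempty) (hC : IsChain (· ≤ ·) C) (hcard : #C ≤ aleph 1)
variable [Nonempty ι] (hι : #ι ≤ aleph 1)

include hC in
theorem chain_total {c d : PCond ι} (hc : c ∈ C) (hd : d ∈ C) : c ≤ d ∨ d ≤ c := by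
  rcases eq_or_ne c d with h | h
  · exact Or.inl h.le
  · exact hC hc hd h

/-- the union of the `i`-th distinguished elements -/
def limX (C : Set (PCond ι)) (i : ι) : Set K2 := ⋃ c ∈ C, c.X i

include hC in
theorem limX_inter {c : PCond ι} (hc : c ∈ C) (i : ι) : limX C i ∩ Iio c.s.η = c.X i := by
  ext ξ
  simp only [limX, mem_inter_iff, mem_iUnion, mem_Iio]
  constructor
  · rintro ⟨⟨d, hd, hξ⟩, hξc⟩
    rcases chain_total hC hd hc with h | h
    · rw [← h.2 i]
      exact ⟨hξ, hξc⟩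
    · rw [← h.2 i] at hξ
      exact hξ.1
  · intro hξ
    exact ⟨⟨c, hc, hξ⟩, c.s.sub _ (c.mem i) hξ⟩

/-- the top level of the limit -/
def limL (C : Set (PCond ι)) : Set (Set K2) :=
  {Z | ∃ c ∈ C, ∃ Y ∈ c.s.L, ∃ i, Z = Y ∪ (limX C i \ Iio c.s.η)}

include hC in
theorem limL_restr {k : PCond ι} (hk : k ∈ C) {Z : Set K2} (hZ : Z ∈ limL C) :
    Z ∩ Iio k.s.η ∈ k.s.L := by
  obtain ⟨c, hc, Y, hY, i, rfl⟩ := hZ
  rcases chain_total hC hk hc with h | h
  · obtain ⟨Y', hY', hYY'⟩ := Cond.exists_ext h.1 hY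
    have e : (Y ∪ (limX C i \ Iio c.s.η)) ∩ Iio k.s.η = (Y' ∩ Iio c.s.η) ∪ (k.X i \ Iio c.s.η) := by
      rw [← limX_inter hC hk i, ← hYY']
      ext ξ
      simp only [mem_union, mem_inter_iff, mem_sdiff, mem_Iio]
      have := h.1.1
      constructor
      · rintro ⟨⟨h1, h2⟩ | ⟨h1, h2⟩, h3⟩
        · exact Or.inl ⟨h1, h2⟩
        · exact Or.inr ⟨⟨h1, h3⟩, h2⟩
      · rintro (⟨h1, h2⟩ | ⟨⟨h1, h3⟩, h2⟩)
        · exact ⟨Or.inl ⟨h1, h2⟩, h2.trans_le this⟩
        · exact ⟨Or.inr ⟨h1, h2⟩, h3⟩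
    rw [e]
    exact k.s.mix _ hY' _ (k.mem i) _
  · have e : (Y ∪ (limX C i \ Iio c.s.η)) ∩ Iio k.s.η = Y ∩ Iio k.s.η := by
      ext ξ
      simp only [mem_union, mem_inter_iff, mem_sdiff, mem_Iio]
      have := h.1.1
      constructor
      · rintro ⟨h1 | ⟨h1, h2⟩, h3⟩
        · exact ⟨h1, h3⟩
        · exact (h2 (h3.trans_le this)).elim
      · rintro ⟨h1, h2⟩
        exact ⟨Or.inl h1, h2⟩
    rw [e]
    exact Cond.restr_mem h.1 hY

include hC in
theorem limL_form {k c : PCond ι} (hk : k ∈ C) (hc : c ∈ C) (hkc : c.s.η ≤ k.s.η) {Y Z : Set K2} {i : ι}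
    (_hY : Y ∈ c.s.L) (hZ : Z = Y ∪ (limX C i \ Iio c.s.η)) :
    Z = (Z ∩ Iio k.s.η) ∪ (limX C i \ Iio k.s.η) := by
  have hY' := c.s.sub _ _hY
  subst hZ
  ext ξ
  simp only [mem_union, mem_inter_iff, mem_sdiff, mem_Iio]
  by_cases h1 : ξ < k.s.η
  · simp [h1]
  · have h2 : ¬ ξ < c.s.η := fun h => h1 (h.trans_le hkc)
    have h3 : ξ ∉ Y := fun h => h2 (hY' h)
    simp [h1, h2, h3]

theorem exists_lub (hne : C.Nonempty) (hcard : #C ≤ aleph 1) :
    ∃ η : K2, (∀ c ∈ C, c.s.η ≤ η) ∧ ∀ ξ < η, ∃ c ∈ C, ξ < c.s.η := by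
  obtain ⟨δ, hδ⟩ := exists_bound hcard (fun c : C => c.1.s.η)
  have hn : {x : K2 | ∀ c ∈ C, c.s.η ≤ x}.Nonempty := ⟨δ, fun c hc => (hδ ⟨c, hc⟩).le⟩
  refine ⟨wellFounded_lt.min _ hn, wellFounded_lt.min_mem _ hn, fun ξ hξ => ?_⟩
  by_contra hc
  push Not at hc
  exact wellFounded_lt.not_lt_min {x : K2 | ∀ c ∈ C, c.s.η ≤ x} hc hξ

/-- the limit of a chain -/
noncomputable def limCond : Cond where
  η := (exists_lub hne hcard).choose
  L := limL C
  ne := by
    obtain ⟨c, hc⟩ := hne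
    obtain ⟨Y, hY⟩ := c.s.ne
    exact ⟨_, c, hc, Y, hY, Classical.arbitrary ι, rfl⟩
  card := by
    have h0 := aleph0_le_aleph 1
    have h1 : limL C ⊆ ⋃ c : C, ⋃ i : ι, (fun Y => Y ∪ (limX C i \ Iio c.1.s.η)) '' c.1.s.L := by
      rintro Z ⟨c, hc, Y, hY, i, rfl⟩
      exact mem_iUnion.2 ⟨⟨c, hc⟩, mem_iUnion.2 ⟨i, Y, hY, rfl⟩⟩
    refine (mk_le_mk_of_subset h1).trans ((mk_iUnion_le _).trans ?_)
    calc #C * (⨆ c : C, #(⋃ i : ι, (fun Y => Y ∪ (limX C i \ Iio c.1.s.η)) '' c.1.s.L))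
        ≤ aleph 1 * (aleph 1 * aleph 1) := by
          refine mul_le_mul' hcard (ciSup_le' fun c => ?_)
          refine (mk_iUnion_le _).trans (mul_le_mul' hι (ciSup_le' fun i => ?_))
          exact mk_image_le.trans c.1.s.card
      _ = aleph 1 := by rw [mul_eq_self h0, mul_eq_self h0]
  sub := by
    rintro Z ⟨c, hc, Y, hY, i, rfl⟩ ξ hξ
    rcases hξ with hξ | ⟨hξ, _⟩
    · exact (c.s.sub _ hY hξ).trans_le ((exists_lub hne hcard).choose_spec.1 c hc)
    · simp only [limX, mem_iUnion] at hξ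
      obtain ⟨d, hd, hξ⟩ := hξ
      exact (mem_Iio.1 (d.s.sub _ (d.mem i) hξ)).trans_le ((exists_lub hne hcard).choose_spec.1 d hd)
  mix := by
    intro Z hZ Z' hZ' ξ
    obtain ⟨c, hc, Y, hY, i, hZe⟩ := hZ
    obtain ⟨d, hd, Y', hY', j, hZe'⟩ := hZ'
    have hZ : Z ∈ limL C := ⟨c, hc, Y, hY, i, hZe⟩
    have hZ' : Z' ∈ limL C := ⟨d, hd, Y', hY', j, hZe'⟩
    by_cases hex : ∃ e ∈ C, ξ ≤ e.s.η
    · obtain ⟨e, he, hξe⟩ := hex
      obtain ⟨k, hk, hkd, hke⟩ : ∃ k ∈ C, d.s.η ≤ k.s.η ∧ e.s.η ≤ k.s.η := by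
        rcases chain_total hC hd he with h | h
        · exact ⟨d, hd, le_rfl, h.1.1⟩
        · exact ⟨e, he, h.1.1, le_rfl⟩
      refine ⟨k, hk, (Z ∩ Iio k.s.η ∩ Iio ξ) ∪ ((Z' ∩ Iio k.s.η) \ Iio ξ),
        k.s.mix _ (limL_restr hC hk hZ) _ (limL_restr hC hk hZ') _, j, ?_⟩
      have h1 := limL_form hC hk hd hkd hY' hZe'
      have hξk := hξe.trans hke
      ext x
      have h2 : x ∈ Z' ↔ x ∈ (Z' ∩ Iio k.s.η) ∪ (limX C j \ Iio k.s.η) := by rw [← h1]
      simp only [mem_union, mem_inter_iff, mem_sdiff, mem_Iio] at h2 ⊢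
      by_cases hx : x < ξ
      · have hx' := hx.trans_le hξk
        simp [hx, hx']
      · by_cases hx' : x < k.s.η
        · simp [hx, hx']
        · simp only [hx', and_false, not_false_eq_true, and_true, false_or] at h2
          simp [hx, hx', h2]
    · push Not at hex
      refine ⟨c, hc, Y, hY, i, ?_⟩
      rw [← hZe]
      have h1 : ∀ W ∈ limL C, W ⊆ Iio ξ := by
        rintro W ⟨c, hc, Y, hY, i, rfl⟩ x hx
        rcases hx with hx | ⟨hx, _⟩
        · exact (mem_Iio.1 (c.s.sub _ hY hx)).trans (hex c hc)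
        · simp only [limX, mem_iUnion] at hx
          obtain ⟨d, hd, hx⟩ := hx
          exact (mem_Iio.1 (d.s.sub _ (d.mem i) hx)).trans (hex d hd)
      rw [inter_eq_left.2 (h1 Z hZ), sdiff_eq_empty.2 (h1 Z' hZ'), union_empty]
  flip := by
    intro Z hZ ξ hξ
    obtain ⟨c, hc, Y, hY, i, hZe⟩ := hZ
    have hZ : Z ∈ limL C := ⟨c, hc, Y, hY, i, hZe⟩
    obtain ⟨e, he, hξe⟩ := (exists_lub hne hcard).choose_spec.2 ξ hξ
    obtain ⟨k, hk, hkc, hke⟩ : ∃ k ∈ C, c.s.η ≤ k.s.η ∧ e.s.η ≤ k.s.η := by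
      rcases chain_total hC hc he with h | h
      · exact ⟨c, hc, le_rfl, h.1.1⟩
      · exact ⟨e, he, h.1.1, le_rfl⟩
    refine ⟨k, hk, symmDiff (Z ∩ Iio k.s.η) {ξ},
      k.s.flip _ (limL_restr hC hk hZ) _ (hξe.trans_le hke), i, ?_⟩
    have h1 := limL_form hC hk hc hkc hY hZe
    have hξk := hξe.trans_le hke
    ext x
    have h2 : x ∈ Z ↔ x ∈ (Z ∩ Iio k.s.η) ∪ (limX C i \ Iio k.s.η) := by rw [← h1]
    simp only [mem_union, mem_inter_iff, mem_sdiff, mem_Iio, mem_symmDiff, mem_singleton_iff] at h2 ⊢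
    by_cases hx' : x < k.s.η
    · simp [hx']
    · have hne : x ≠ ξ := by
        rintro rfl
        exact hx' hξk
      simp only [hx', and_false, not_false_eq_true, and_true, false_or] at h2
      simp [hx', hne, h2]

/-- the limit of a chain -/
noncomputable def lim : PCond ι where
  s := limCond hne hC hcard hι
  X := limX C
  mem i := by
    obtain ⟨c, hc⟩ := hne
    refine ⟨c, hc, c.X i, c.mem i, i, ?_⟩
    rw [← limX_inter hC hc i, inter_union_sdiff]

theorem lim_le {c : PCond ι} (hc : c ∈ C) : lim hne hC hcard hι ≤ c := by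
  refine ⟨⟨(exists_lub hne hcard).choose_spec.1 c hc, ?_⟩, fun i => limX_inter hC hc i⟩
  ext Y
  constructor
  · rintro ⟨Z, hZ, rfl⟩
    exact limL_restr hC hc hZ
  · intro hY
    refine ⟨Y ∪ (limX C (Classical.arbitrary ι) \ Iio c.s.η), ⟨c, hc, Y, hY, _, rfl⟩, ?_⟩
    have := c.s.sub _ hY
    ext x
    simp only [mem_union, mem_inter_iff, mem_sdiff, mem_Iio]
    constructor
    · rintro ⟨h | h, h'⟩
      · exact h
      · exact (h.2 h').elim
    · intro h
      exact ⟨Or.inl h, this h⟩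

end limit

theorem isClosed1 [Nonempty ι] (hι : #ι ≤ aleph 1) : IsClosed1 (PCond ι) :=
  fun _ hne hC hcard => ⟨lim hne hC hcard hι, fun _ hc => lim_le hne hC hcard hι hc⟩

/-- the forcing notions `PCond ι` are tree-like -/
theorem isTreeLike : IsTreeLike (PCond ι) := by
  intro a b c hca hcb
  have key : ∀ a b : PCond ι, c ≤ a → c ≤ b → a.s.η ≤ b.s.η → b ≤ a := by
    intro a b hca hcb h
    refine ⟨⟨h, ?_⟩, fun i => ?_⟩
    · rw [← hcb.1.2, ← hca.1.2, image_image]
      refine image_congr fun X _ => ?_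
      rw [inter_assoc, Iio_inter_Iio, min_eq_right h]
    · rw [← hcb.2 i, ← hca.2 i, inter_assoc, Iio_inter_Iio, min_eq_right h]
  rcases le_total a.s.η b.s.η with h | h
  · exact Or.inr (key a b hca hcb h)
  · exact Or.inl (key b a hcb hca h)

/-- forgetting the distinguished elements is a projection -/
theorem isProj_s : IsProj (fun p : PCond ι => p.s) where
  mono _ _ h := h.1
  lift := by
    intro p t ht
    choose Y hY hY' using fun i => Cond.exists_ext ht (p.mem i)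
    exact ⟨⟨t, Y, hY⟩, ⟨ht, hY'⟩, le_rfl⟩

theorem surjective_s : Function.Surjective (fun p : PCond ι => p.s) := by
  intro s
  obtain ⟨Y, hY⟩ := s.ne
  exact ⟨⟨s, fun _ => Y, fun _ => hY⟩, rfl⟩

/-- the `i`-th coordinate -/
def coord (i : ι) (p : PCond ι) : PCond Unit := ⟨p.s, fun _ => p.X i, fun _ => p.mem i⟩

theorem isProj_coord (i : ι) : IsProj (coord i) where
  mono _ _ h := ⟨h.1, fun _ => h.2 i⟩
  lift := by
    classical
    intro p t ht
    choose Y hY hY' using fun i => Cond.exists_ext ht.1 (p.mem i)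
    refine ⟨⟨t.s, Function.update Y i (t.X ()), ?_⟩, ⟨ht.1, ?_⟩, ⟨le_rfl, ?_⟩⟩
    · intro j
      by_cases hj : j = i
      · subst hj
        simpa using t.mem ()
      · simpa [Function.update_of_ne hj] using hY j
    · intro j
      by_cases hj : j = i
      · subst hj
        simp only [Function.update_self]
        exact ht.2 ()
      · simp only [Function.update_of_ne hj]
        exact hY' j
    · intro _
      simpa [coord] using t.s.inter_eq (t.mem ())

end PCond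

/-- conditions can be extended to any height -/
theorem Cond.exists_higher (s : Cond) (η : K2) : ∃ t ≤ s, η ≤ t.η := by
  rcases le_total η s.η with h | h
  · exact ⟨s, le_rfl, h⟩
  refine ⟨⟨η, {Z | ∃ X ∈ s.L, ∃ F : Finset K2, (↑F : Set K2) ⊆ Ico s.η η ∧ Z = X ∪ ↑F}, ?_, ?_, ?_, ?_, ?_⟩,
    ⟨h, ?_⟩, le_rfl⟩
  · obtain ⟨X, hX⟩ := s.ne
    exact ⟨X, X, hX, ∅, by simp, by simp⟩
  · have h0 := aleph0_le_aleph 1
    have h1 : {Z | ∃ X ∈ s.L, ∃ F : Finset K2, (↑F : Set K2) ⊆ Ico s.η η ∧ Z = X ∪ ↑F} ⊆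
        range (fun x : s.L × Finset (Iio η) => (x.1 : Set K2) ∪ Subtype.val '' (x.2 : Set (Iio η))) := by
      rintro Z ⟨X, hX, F, hF, rfl⟩
      refine ⟨(⟨X, hX⟩, F.subtype (fun x => x ∈ Iio η)), ?_⟩
      simp only
      congr 1
      ext x
      constructor
      · rintro ⟨y, hy, rfl⟩
        simpa using hy
      · intro hx
        exact ⟨⟨x, (hF hx).2⟩, by simpa using hx, rfl⟩
    refine (mk_le_mk_of_subset h1).trans (mk_range_le.trans ?_)
    rw [mk_prod, lift_id, lift_id]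
    have h2 : #(Finset (Iio η)) ≤ aleph 1 := by
      have h3 : #(Finset (Iio η)) ≤ #(List (Iio η)) := mk_le_of_surjective (f := fun l : List (Iio η) => by
        classical exact l.toFinset) (fun F => by
          classical
          exact ⟨F.toList, by simp⟩)
      exact h3.trans ((mk_list_le_max _).trans (max_le h0 (mk_Iio_K2 η)))
    exact (mul_le_mul' s.card h2).trans (mul_eq_self h0).le
  · rintro Z ⟨X, hX, F, hF, rfl⟩ x (hx | hx)
    · exact (mem_Iio.1 (s.sub _ hX hx)).trans_le h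
    · exact (hF hx).2
  · classical
    rintro Z ⟨X, hX, F, hF, rfl⟩ Z' ⟨X', hX', F', hF', rfl⟩ ξ
    refine ⟨(X ∩ Iio ξ) ∪ (X' \ Iio ξ), s.mix _ hX _ hX' _,
      F.filter (fun x => x < ξ) ∪ F'.filter (fun x => ¬ x < ξ), ?_, ?_⟩
    · intro x hx
      simp only [Finset.coe_union, Finset.coe_filter, mem_union, mem_ofPred_eq] at hx
      rcases hx with hx | hx
      · exact hF hx.1
      · exact hF' hx.1
    · ext x
      simp only [mem_union, mem_inter_iff, mem_sdiff, mem_Iio, Finset.coe_union, Finset.coe_filter,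
        mem_ofPred_eq, SetLike.mem_coe]
      tauto
  · classical
    rintro Z ⟨X, hX, F, hF, rfl⟩ ξ hξ
    have hXs := s.sub _ hX
    by_cases hξs : ξ < s.η
    · refine ⟨symmDiff X {ξ}, s.flip _ hX _ hξs, F, hF, ?_⟩
      ext x
      simp only [mem_union, mem_symmDiff, mem_singleton_iff, SetLike.mem_coe]
      by_cases hx : x = ξ
      · subst hx
        have : x ∉ F := fun h => (hF h).1.not_gt hξs
        simp [this]
      · simp [hx]
    · refine ⟨X, hX, symmDiff F {ξ}, ?_, ?_⟩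
      · intro x hx
        simp only [Finset.coe_symmDiff, Finset.coe_singleton, mem_symmDiff, mem_singleton_iff] at hx
        rcases hx with hx | hx
        · exact hF hx.1
        · rw [hx.1]
          exact ⟨not_lt.1 hξs, hξ⟩
      · ext x
        simp only [mem_union, mem_symmDiff, mem_singleton_iff, SetLike.mem_coe, Finset.mem_symmDiff,
          Finset.mem_singleton]
        by_cases hx : x = ξ
        · subst hx
          have : x ∉ X := fun h => hξs (hXs h)
          simp [this]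
        · simp [hx]
  · ext Y
    constructor
    · rintro ⟨Z, ⟨X, hX, F, hF, rfl⟩, rfl⟩
      have e : (X ∪ ↑F) ∩ Iio s.η = X := by
        ext x
        simp only [mem_union, mem_inter_iff, mem_Iio, SetLike.mem_coe]
        constructor
        · rintro ⟨hx | hx, hx'⟩
          · exact hx
          · exact ((hF hx).1.not_gt hx').elim
        · intro hx
          exact ⟨Or.inl hx, s.sub _ hX hx⟩
      simp only [e]
      exact hX
    · intro hY
      exact ⟨Y, ⟨Y, hY, ∅, by simp, by simp⟩, s.inter_eq hY⟩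

end Pool.Agent.Helper84.Kauf
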