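import Pool.Agent.Helper84.Kauf.Refl

set_option autoImplicit false

/-!
# Projections of forcing notions
-/

open Cardinal Set
open Pool.Agent.Helper23.CK (RO)

namespace Pool.Agent.Helper84.Kauf

variable {P Q : Type} [Preorder P] [Preorder Q]

/-- projections -/
structure IsProj (π : Q → P) : Prop where
  mono : Monotone π
  lift : ∀ q p, p ≤ π q → ∃ q' ≤ q, π q' ≤ p

/-- the preimage of a regular open set under a projection -/
def pull {π : Q → P} (h : IsProj π) (U : RO P) : RO Q where
  carrier := {q | π q ∈ U.carrier}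
  regular q := by
    constructor
    · intro hq r hr
      exact ⟨r, le_rfl, U.lower (h.mono hr) hq⟩
    · intro hq
      show π q ∈ U.carrier
      rw [U.regular]
      intro p hp
      obtain ⟨q', hq', hp'⟩ := h.lift q p hp
      obtain ⟨r, hr, hr'⟩ := hq q' hq'
      exact ⟨π r, (h.mono hr).trans hp', hr'⟩

variable {π : Q → P} (h : IsProj π)

theorem mem_pull {U : RO P} {q : Q} : q ∈ (pull h U).carrier ↔ π q ∈ U.carrier := Iff.rfl

theorem RO_ext {U V : RO P} (h : ∀ p, p ∈ U.carrier ↔ p ∈ V.carrier) : U = V :=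
  RO.ext' (Set.ext h)

theorem pull_inf (U V : RO P) : pull h (U ⊓ V) = pull h U ⊓ pull h V := rfl

theorem pull_himp (U V : RO P) : pull h (U ⇨ V) = pull h U ⇨ pull h V := by
  refine RO_ext fun q => ?_
  rw [mem_pull, RO.mem_himp, RO.mem_himp]
  constructor
  · intro h' q' hq' hU
    exact h' (π q') (h.mono hq') hU
  · intro h' p hp hU
    rw [V.regular]
    intro p' hp'
    obtain ⟨q', hq', hp''⟩ := h.lift q p' (hp'.trans hp)
    exact ⟨π q', hp'', h' q' hq' (U.lower (hp''.trans hp') hU)⟩

theorem pull_bot : pull h (⊥ : RO P) = ⊥ := rfl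

theorem pull_top : pull h (⊤ : RO P) = ⊤ := rfl

theorem pull_iInf {ι : Sort*} (f : ι → RO P) : pull h (⨅ i, f i) = ⨅ i, pull h (f i) := by
  refine RO_ext fun q => ?_
  rw [mem_pull, RO.mem_iInf, RO.mem_iInf]
  rfl

theorem pull_compl (U : RO P) : pull h Uᶜ = (pull h U)ᶜ := by
  rw [← himp_bot, pull_himp, pull_bot, himp_bot]

theorem pull_iSup {ι : Sort*} (f : ι → RO P) : pull h (⨆ i, f i) = ⨆ i, pull h (f i) := by
  have e : (⨆ i, f i) = (⨅ i, (f i)ᶜ)ᶜ := by rw [compl_iInf]; simp
  rw [e, pull_compl, pull_iInf, compl_iInf]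
  refine iSup_congr fun i => ?_
  rw [pull_compl, compl_compl]

theorem pull_sup (U V : RO P) : pull h (U ⊔ V) = pull h U ⊔ pull h V := by
  have e : U ⊔ V = (Uᶜ ⊓ Vᶜ)ᶜ := by rw [compl_inf, compl_compl, compl_compl]
  rw [e, pull_compl, pull_inf, pull_compl, pull_compl, compl_inf, compl_compl, compl_compl]

theorem pull_tv (p : Prop) : pull h (tv (RO P) p) = tv (RO Q) p := by
  refine RO_ext fun q => ?_
  rw [mem_pull, mem_tv, mem_tv]

/-- the name of a structure, considered as a name for the larger forcing -/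
def BStr.pull {A : Type} (M : BStr (RO P) A) : BStr (RO Q) A where
  zero x := Kauf.pull h (M.zero x)
  one x := Kauf.pull h (M.one x)
  add a b x := Kauf.pull h (M.add a b x)
  mul a b x := Kauf.pull h (M.mul a b x)
  lt a b := Kauf.pull h (M.lt a b)

section
variable {A : Type} (M : BStr (RO P) A)

theorem BStr.pull_zero (x : A) : (M.pull h).zero x = Kauf.pull h (M.zero x) := rfl
theorem BStr.pull_one (x : A) : (M.pull h).one x = Kauf.pull h (M.one x) := rfl
theorem BStr.pull_add (a b x : A) : (M.pull h).add a b x = Kauf.pull h (M.add a b x) := rfl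
theorem BStr.pull_mul (a b x : A) : (M.pull h).mul a b x = Kauf.pull h (M.mul a b x) := rfl
theorem BStr.pull_lt (a b : A) : (M.pull h).lt a b = Kauf.pull h (M.lt a b) := rfl

theorem Tm.val_pull (t : Tm) (v : ℕ → A) (x : A) : t.val (M.pull h) v x = pull h (t.val M v x) := by
  induction t generalizing x with
  | var k => simp only [Tm.val, pull_tv]
  | zero => rfl
  | one => rfl
  | add t u iht ihu => simp only [Tm.val, pull_iSup, pull_inf, iht, ihu, BStr.pull_add,
      BStr.pull_mul]
  | mul t u iht ihu => simp only [Tm.val, pull_iSup, pull_inf, iht, ihu, BStr.pull_add,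
      BStr.pull_mul]

theorem Fm.val_pull (φ : Fm) (v : ℕ → A) : φ.val (M.pull h) v = pull h (φ.val M v) := by
  induction φ generalizing v with
  | eq t u => simp only [Fm.val, pull_iSup, pull_inf, Tm.val_pull]
  | lt t u => simp only [Fm.val, pull_iSup, pull_inf, Tm.val_pull, BStr.pull_lt]
  | bot => rfl
  | imp φ ψ ihφ ihψ => simp only [Fm.val, pull_himp, ihφ, ihψ]
  | all k φ ih => simp only [Fm.val, pull_iInf, ih]

theorem paVal_pull : (M.pull h).paVal = pull h M.paVal := by
  simp only [BStr.paVal, BStr.strVal, BStr.indVal, pull_iInf, pull_inf, pull_himp, pull_iSup, pull_tv,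
    Fm.val_pull, BStr.pull_zero, BStr.pull_one, BStr.pull_add, BStr.pull_mul]

end

include h

/-- reflection for a forcing notion which is a projection of a closed one -/
theorem reflect_proj (hcl : IsClosed1 Q) (M : BStr (RO P) K2) {q : Q} (hq : π q ∈ (M.paVal).carrier)
    (γ₀ : K2) : ∃ q' ≤ q, ∃ γ > γ₀, ∃ N : NStr (Iio γ), N.PA ∧ Decides M (π q') γ N := by
  have h1 : q ∈ ((M.pull h).paVal).carrier := by
    rw [paVal_pull]
    exact hq
  obtain ⟨q', hq', γ, hγ, N, hN, hD⟩ := reflect (M.pull h) hcl h1 γ₀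
  refine ⟨q', hq', γ, hγ, N, hN, fun φ v => ?_⟩
  rw [hD φ v, Fm.val_pull]
  rfl

theorem transfer_proj (hsurj : Function.Surjective π) (hcl : IsClosed1 Q) (M : BStr (RO P) K2) {p : P}
    (hp : p ∈ (M.paVal).carrier) (φ : Fm)
    (hφ : ∀ (A : Type) (N : NStr A), N.PA → ∀ v, φ.sat N v) (v : ℕ → K2) :
    p ∈ (φ.val M v).carrier := by
  obtain ⟨q, rfl⟩ := hsurj p
  have h1 : q ∈ ((M.pull h).paVal).carrier := by
    rw [paVal_pull]
    exact hp
  have h2 := transfer (M.pull h) hcl h1 φ hφ v
  rw [Fm.val_pull] at h2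
  exact h2

end Pool.Agent.Helper84.Kauf
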