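import Pool.Agent.Helper84.Kauf.Val

set_option autoImplicit false

/-!
# Reflection: decided elementary substructures
-/

open Cardinal Set
open Pool.Agent.Helper23.CK (RO)

namespace Pool.Agent.Helper84.Kauf

variable {P : Type} [Preorder P] (M : BStr (RO P) K2)

/-- the assignment given by a list -/
noncomputable def asg (l : List K2) (k : ℕ) : K2 := l.getD k (Classical.arbitrary K2)

/-- every assignment agrees with the assignment of a list on the free variables of a formula -/
theorem exists_list (φ : Fm) (v : ℕ → K2) (γ : K2) (hv : ∀ k, v k < γ) :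
    ∃ l : List K2, (∀ x ∈ l, x < γ) ∧ ∀ k ∈ φ.fv, asg l k = v k := by
  refine ⟨(List.range (φ.fv.sup id + 1)).map v, ?_, ?_⟩
  · intro x hx
    obtain ⟨k, _, rfl⟩ := List.mem_map.1 hx
    exact hv k
  · intro k hk
    have hk' : k < φ.fv.sup id + 1 := Nat.lt_succ_of_le (Finset.le_sup (f := id) hk)
    rw [asg, List.getD_eq_getElem _ _ (by simpa using hk')]
    simp

theorem exists_step (hcl : IsClosed1 P) (p : P) (γ : K2) :
    ∃ q ≤ p, ∃ γ' > γ, ∀ (φ : Fm) (k : ℕ) (l : List K2), (∀ x ∈ l, x < γ) →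
      (q ∈ (φ.val M (asg l)).carrier ∨ q ∈ ((φ.val M (asg l))ᶜ).carrier) ∧
      (q ∈ (((Fm.all k φ).val M (asg l))ᶜ).carrier →
        ∃ a < γ', q ∈ ((φ.val M (Function.update (asg l) k a))ᶜ).carrier) := by
  classical
  let I : Type := Fm × ℕ × List (Iio γ)
  have hI : #I ≤ aleph 1 := by
    have h1 : #(List (Iio γ)) ≤ aleph 1 :=
      (mk_list_le_max _).trans (max_le (aleph0_le_aleph 1) (mk_Iio_K2 γ))
    have h0 := aleph0_le_aleph 1
    simp only [I, mk_prod, lift_id]
    calc #Fm * (#ℕ * #(List (Iio γ))) ≤ aleph 1 * (aleph 1 * aleph 1) :=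
          mul_le_mul' countable_le_aleph1 (mul_le_mul' countable_le_aleph1 h1)
      _ = aleph 1 := by rw [mul_eq_self h0, mul_eq_self h0]
  let D : I → Set P := fun i => {q | (q ∈ (i.1.val M (asg (i.2.2.map Subtype.val))).carrier ∨
      q ∈ ((i.1.val M (asg (i.2.2.map Subtype.val)))ᶜ).carrier) ∧
      (q ∈ ((Fm.all i.2.1 i.1).val M (asg (i.2.2.map Subtype.val))).carrier ∨
        ∃ a, q ∈ ((i.1.val M (Function.update (asg (i.2.2.map Subtype.val)) i.2.1 a))ᶜ).carrier)}
  obtain ⟨q, hq, hqD⟩ := hcl.dist hI D (by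
    rintro i p q hqp ⟨h1, h2⟩
    exact ⟨h1.imp (RO.lower _ hqp) (RO.lower _ hqp),
      h2.imp (RO.lower _ hqp) fun ⟨a, ha⟩ => ⟨a, RO.lower _ hqp ha⟩⟩) p (by
    intro i r _
    obtain ⟨s, hs, hs'⟩ := RO.decide (i.1.val M (asg (i.2.2.map Subtype.val))) r
    by_cases hall : s ∈ ((Fm.all i.2.1 i.1).val M (asg (i.2.2.map Subtype.val))).carrier
    · exact ⟨s, hs, hs', Or.inl hall⟩
    · simp only [Fm.val, RO.mem_iInf] at hall
      push Not at hall
      obtain ⟨a, ha⟩ := hall
      obtain ⟨t, ht, ht'⟩ := RO.not_mem_iff.1 ha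
      exact ⟨t, ht.trans hs, hs'.imp (RO.lower _ ht) (RO.lower _ ht), Or.inr ⟨a, ht'⟩⟩)
  let f : I → K2 := fun i =>
    if h : ∃ a, q ∈ ((i.1.val M (Function.update (asg (i.2.2.map Subtype.val)) i.2.1 a))ᶜ).carrier
    then h.choose else γ
  obtain ⟨γ₁, hγ₁⟩ := exists_bound hI f
  refine ⟨q, hq, max γ₁ (exists_gt_K2 γ).choose, lt_max_of_lt_right (exists_gt_K2 γ).choose_spec, ?_⟩
  intro φ k l hl
  obtain ⟨l', rfl⟩ : ∃ l' : List (Iio γ), l'.map Subtype.val = l :=
    ⟨l.pmap (fun x hx => ⟨x, hx⟩) hl, by simp [List.map_pmap]⟩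
  have h := hqD (φ, k, l')
  refine ⟨h.1, fun hc => ?_⟩
  rcases h.2 with h2 | h2
  · exact (not_mem_both h2 hc).elim
  · refine ⟨f (φ, k, l'), lt_max_of_lt_left (hγ₁ _), ?_⟩
    have h3 : f (φ, k, l') = h2.choose := dif_pos h2
    rw [h3]
    exact h2.choose_spec

/-- there is a condition below `p` which decides all statements with parameters below `γ`, and
has witnesses below `γ` -/
theorem exists_closed (hcl : IsClosed1 P) (p : P) (γ₀ : K2) :
    ∃ q ≤ p, ∃ γ > γ₀, ∀ (φ : Fm) (k : ℕ) (v : ℕ → K2), (∀ j, v j < γ) →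
      (q ∈ (φ.val M v).carrier ∨ q ∈ ((φ.val M v)ᶜ).carrier) ∧
      (q ∈ (((Fm.all k φ).val M v)ᶜ).carrier →
        ∃ a < γ, q ∈ ((φ.val M (Function.update v k a))ᶜ).carrier) := by
  classical
  choose g hg γ' hγ' hstep using fun (x : P × K2) => exists_step M hcl x.1 x.2
  let s : ℕ → P × K2 := fun n => Nat.rec (p, γ₀) (fun _ x => (g x, γ' x)) n
  have hs1 : ∀ n, (s (n + 1)).1 ≤ (s n).1 := fun n => hg (s n)
  have hs2 : ∀ n, (s n).2 < (s (n + 1)).2 := fun n => hγ' (s n)
  obtain ⟨q, hq⟩ := hcl.seq (fun n => (s n).1) hs1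
  obtain ⟨δ, hδ⟩ := exists_bound (I := ℕ) countable_le_aleph1 (fun n => (s n).2)
  have hne : {x : K2 | ∀ n, (s n).2 ≤ x}.Nonempty := ⟨δ, fun n => (hδ n).le⟩
  let γ : K2 := wellFounded_lt.min {x : K2 | ∀ n, (s n).2 ≤ x} hne
  have hγ : ∀ n, (s n).2 ≤ γ := wellFounded_lt.min_mem _ hne
  have hγmin : ∀ x < γ, ∃ n, x < (s n).2 := by
    intro x hx
    by_contra hc
    push Not at hc
    exact wellFounded_lt.not_lt_min {x : K2 | ∀ n, (s n).2 ≤ x} hc hx
  have hmono : Monotone fun n => (s n).2 := monotone_nat_of_le_succ fun n => (hs2 n).le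
  refine ⟨q, hq 0, γ, (hs2 0).trans_le (hγ 1), ?_⟩
  intro φ k v hv
  obtain ⟨l, hl, hl'⟩ := exists_list (Fm.imp φ (Fm.all k φ)) v γ hv
  have hn : ∃ n, ∀ x ∈ l, x < (s n).2 := by
    clear hl'
    induction l with
    | nil => exact ⟨0, fun x hx => by simp at hx⟩
    | cons a l ih =>
      obtain ⟨n, hn⟩ := ih fun x hx => hl x (List.mem_cons_of_mem _ hx)
      obtain ⟨m, hm⟩ := hγmin a (hl a List.mem_cons_self)
      refine ⟨max n m, fun x hx => ?_⟩
      rcases List.mem_cons.1 hx with rfl | hx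
      · exact hm.trans_le (hmono (le_max_right n m))
      · exact (hn x hx).trans_le (hmono (le_max_left n m))
  obtain ⟨n, hn⟩ := hn
  have h := hstep (s n) φ k l hn
  have e1 : φ.val M (asg l) = φ.val M v :=
    Fm.val_congr M φ fun j hj => hl' j (by simp [Fm.fv, hj])
  have e2 : (Fm.all k φ).val M (asg l) = (Fm.all k φ).val M v :=
    Fm.val_congr M _ fun j hj => hl' j (by
      rw [Fm.fv, Finset.mem_union]
      exact Or.inr hj)
  have e3 : ∀ a, φ.val M (Function.update (asg l) k a) = φ.val M (Function.update v k a) := by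
    intro a
    refine Fm.val_congr M φ fun j hj => ?_
    by_cases hjk : j = k
    · subst hjk
      simp
    · rw [Function.update_of_ne hjk, Function.update_of_ne hjk]
      exact hl' j (by simp [Fm.fv, hj])
  rw [e1, e2] at h
  have hqn : q ≤ g (s n) := hq (n + 1)
  refine ⟨h.1.imp (RO.lower _ hqn) (RO.lower _ hqn), fun hc => ?_⟩
  -- the condition `g (s n)` decides `∀ v_k, φ`
  have h' := hstep (s n) (Fm.all k φ) k l hn
  rw [e2] at h'
  rcases h'.1 with h1 | h1
  · exact (not_mem_both (RO.lower _ hqn h1) hc).elim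
  · obtain ⟨a, ha, ha'⟩ := h.2 h1
    rw [e3] at ha'
    exact ⟨a, ha.trans_le (hγ (n + 1)), RO.lower _ hqn ha'⟩

/-- the two-valued structure `N` with universe `γ` is the restriction of `M` as decided by `q`, and
it is an elementary substructure -/
def Decides (q : P) (γ : K2) (N : NStr (Iio γ)) : Prop :=
  ∀ (φ : Fm) (v : ℕ → Iio γ), φ.sat N v ↔ q ∈ (φ.val M fun k => (v k : K2)).carrier

variable {M}

theorem Decides.neg {q : P} {γ : K2} {N : NStr (Iio γ)} (h : Decides M q γ N) (φ : Fm)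
    (v : ℕ → Iio γ) : ¬ φ.sat N v ↔ q ∈ ((φ.val M fun k => (v k : K2))ᶜ).carrier := by
  rw [← Fm.val_neg, ← h, Fm.sat_neg']

theorem Decides.mono {q q' : P} {γ : K2} {N : NStr (Iio γ)} (h : Decides M q γ N) (hq : q' ≤ q) :
    Decides M q' γ N := by
  intro φ v
  constructor
  · intro h'
    exact RO.lower _ hq ((h φ v).1 h')
  · intro h'
    by_contra hc
    exact not_mem_both h' (RO.lower _ hq ((h.neg φ v).1 hc))

variable (M)

/-- `M` is a structure at `p` -/
theorem strVal_iff (p : P) : p ∈ (M.strVal).carrier ↔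
    p ∈ (⨆ x, M.zero x).carrier ∧ (∀ x y, ∀ q ≤ p, q ∈ (M.zero x).carrier → q ∈ (M.zero y).carrier → x = y) ∧
    p ∈ (⨆ x, M.one x).carrier ∧ (∀ x y, ∀ q ≤ p, q ∈ (M.one x).carrier → q ∈ (M.one y).carrier → x = y) ∧
    (∀ a b, p ∈ (⨆ x, M.add a b x).carrier) ∧
    (∀ a b x y, ∀ q ≤ p, q ∈ (M.add a b x).carrier → q ∈ (M.add a b y).carrier → x = y) ∧
    (∀ a b, p ∈ (⨆ x, M.mul a b x).carrier) ∧
    (∀ a b x y, ∀ q ≤ p, q ∈ (M.mul a b x).carrier → q ∈ (M.mul a b y).carrier → x = y) := by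
  simp only [BStr.strVal, RO.mem_inf, RO.mem_iInf, RO.mem_himp, mem_tv, and_imp, and_assoc]

/-- reflection, structure part: a structure on `γ` with the right values of the terms -/
theorem exists_NStr {q : P} {γ : K2} (hq : q ∈ (M.strVal).carrier)
    (hγ : ∀ (φ : Fm) (k : ℕ) (v : ℕ → K2), (∀ j, v j < γ) →
      (q ∈ (φ.val M v).carrier ∨ q ∈ ((φ.val M v)ᶜ).carrier) ∧
      (q ∈ (((Fm.all k φ).val M v)ᶜ).carrier →
        ∃ a < γ, q ∈ ((φ.val M (Function.update v k a))ᶜ).carrier)) (hne : ∃ γ₀, γ₀ < γ) :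
    ∃ N : NStr (Iio γ), Decides M q γ N := by
  obtain ⟨γ₀, hγ₀⟩ := hne
  obtain ⟨hz, hz', ho, ho', ha, ha', hm, hm'⟩ := (strVal_iff M q).1 hq
  -- witnesses
  have wit : ∀ (φ : Fm) (k : ℕ) (v : ℕ → K2), (∀ j, v j < γ) →
      q ∈ (⨆ a, φ.val M (Function.update v k a)).carrier →
      ∃ a < γ, q ∈ (φ.val M (Function.update v k a)).carrier := by
    intro φ k v hv h
    obtain ⟨a, ha, ha'⟩ := (hγ φ.neg k v hv).2 (by
      rw [← Fm.val_neg]
      have : (Fm.all k φ.neg).neg.val M v = ⨆ a, φ.val M (Function.update v k a) := Fm.val_ex M k φ v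
      rw [this]
      exact h)
    rw [Fm.val_neg, compl_compl] at ha'
    exact ⟨a, ha, ha'⟩
  have hv2 : ∀ a b : Iio γ, ∀ j, (fun k : ℕ => if k = 0 then (a : K2) else b) j < γ := by
    intro a b j
    by_cases hj : j = 0
    · simp only [hj, if_true]
      exact a.2
    · simp only [hj, if_false]
      exact b.2
  obtain ⟨z, hzγ, hz1⟩ : ∃ z < γ, q ∈ (M.zero z).carrier := by
    obtain ⟨z, hz1, hz2⟩ := wit (.eq (.var 0) .zero) 0 (fun _ => γ₀) (fun _ => hγ₀) (by
      simpa [Fm.val, Tm.val, iSup_tv_inf] using hz)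
    exact ⟨z, hz1, by simpa [Fm.val, Tm.val, iSup_tv_inf] using hz2⟩
  obtain ⟨o, hoγ, ho1⟩ : ∃ z < γ, q ∈ (M.one z).carrier := by
    obtain ⟨z, hz1, hz2⟩ := wit (.eq (.var 0) .one) 0 (fun _ => γ₀) (fun _ => hγ₀) (by
      simpa [Fm.val, Tm.val, iSup_tv_inf] using ho)
    exact ⟨z, hz1, by simpa [Fm.val, Tm.val, iSup_tv_inf] using hz2⟩
  have haddv : ∀ (a b x : K2) (w : ℕ → K2), w 0 = a → w 1 = b → w 2 = x →
      (Fm.eq (.add (.var 0) (.var 1)) (.var 2)).val M w = M.add a b x := by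
    rintro a b x w rfl rfl rfl
    simp only [Fm.val, Tm.val, iSup_inf_tv]
    simp_rw [inf_assoc, ← inf_iSup_eq, iSup_tv_inf]
  have hmulv : ∀ (a b x : K2) (w : ℕ → K2), w 0 = a → w 1 = b → w 2 = x →
      (Fm.eq (.mul (.var 0) (.var 1)) (.var 2)).val M w = M.mul a b x := by
    rintro a b x w rfl rfl rfl
    simp only [Fm.val, Tm.val, iSup_inf_tv]
    simp_rw [inf_assoc, ← inf_iSup_eq, iSup_tv_inf]
  have hadd : ∀ a b : Iio γ, ∃ x : Iio γ, q ∈ (M.add a b x).carrier := by
    intro a b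
    obtain ⟨x, hx, hx'⟩ := wit (.eq (.add (.var 0) (.var 1)) (.var 2)) 2
      (fun k : ℕ => if k = 0 then (a : K2) else b) (hv2 a b) (by
        have : (fun x => (Fm.eq (.add (.var 0) (.var 1)) (.var 2)).val M
            (Function.update (fun k : ℕ => if k = 0 then (a : K2) else b) 2 x)) = fun x => M.add a b x := by
          funext x
          exact haddv _ _ _ _ (by simp) (by simp) (by simp)
        rw [this]
        exact ha a b)
    rw [haddv a b x _ (by simp) (by simp) (by simp)] at hx'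
    exact ⟨⟨x, hx⟩, hx'⟩
  have hmul : ∀ a b : Iio γ, ∃ x : Iio γ, q ∈ (M.mul a b x).carrier := by
    intro a b
    obtain ⟨x, hx, hx'⟩ := wit (.eq (.mul (.var 0) (.var 1)) (.var 2)) 2
      (fun k : ℕ => if k = 0 then (a : K2) else b) (hv2 a b) (by
        have : (fun x => (Fm.eq (.mul (.var 0) (.var 1)) (.var 2)).val M
            (Function.update (fun k : ℕ => if k = 0 then (a : K2) else b) 2 x)) = fun x => M.mul a b x := by
          funext x
          exact hmulv _ _ _ _ (by simp) (by simp) (by simp)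
        rw [this]
        exact hm a b)
    rw [hmulv a b x _ (by simp) (by simp) (by simp)] at hx'
    exact ⟨⟨x, hx⟩, hx'⟩
  choose fadd hfadd using hadd
  choose fmul hfmul using hmul
  let N : NStr (Iio γ) := ⟨⟨z, hzγ⟩, ⟨o, hoγ⟩, fadd, fmul, fun a b => q ∈ (M.lt a b).carrier⟩
  have hterm : ∀ (t : Tm) (v : ℕ → Iio γ) (r : P), r ≤ q → ∀ x : K2,
      r ∈ (t.val M (fun k => (v k : K2)) x).carrier ↔ x = ((t.ev N v : Iio γ) : K2) := by
    intro t v
    induction t with
    | var k =>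
      intro r _ x
      simp only [Tm.val, Tm.ev, mem_tv]
      exact eq_comm
    | zero =>
      intro r hr x
      simp only [Tm.val, Tm.ev]
      constructor
      · intro h
        exact hz' _ _ r hr h (RO.lower _ hr hz1)
      · rintro rfl
        exact RO.lower _ hr hz1
    | one =>
      intro r hr x
      simp only [Tm.val, Tm.ev]
      constructor
      · intro h
        exact ho' _ _ r hr h (RO.lower _ hr ho1)
      · rintro rfl
        exact RO.lower _ hr ho1
    | add t u iht ihu =>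
      intro r hr x
      simp only [Tm.val, Tm.ev, RO.mem_iSup]
      constructor
      · intro h
        obtain ⟨s, hs, a, h⟩ := h r le_rfl
        obtain ⟨s', hs', b, h⟩ := h s le_rfl
        have hs'q : s' ≤ q := hs'.trans (hs.trans hr)
        rw [RO.mem_inf, RO.mem_inf, iht s' hs'q, ihu s' hs'q] at h
        obtain ⟨⟨rfl, rfl⟩, h⟩ := h
        exact ha' _ _ _ _ s' hs'q h (RO.lower _ hs'q (hfadd _ _))
      · rintro rfl s hs
        refine ⟨s, le_rfl, ((t.ev N v : Iio γ) : K2), fun s' hs' => ⟨s', le_rfl, ((u.ev N v : Iio γ) : K2), ?_⟩⟩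
        have hs'q : s' ≤ q := hs'.trans (hs.trans hr)
        rw [RO.mem_inf, RO.mem_inf, iht s' hs'q, ihu s' hs'q]
        exact ⟨⟨rfl, rfl⟩, RO.lower _ hs'q (hfadd _ _)⟩
    | mul t u iht ihu =>
      intro r hr x
      simp only [Tm.val, Tm.ev, RO.mem_iSup]
      constructor
      · intro h
        obtain ⟨s, hs, a, h⟩ := h r le_rfl
        obtain ⟨s', hs', b, h⟩ := h s le_rfl
        have hs'q : s' ≤ q := hs'.trans (hs.trans hr)
        rw [RO.mem_inf, RO.mem_inf, iht s' hs'q, ihu s' hs'q] at h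
        obtain ⟨⟨rfl, rfl⟩, h⟩ := h
        exact hm' _ _ _ _ s' hs'q h (RO.lower _ hs'q (hfmul _ _))
      · rintro rfl s hs
        refine ⟨s, le_rfl, ((t.ev N v : Iio γ) : K2), fun s' hs' => ⟨s', le_rfl, ((u.ev N v : Iio γ) : K2), ?_⟩⟩
        have hs'q : s' ≤ q := hs'.trans (hs.trans hr)
        rw [RO.mem_inf, RO.mem_inf, iht s' hs'q, ihu s' hs'q]
        exact ⟨⟨rfl, rfl⟩, RO.lower _ hs'q (hfmul _ _)⟩
  have hform : ∀ (φ : Fm) (v : ℕ → Iio γ),
      (φ.sat N v → q ∈ (φ.val M fun k => (v k : K2)).carrier) ∧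
      (¬ φ.sat N v → q ∈ ((φ.val M fun k => (v k : K2))ᶜ).carrier) := by
    intro φ
    induction φ with
    | eq t u =>
      intro v
      simp only [Fm.sat, Fm.val]
      constructor
      · intro h
        refine mem_iSup_of_mem ((t.ev N v : Iio γ) : K2) ?_
        rw [RO.mem_inf, hterm t v q le_rfl, hterm u v q le_rfl]
        exact ⟨rfl, by rw [h]⟩
      · intro h r hr hr'
        obtain ⟨s, hs, a, h'⟩ := RO.mem_iSup.1 hr' r le_rfl
        rw [RO.mem_inf, hterm t v s (hs.trans hr), hterm u v s (hs.trans hr)] at h'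
        exact h (Subtype.ext (h'.1.symm.trans h'.2))
    | lt t u =>
      intro v
      simp only [Fm.sat, Fm.val]
      have hdec := (hγ (.lt (.var 0) (.var 1)) 0
        (fun k : ℕ => if k = 0 then ((t.ev N v : Iio γ) : K2) else ((u.ev N v : Iio γ) : K2)) (hv2 _ _)).1
      have hval : (Fm.lt (.var 0) (.var 1)).val M
          (fun k : ℕ => if k = 0 then ((t.ev N v : Iio γ) : K2) else ((u.ev N v : Iio γ) : K2)) =
          M.lt ((t.ev N v : Iio γ) : K2) ((u.ev N v : Iio γ) : K2) := by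
        simp only [Fm.val, Tm.val]
        simp_rw [inf_assoc, ← inf_iSup_eq, iSup_tv_inf]
        simp
      rw [hval] at hdec
      constructor
      · intro h
        refine mem_iSup_of_mem ((t.ev N v : Iio γ) : K2) (mem_iSup_of_mem ((u.ev N v : Iio γ) : K2) ?_)
        rw [RO.mem_inf, RO.mem_inf, hterm t v q le_rfl, hterm u v q le_rfl]
        exact ⟨⟨rfl, rfl⟩, h⟩
      · intro h r hr hr'
        obtain ⟨s, hs, a, h'⟩ := RO.mem_iSup.1 hr' r le_rfl
        obtain ⟨s', hs', b, h'⟩ := RO.mem_iSup.1 h' s le_rfl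
        have hs'q : s' ≤ q := hs'.trans (hs.trans hr)
        rw [RO.mem_inf, RO.mem_inf, hterm t v s' hs'q, hterm u v s' hs'q] at h'
        obtain ⟨⟨rfl, rfl⟩, h'⟩ := h'
        rcases hdec with hd | hd
        · exact h hd
        · exact not_mem_both h' (RO.lower _ hs'q hd)
    | bot =>
      intro v
      simp only [Fm.sat, Fm.val]
      exact ⟨False.elim, fun _ r _ hr => RO.not_mem_bot hr⟩
    | imp φ ψ ihφ ihψ =>
      intro v
      simp only [Fm.sat, Fm.val]
      constructor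
      · intro h
        rw [RO.mem_himp]
        intro r hr hr'
        by_cases hφ : φ.sat N v
        · exact RO.lower _ hr ((ihψ v).1 (h hφ))
        · exact (not_mem_both hr' (RO.lower _ hr ((ihφ v).2 hφ))).elim
      · intro h r hr hr'
        push Not at h
        rw [RO.mem_himp] at hr'
        exact not_mem_both (hr' r le_rfl (RO.lower _ hr ((ihφ v).1 h.1))) (RO.lower _ hr ((ihψ v).2 h.2))
    | all k φ ih =>
      intro v
      have hco : ∀ a : Iio γ, (fun j => ((Function.update v k a j : Iio γ) : K2)) =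
          Function.update (fun j => (v j : K2)) k a := by
        intro a
        funext j
        by_cases hj : j = k
        · subst hj
          simp
        · simp [Function.update_of_ne hj]
      constructor
      · intro h
        rcases (hγ (Fm.all k φ) k (fun j => (v j : K2)) (fun j => (v j).2)).1 with h1 | h1
        · exact h1
        · obtain ⟨a, ha, ha'⟩ := (hγ φ k (fun j => (v j : K2)) (fun j => (v j).2)).2 h1
          have h2 := (ih (Function.update v k ⟨a, ha⟩)).1 (h ⟨a, ha⟩)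
          rw [hco] at h2
          exact (not_mem_both h2 ha').elim
      · intro h
        simp only [Fm.sat] at h
        push Not at h
        obtain ⟨a, ha⟩ := h
        have h2 := (ih (Function.update v k a)).2 ha
        rw [hco] at h2
        intro r hr hr'
        simp only [Fm.val, RO.mem_iInf] at hr'
        exact not_mem_both (hr' a) (RO.lower _ hr h2)
  refine ⟨N, fun φ v => ⟨(hform φ v).1, fun h => ?_⟩⟩
  by_contra hc
  exact not_mem_both h ((hform φ v).2 hc)

/-- a number larger than all variables of a formula -/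
def Fm.fresh (φ : Fm) (k : ℕ) : ℕ := φ.fv.sup id + k + 1

theorem Fm.fresh_ne (φ : Fm) (k : ℕ) : φ.fresh k ≠ k := by
  unfold Fm.fresh
  omega

theorem Fm.fresh_not_mem (φ : Fm) (k : ℕ) : φ.fresh k ∉ φ.fv := by
  intro h
  have := Finset.le_sup (f := id) h
  unfold Fm.fresh at this
  simp only [id] at this
  omega

/-- the formula `∀ v_k, (φ(v_k) → φ(v_k + 1))` -/
def Fm.step (φ : Fm) (k : ℕ) : Fm :=
  .all k (.imp φ (.all (φ.fresh k) (.imp (.eq (.var (φ.fresh k)) (.add (.var k) .one))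
    (.all k (.imp (.eq (.var k) (.var (φ.fresh k))) φ)))))

theorem Fm.sat_step {A : Type} (N : NStr A) (φ : Fm) (k : ℕ) (v : ℕ → A) :
    (φ.step k).sat N v ↔ ∀ x, φ.sat N (Function.update v k x) →
      φ.sat N (Function.update v k (N.add x N.one)) := by
  have hne := φ.fresh_ne k
  have hkey : ∀ x y z : A, φ.sat N (Function.update (Function.update (Function.update v k x)
      (φ.fresh k) y) k z) ↔ φ.sat N (Function.update v k z) := by
    intro x y z
    refine Fm.sat_congr' N φ fun j hj => ?_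
    by_cases hjk : j = k
    · subst hjk
      simp
    · have hjf : j ≠ φ.fresh k := fun h => φ.fresh_not_mem k (h ▸ hj)
      simp [Function.update_of_ne hjk, Function.update_of_ne hjf]
  simp only [Fm.step, Fm.sat, Tm.ev, hkey, Function.update_self, Function.update_of_ne hne.symm,
    Function.update_of_ne hne]
  simp

theorem Fm.val_step (φ : Fm) (k : ℕ) (v : ℕ → K2) {p : P}
    (h : p ∈ ((φ.step k).val M v).carrier) : p ∈ (⨅ x, ⨅ o, ⨅ y, M.one o ⊓ M.add x o y ⊓
      φ.val M (Function.update v k x) ⇨ φ.val M (Function.update v k y)).carrier := by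
  have hne := φ.fresh_ne k
  have hkey : ∀ x y z : K2, φ.val M (Function.update (Function.update (Function.update v k x)
      (φ.fresh k) y) k z) = φ.val M (Function.update v k z) := by
    intro x y z
    refine Fm.val_congr M φ fun j hj => ?_
    by_cases hjk : j = k
    · subst hjk
      simp
    · have hjf : j ≠ φ.fresh k := fun h => φ.fresh_not_mem k (h ▸ hj)
      simp [Function.update_of_ne hjk, Function.update_of_ne hjf]
  simp only [Fm.step, Fm.val, Tm.val, hkey, Function.update_self, Function.update_of_ne hne.symm,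
    Function.update_of_ne hne, RO.mem_iInf, RO.mem_himp, RO.mem_inf] at h ⊢
  intro x o y q hq hq'
  refine h x q hq hq'.2 y q le_rfl ?_ y q le_rfl ?_
  · refine mem_iSup_of_mem y ?_
    rw [RO.mem_inf, mem_tv]
    refine ⟨rfl, mem_iSup_of_mem x (mem_iSup_of_mem o ?_)⟩
    rw [RO.mem_inf, RO.mem_inf, mem_tv]
    exact ⟨⟨rfl, hq'.1.1⟩, hq'.1.2⟩
  · refine mem_iSup_of_mem y ?_
    rw [RO.mem_inf, mem_tv]
    exact ⟨rfl, rfl⟩

theorem Decides.pa {q : P} {γ : K2} {N : NStr (Iio γ)} (h : Decides M q γ N)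
    (hq : q ∈ (M.paVal).carrier) : N.PA := by
  have hq' := hq
  simp only [BStr.paVal, RO.mem_inf, RO.mem_iInf] at hq'
  obtain ⟨⟨hstr, hbas⟩, hind⟩ := hq'
  obtain ⟨hz, hz', -⟩ := (strVal_iff M q).1 hstr
  constructor
  · intro φ hφ v
    exact (h φ v).2 (hbas φ hφ _)
  · intro φ k v h0 hs x
    have hco : ∀ a : Iio γ, (fun j => ((Function.update v k a j : Iio γ) : K2)) =
        Function.update (fun j => (v j : K2)) k a := by
      intro a
      funext j
      by_cases hj : j = k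
      · subst hj
        simp
      · simp [Function.update_of_ne hj]
    simp only [BStr.indVal, RO.mem_iInf, RO.mem_himp, RO.mem_inf] at hind
    have hzero : q ∈ (M.zero (N.zero : Iio γ)).carrier := by
      have h1 := (h (.eq (.var 0) .zero) (fun _ => N.zero)).1 rfl
      simpa [Fm.val, Tm.val, iSup_tv_inf] using h1
    have h1 := hind φ k (fun j => (v j : K2)) q le_rfl ⟨?_, ?_⟩ x
    · rw [← hco, ← h] at h1
      exact h1
    · intro y r hr hr'
      have hy : y = (N.zero : Iio γ) := hz' _ _ r hr hr' (RO.lower _ hr hzero)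
      subst hy
      rw [h, hco] at h0
      exact RO.lower _ hr h0
    · have h2 := (h (φ.step k) v).1 ((Fm.sat_step N φ k v).2 hs)
      have h3 := Fm.val_step M φ k _ h2
      simp only [RO.mem_iInf, RO.mem_himp, RO.mem_inf] at h3
      exact h3

/-- reflection -/
theorem reflect (hcl : IsClosed1 P) {p : P} (hp : p ∈ (M.paVal).carrier) (γ₀ : K2) :
    ∃ q ≤ p, ∃ γ > γ₀, ∃ N : NStr (Iio γ), N.PA ∧ Decides M q γ N := by
  obtain ⟨q, hq, γ, hγ, hstep⟩ := exists_closed M hcl p γ₀
  have hqp := RO.lower _ hq hp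
  have hstr : q ∈ (M.strVal).carrier := by
    simp only [BStr.paVal, RO.mem_inf] at hqp
    exact hqp.1.1
  obtain ⟨N, hN⟩ := exists_NStr M hstr hstep ⟨γ₀, hγ⟩
  exact ⟨q, hq, γ, hγ, N, hN.pa M hqp, hN⟩

/-- a formula which holds in all models of arithmetic is forced -/
theorem transfer (hcl : IsClosed1 P) {p : P} (hp : p ∈ (M.paVal).carrier) (φ : Fm)
    (hφ : ∀ (A : Type) (N : NStr A), N.PA → ∀ v, φ.sat N v) (v : ℕ → K2) :
    p ∈ (φ.val M v).carrier := by
  by_contra hc
  obtain ⟨q, hq, hq'⟩ := RO.not_mem_iff.1 hc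
  obtain ⟨γ₀, hγ₀⟩ := exists_bound (I := ℕ) countable_le_aleph1 v
  obtain ⟨r, hr, γ, hγ, N, hN, hD⟩ := reflect M hcl (RO.lower _ hq hp) γ₀
  have h1 := hφ _ N hN (fun k => ⟨v k, (hγ₀ k).trans hγ⟩)
  rw [hD] at h1
  exact not_mem_both h1 (RO.lower _ hr hq')

end Pool.Agent.Helper84.Kauf
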