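import Pool.Agent.Helper84.Kauf.Defs

set_option autoImplicit false

/-!
# Two-valued structures and some explicit formulas
-/

open Cardinal Set

namespace Pool.Agent.Helper84.Kauf

/-- two-valued structures -/
structure NStr (A : Type) where
  zero : A
  one : A
  add : A → A → A
  mul : A → A → A
  lt : A → A → Prop

section
variable {A : Type}

/-- value of a term -/
def Tm.ev (N : NStr A) (v : ℕ → A) : Tm → A
  | .var k => v k
  | .zero => N.zero
  | .one => N.one
  | .add t u => N.add (t.ev N v) (u.ev N v)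
  | .mul t u => N.mul (t.ev N v) (u.ev N v)

/-- satisfaction -/
def Fm.sat (N : NStr A) (v : ℕ → A) : Fm → Prop
  | .eq t u => t.ev N v = u.ev N v
  | .lt t u => N.lt (t.ev N v) (u.ev N v)
  | .bot => False
  | .imp φ ψ => φ.sat N v → ψ.sat N v
  | .all k φ => ∀ a, φ.sat N (Function.update v k a)

/-- `N` is a model of Peano arithmetic -/
structure NStr.PA (N : NStr A) : Prop where
  basic : ∀ φ ∈ basicAxioms, ∀ v : ℕ → A, φ.sat N v
  ind : ∀ (φ : Fm) (k : ℕ) (v : ℕ → A), φ.sat N (Function.update v k N.zero) →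
    (∀ x, φ.sat N (Function.update v k x) →
      φ.sat N (Function.update v k (N.add x N.one))) →
    ∀ x, φ.sat N (Function.update v k x)

/-- standard numbers -/
def NStr.num (N : NStr A) : ℕ → A
  | 0 => N.zero
  | n + 1 => N.add (N.num n) N.one

/-- the pair `(x + y) ^ 2 + x` -/
def NStr.pr (N : NStr A) (x y : A) : A := N.add (N.mul (N.add x y) (N.add x y)) x

/-- `z` is an element of the set coded by `c`: `c` is a pair `(u, w)` and `1 + (z + 1) u`
divides `w` -/
def NStr.El (N : NStr A) (z c : A) : Prop :=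
  ∃ u w q, c = N.pr u w ∧
    N.mul (N.add N.one (N.mul (N.add z N.one) u)) q = w

end

/-- numerals -/
def Tm.num : ℕ → Tm
  | 0 => .zero
  | n + 1 => .add (Tm.num n) .one

/-- the term `(t + u) ^ 2 + t` -/
def Tm.pr (t u : Tm) : Tm := .add (.mul (.add t u) (.add t u)) t

/-- conjunction -/
def Fm.and (φ ψ : Fm) : Fm := (Fm.imp φ ψ.neg).neg

/-- equivalence -/
def Fm.iff (φ ψ : Fm) : Fm := (Fm.imp φ ψ).and (Fm.imp ψ φ)

/-- the formula `t ∈ s` (bound variables `v_k`, `v_{k+1}`, `v_{k+2}`, which should not occur in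
`t` and `s`) -/
def Fm.el (t s : Tm) (k : ℕ) : Fm :=
  Fm.ex k (Fm.ex (k + 1) (Fm.ex (k + 2)
    ((Fm.eq s (Tm.pr (.var k) (.var (k + 1)))).and
      (Fm.eq (.mul (.add .one (.mul (.add t .one) (.var k))) (.var (k + 2))) (.var (k + 1))))))

/-- `∀ v_n, ..., ∀ v_1, φ` -/
def Fm.cl : ℕ → Fm → Fm
  | 0, φ => φ
  | n + 1, φ => Fm.all (n + 1) (Fm.cl n φ)


/-- the formula `∀ v_2 < v_1, ((n, v_2) ∈ v_0 ↔ Φ(v_2))`, where `Φ` is the closure of `φ` with respect
to the variables `v_1, ..., v_n` -/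
def Fm.pp (n : ℕ) (φ : Fm) : Fm :=
  Fm.all 2 (Fm.imp (.lt (.var 2) (.var 1))
    (Fm.iff (Fm.el (Tm.pr (Tm.num n) (.var 2)) (.var 0) 3)
      (Fm.all 0 (Fm.imp (.eq (.var 0) (.var 2)) (Fm.cl n φ)))))

/-- the type of the codes `v_0` of the truth set below `v_1` -/
def truthType : Set Fm := {ψ | ∃ φ : Fm, ψ = Fm.pp φ.code φ}

end Pool.Agent.Helper84.Kauf
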